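import Pool.Agent.MP_251804_lc.Defs

namespace Pool.Agent.MP_251804_lc
open Finset

def MonoN (l : ℕ) (c : Finset ℕ → ℕ) (S : Finset ℕ) : Prop :=
  ∀ T₁ T₂ : Finset ℕ, T₁ ⊆ S → T₂ ⊆ S → T₁.card = l → T₂.card = l → c T₁ = c T₂

def Good (N k l r : ℕ) : Prop :=
  ∃ c : Finset ℕ → ℕ, (∀ T, c T < k) ∧
    ∀ S : Finset ℕ, S ⊆ range N → S.card = r → ¬ MonoN l c S

lemma MonoN.subset {l : ℕ} {c : Finset ℕ → ℕ} {S S' : Finset ℕ} (h : MonoN l c S)
    (hs : S' ⊆ S) : MonoN l c S' :=
  fun T₁ T₂ h1 h2 => h T₁ T₂ (h1.trans hs) (h2.trans hs)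

lemma Good.mono {N N' k k' l r r' : ℕ} (h : Good N k l r) (hN : N' ≤ N) (hk : k ≤ k')
    (hr : r ≤ r') : Good N' k' l r' := by
  obtain ⟨c, hc, h⟩ := h
  refine ⟨c, fun T => (hc T).trans_le hk, fun S hS hcard hm => ?_⟩
  obtain ⟨S', hS', hc'⟩ := Finset.exists_subset_card_eq (s := S) (n := r) (by omega)
  exact h S' (hS'.trans (hS.trans (range_subset_range.2 hN))) hc' (hm.subset hS')

lemma Good.lt_of_le {N k l r : ℕ} (h : Good N k l r) (hl : l ≤ N) : l < r := by
  by_contra hr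
  push Not at hr
  obtain ⟨c, -, h⟩ := h
  refine h (range r) (range_subset_range.2 (by omega)) (card_range r) ?_
  intro T₁ T₂ h1 h2 c1 c2
  have e1 : T₁ = range r := Finset.eq_of_subset_of_card_le h1 (by rw [card_range]; omega)
  have e2 : T₂ = range r := Finset.eq_of_subset_of_card_le h2 (by rw [card_range]; omega)
  rw [e1, e2]

lemma good_of_lt {N k l r : ℕ} (hk : 0 < k) (h : N < r) : Good N k l r := by
  refine ⟨fun _ => 0, fun _ => hk, fun S hS hc _ => ?_⟩
  have := card_le_card hS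
  rw [card_range] at this
  omega

def Inc (r : ℕ) (x : ℕ → ℕ) : Prop := ∀ i j, i < j → j < r → x i < x j

def Loc (l : ℕ) (c : (ℕ → ℕ) → ℕ) : Prop := ∀ f g : ℕ → ℕ, (∀ i < l, f i = g i) → c f = c g

noncomputable def enum (T : Finset ℕ) (i : ℕ) : ℕ :=
  if h : i < T.card then T.orderEmbOfFin rfl ⟨i, h⟩ else 0

lemma enum_mem {T : Finset ℕ} {i : ℕ} (h : i < T.card) : enum T i ∈ T := by
  simp [enum, h]

lemma enum_inc (T : Finset ℕ) : Inc T.card (enum T) := by
  intro i j hij hj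
  have hi : i < T.card := by omega
  simp only [enum, hi, hj, dif_pos]
  exact (T.orderEmbOfFin rfl).strictMono (by exact hij)

lemma Inc.injOn {r : ℕ} {x : ℕ → ℕ} (h : Inc r x) : Set.InjOn x (range r : Finset ℕ) := by
  intro i hi j hj hij
  simp only [coe_range, Set.mem_Iio] at hi hj
  rcases lt_trichotomy i j with h1 | h1 | h1
  · have := h i j h1 hj; omega
  · exact h1
  · have := h j i h1 hi; omega

lemma Inc.card_image {r : ℕ} {x : ℕ → ℕ} (h : Inc r x) : (image x (range r)).card = r := by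
  rw [card_image_of_injOn h.injOn, card_range]

lemma enum_image {l : ℕ} {f : ℕ → ℕ} (hf : Inc l f) (i : ℕ) (hi : i < l) :
    enum (image f (range l)) i = f i := by
  have hc := hf.card_image
  have h1 : (fun j : Fin l => f j) = (image f (range l)).orderEmbOfFin hc := by
    apply Finset.orderEmbOfFin_unique
    · intro j; exact mem_image_of_mem _ (mem_range.2 j.2)
    · intro a b hab; exact hf a b hab b.2
  have h2 : i < (image f (range l)).card := by omega
  simp only [enum, h2, dif_pos]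
  have h3 := congrFun h1 ⟨i, hi⟩
  simp only at h3
  rw [h3]
  exact Finset.orderEmbOfFin_eq_orderEmbOfFin_iff.2 rfl

lemma image_enum (T : Finset ℕ) : image (enum T) (range T.card) = T := by
  apply Finset.eq_of_subset_of_card_le
  · intro a ha
    obtain ⟨i, hi, rfl⟩ := mem_image.1 ha
    exact enum_mem (mem_range.1 hi)
  · rw [(enum_inc T).card_image]

lemma Inc.comp {r l : ℕ} {x e : ℕ → ℕ} (hx : Inc r x) (he : Inc l e) (hb : ∀ i < l, e i < r) :
    Inc l (x ∘ e) := fun i j hij hj => hx _ _ (he i j hij hj) (hb j hj)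

lemma good_of_seq {N k l r : ℕ} (c : (ℕ → ℕ) → ℕ) (hloc : Loc l c) (hk : ∀ f, c f < k)
    (h : ∀ x, Inc r x → (∀ i < r, x i < N) →
      (∀ e₁ e₂, Inc l e₁ → Inc l e₂ → (∀ i < l, e₁ i < r) → (∀ i < l, e₂ i < r) →
        c (x ∘ e₁) = c (x ∘ e₂)) → False) : Good N k l r := by
  refine ⟨fun T => c (enum T), fun T => hk _, fun S hS hc hm => ?_⟩
  have hx : Inc r (enum S) := hc ▸ enum_inc S
  have hmem : ∀ i < r, enum S i ∈ S := fun i hi => enum_mem (by omega)
  refine h (enum S) hx (fun i hi => mem_range.1 (hS (hmem i hi))) ?_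
  have key : ∀ e, Inc l e → (∀ i < l, e i < r) →
      image (enum S ∘ e) (range l) ⊆ S ∧ (image (enum S ∘ e) (range l)).card = l ∧
        c (enum (image (enum S ∘ e) (range l))) = c (enum S ∘ e) := by
    intro e he hb
    refine ⟨?_, (hx.comp he hb).card_image, hloc _ _ (enum_image (hx.comp he hb))⟩
    intro a ha
    obtain ⟨i, hi, rfl⟩ := mem_image.1 ha
    exact hmem _ (hb i (mem_range.1 hi))
  intro e₁ e₂ h1 h2 b1 b2
  obtain ⟨s1, c1, q1⟩ := key e₁ h1 b1
  obtain ⟨s2, c2, q2⟩ := key e₂ h2 b2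
  rw [← q1, ← q2]
  exact hm _ _ s1 s2 c1 c2

lemma not_seq {N l r : ℕ} {c : Finset ℕ → ℕ}
    (h : ∀ S : Finset ℕ, S ⊆ range N → S.card = r → ¬ MonoN l c S)
    (y : ℕ → ℕ) (hy : Set.InjOn y (range r : Finset ℕ)) (hb : ∀ i < r, y i < N) (v : ℕ)
    (hv : ∀ e, Inc l e → (∀ i < l, e i < r) → c (image (y ∘ e) (range l)) = v) : False := by
  refine h (image y (range r)) ?_ (by rw [card_image_of_injOn hy, card_range]) ?_
  · intro a ha
    obtain ⟨i, hi, rfl⟩ := mem_image.1 ha
    exact mem_range.2 (hb i (mem_range.1 hi))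
  have key : ∀ T ⊆ image y (range r), T.card = l → c T = v := by
    intro T hT hc
    obtain ⟨U, hU, rfl⟩ := subset_image_iff.1 hT
    rw [card_image_of_injOn (hy.mono (by exact_mod_cast hU))] at hc
    have := hv (enum U) (hc ▸ enum_inc U)
      (fun i hi => mem_range.1 (hU (enum_mem (by omega))))
    rw [← image_image, ← hc, image_enum] at this
    exact this
  intro T₁ T₂ h1 h2 c1 c2
  rw [key T₁ h1 c1, key T₂ h2 c2]

lemma Good.seq2 {N k r : ℕ} (h : Good N k 2 r) : ∃ c : ℕ → ℕ → ℕ, (∀ a b, c a b < k) ∧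
    ∀ y : ℕ → ℕ, Set.InjOn y (range r : Finset ℕ) → (∀ i < r, y i < N) → ∀ v,
      (∀ i j, i < j → j < r → c (y i) (y j) = v) → False := by
  obtain ⟨c, hc, h⟩ := h
  refine ⟨fun a b => c {a, b}, fun a b => hc _, fun y hy hb v hv => ?_⟩
  refine not_seq h y hy hb v (fun e he hb' => ?_)
  have := hv (e 0) (e 1) (he 0 1 (by omega) (by omega)) (hb' 1 (by omega))
  rw [← this]
  congr 1
  ext a
  simp [range_add_one, or_comm]

lemma Good.seq3 {N k r : ℕ} (h : Good N k 3 r) : ∃ c : ℕ → ℕ → ℕ → ℕ, (∀ a b d, c a b d < k) ∧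
    ∀ y : ℕ → ℕ, Set.InjOn y (range r : Finset ℕ) → (∀ i < r, y i < N) → ∀ v,
      (∀ i j t, i < j → j < t → t < r → c (y i) (y j) (y t) = v) → False := by
  obtain ⟨c, hc, h⟩ := h
  refine ⟨fun a b d => c {a, b, d}, fun a b d => hc _, fun y hy hb v hv => ?_⟩
  refine not_seq h y hy hb v (fun e he hb' => ?_)
  have := hv (e 0) (e 1) (e 2) (he 0 1 (by omega) (by omega)) (he 1 2 (by omega) (by omega))
    (hb' 2 (by omega))
  rw [← this]
  congr 1
  ext a
  simp only [range_add_one, range_zero, image_insert, Function.comp_apply, mem_insert,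
    mem_singleton, insert_empty_eq, image_singleton]
  tauto

def tup (a b c d : ℕ) (i : ℕ) : ℕ := if i = 0 then a else if i = 1 then b else if i = 2 then c else d

lemma good2_of {N k r : ℕ} (c : ℕ → ℕ → ℕ) (hk : ∀ a b, c a b < k)
    (h : ∀ x, Inc r x → (∀ i < r, x i < N) → ∀ v,
      (∀ i j, i < j → j < r → c (x i) (x j) = v) → False) : Good N k 2 r := by
  refine good_of_seq (fun f => c (f 0) (f 1)) ?_ (fun f => hk _ _) ?_
  · intro f g hfg
    simp only [hfg 0 (by omega), hfg 1 (by omega)]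
  intro x hx hb hm
  refine h x hx hb (c (x 0) (x 1)) (fun i j hij hj => ?_)
  have := hm (tup i j 0 0) id ?_ (fun a b h _ => h) ?_ (fun a ha => by simp; omega)
  · simpa [tup] using this
  · intro a b hab hb
    obtain rfl : a = 0 := by omega
    obtain rfl : b = 1 := by omega
    simpa [tup] using hij
  · intro a ha
    interval_cases a <;> simp [tup] <;> omega

lemma good3_of {N k r : ℕ} (c : ℕ → ℕ → ℕ → ℕ) (hk : ∀ a b d, c a b d < k)
    (h : ∀ x, Inc r x → (∀ i < r, x i < N) → ∀ v,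
      (∀ i j t, i < j → j < t → t < r → c (x i) (x j) (x t) = v) → False) : Good N k 3 r := by
  refine good_of_seq (fun f => c (f 0) (f 1) (f 2)) ?_ (fun f => hk _ _ _) ?_
  · intro f g hfg
    simp only [hfg 0 (by omega), hfg 1 (by omega), hfg 2 (by omega)]
  intro x hx hb hm
  refine h x hx hb (c (x 0) (x 1) (x 2)) (fun i j t hij hjt ht => ?_)
  have := hm (tup i j t 0) id ?_ (fun a b h _ => h) ?_ (fun a ha => by simp; omega)
  · simpa [tup] using this
  · intro a b hab hb
    interval_cases b <;> interval_cases a <;> simp [tup] <;> omega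
  · intro a ha
    interval_cases a <;> simp [tup] <;> omega

lemma good4_of {N k r : ℕ} (c : ℕ → ℕ → ℕ → ℕ → ℕ) (hk : ∀ a b d e, c a b d e < k)
    (h : ∀ x, Inc r x → (∀ i < r, x i < N) → ∀ v,
      (∀ i j t u, i < j → j < t → t < u → u < r → c (x i) (x j) (x t) (x u) = v) → False) :
    Good N k 4 r := by
  refine good_of_seq (fun f => c (f 0) (f 1) (f 2) (f 3)) ?_ (fun f => hk _ _ _ _) ?_
  · intro f g hfg
    simp only [hfg 0 (by omega), hfg 1 (by omega), hfg 2 (by omega), hfg 3 (by omega)]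
  intro x hx hb hm
  refine h x hx hb (c (x 0) (x 1) (x 2) (x 3)) (fun i j t u hij hjt htu hu => ?_)
  have := hm (tup i j t u) id ?_ (fun a b h _ => h) ?_ (fun a ha => by simp; omega)
  · simpa [tup] using this
  · intro a b hab hb
    interval_cases b <;> interval_cases a <;> simp [tup] <;> omega
  · intro a ha
    interval_cases a <;> simp [tup] <;> omega

end Pool.Agent.MP_251804_lc
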