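import Pool.Agent.MP_251804_lc.Basic

namespace Pool.Agent.MP_251804_lc
open Finset

lemma arrows_ramseyR (m k l : ℕ) (hk : 0 < k) :
    Arrows (⊤ : SimpleGraph (Fin m)) k l (ramseyR (⊤ : SimpleGraph (Fin m)) k l) := by
  have hne : {r : ℕ | Arrows (⊤ : SimpleGraph (Fin m)) k l r}.Nonempty := by
    refine ⟨0, fun c => ⟨∅, by simp, le_rfl, fun T₁ T₂ h1 h2 => ?_⟩⟩
    have : T₁ = T₂ := Subtype.ext (by rw [subset_empty.1 h1, subset_empty.1 h2])
    rw [this]
  have hbd : BddAbove {r : ℕ | Arrows (⊤ : SimpleGraph (Fin m)) k l r} := by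
    refine ⟨m, fun r hr => ?_⟩
    obtain ⟨S, -, hS, -⟩ := hr (fun _ => ⟨0, hk⟩)
    have := card_le_univ S
    rw [Fintype.card_fin] at this
    omega
  exact Nat.sSup_mem hne hbd

lemma not_good_of_arrows {m k l r : ℕ} (h : Arrows (⊤ : SimpleGraph (Fin m)) k l r) :
    ¬ Good m k l r := by
  rintro ⟨c, hc, hg⟩
  obtain ⟨S, -, hS, hm⟩ := h (fun T => ⟨c (T.1.map Fin.valEmbedding), hc _⟩)
  obtain ⟨S', hS', hc'⟩ := Finset.exists_subset_card_eq hS
  refine hg (S'.map Fin.valEmbedding) ?_ (by rw [card_map, hc']) ?_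
  · intro a ha
    obtain ⟨i, -, rfl⟩ := mem_map.1 ha
    exact mem_range.2 i.2
  intro T₁ T₂ h1 h2 c1 c2
  obtain ⟨U₁, hU₁, rfl⟩ := subset_map_iff.1 h1
  obtain ⟨U₂, hU₂, rfl⟩ := subset_map_iff.1 h2
  rw [card_map] at c1 c2
  have q1 : (⊤ : SimpleGraph (Fin m)).IsNClique l U₁ :=
    ⟨fun a _ b _ hab => by simpa using hab, c1⟩
  have q2 : (⊤ : SimpleGraph (Fin m)).IsNClique l U₂ :=
    ⟨fun a _ b _ hab => by simpa using hab, c2⟩
  have := hm ⟨U₁, q1⟩ ⟨U₂, q2⟩ (hU₁.trans hS') (hU₂.trans hS')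
  exact congrArg Fin.val this

/-- The graph on `Fin n` given by a symmetric relation on naturals. -/
def relGraph (n : ℕ) (R : ℕ → ℕ → Prop) (hR : ∀ a b, R a b → R b a) : SimpleGraph (Fin n) where
  Adj u v := u ≠ v ∧ R u v
  symm := ⟨fun _ _ h => ⟨h.1.symm, hR _ _ h.2⟩⟩
  loopless := ⟨fun _ h => h.1 rfl⟩

lemma relGraph_cliqueNum {n w : ℕ} {R : ℕ → ℕ → Prop} (hR : ∀ a b, R a b → R b a)
    (h : ∀ S : Finset ℕ, S ⊆ range n → S.card = w + 1 → ∃ a ∈ S, ∃ b ∈ S, a ≠ b ∧ ¬ R a b) :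
    (relGraph n R hR).cliqueNum ≤ w := by
  obtain ⟨S, hS⟩ := (relGraph n R hR).exists_isNClique_cliqueNum
  by_contra hlt
  push Not at hlt
  obtain ⟨S', hS', hc'⟩ := Finset.exists_subset_card_eq (s := S) (n := w + 1)
    (by rw [hS.card_eq]; omega)
  obtain ⟨a, ha, b, hb, hab, hn⟩ := h (S'.map Fin.valEmbedding) (by
    intro a ha
    obtain ⟨i, -, rfl⟩ := mem_map.1 ha
    exact mem_range.2 i.2) (by rw [card_map, hc'])
  obtain ⟨i, hi, rfl⟩ := mem_map.1 ha
  obtain ⟨j, hj, rfl⟩ := mem_map.1 hb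
  have hij : i ≠ j := fun e => hab (by rw [e])
  exact hn (hS.isClique (hS' hi) (hS' hj) hij).2

lemma cert_nat {n k l r : ℕ} {R : ℕ → ℕ → Prop} (hR : ∀ a b, R a b → R b a) (hk : 0 < k)
    (c : {T : Finset (Fin n) // (relGraph n R hR).IsNClique l T} → Fin k)
    (hc : IsCert (relGraph n R hR) k l r c) :
    ∃ c' : Finset ℕ → ℕ, (∀ T, c' T < k) ∧ ∀ S : Finset ℕ, S ⊆ range n → S.card = r →
      (∀ a ∈ S, ∀ b ∈ S, a ≠ b → R a b) → ¬ MonoN l c' S := by
  classical
  refine ⟨fun T => if h : (relGraph n R hR).IsNClique l (univ.filter (fun v : Fin n => v.1 ∈ T))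
    then (c ⟨_, h⟩).1 else 0, ?_, ?_⟩
  · intro T
    beta_reduce
    split_ifs
    · exact Fin.is_lt _
    · exact hk
  intro S hS hcard hcl hm
  have hmap : (univ.filter (fun v : Fin n => v.1 ∈ S)).map Fin.valEmbedding = S := by
    ext a
    simp only [mem_map, mem_filter, mem_univ, true_and, Fin.valEmbedding_apply]
    constructor
    · rintro ⟨i, hi, rfl⟩; exact hi
    · intro ha; exact ⟨⟨a, mem_range.1 (hS ha)⟩, ha, rfl⟩
  refine hc ⟨univ.filter (fun v : Fin n => v.1 ∈ S), ⟨?_, ?_⟩, ?_⟩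
  · intro a ha b hb hab
    simp only [coe_filter, mem_univ, true_and, Set.mem_ofPred_eq] at ha hb
    exact ⟨hab, hcl _ ha _ hb (fun e => hab (Fin.ext e))⟩
  · rw [← hcard, ← hmap, card_map, hmap]
  · intro T₁ T₂ h1 h2
    have back : ∀ T : Finset (Fin n),
        univ.filter (fun v : Fin n => v.1 ∈ T.map Fin.valEmbedding) = T := by
      intro T
      ext v
      simp only [mem_filter, mem_univ, true_and, mem_map, Fin.valEmbedding_apply]
      constructor
      · rintro ⟨i, hi, e⟩; rwa [← Fin.ext e]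
      · intro hv; exact ⟨v, hv, rfl⟩
    have := hm (T₁.1.map Fin.valEmbedding) (T₂.1.map Fin.valEmbedding)
      (by rw [← hmap]; exact map_subset_map.2 h1) (by rw [← hmap]; exact map_subset_map.2 h2)
      (by rw [card_map, T₁.2.card_eq]) (by rw [card_map, T₂.2.card_eq])
    simp only [back] at this
    rw [dif_pos T₁.2, dif_pos T₂.2] at this
    exact Fin.ext this

/-- What completeness at one `n` gives, for graphs built from relations. -/
def CertAt (n w k l r : ℕ) : Prop :=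
  ∀ R : ℕ → ℕ → Prop, (∀ a b, R a b → R b a) →
    (∀ S : Finset ℕ, S ⊆ range n → S.card = w + 1 → ∃ a ∈ S, ∃ b ∈ S, a ≠ b ∧ ¬ R a b) →
    ∃ c' : Finset ℕ → ℕ, (∀ T, c' T < k) ∧ ∀ S : Finset ℕ, S ⊆ range n → S.card = r →
      (∀ a ∈ S, ∀ b ∈ S, a ≠ b → R a b) → ¬ MonoN l c' S

lemma CertAt.good {n w k l r : ℕ} (h : CertAt n w k l r) (hw : w ≤ n) (h0 : 0 < w) :
    Good w k l r := by
  obtain ⟨c, hc, hg⟩ := h (fun a b => a < w ∧ b < w) (fun a b h => ⟨h.2, h.1⟩) (by
    intro S hS hc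
    by_contra hn
    push Not at hn
    have : S ⊆ range w := by
      intro a ha
      obtain ⟨b, hb, hab⟩ := exists_mem_ne (s := S) (by omega) a
      exact mem_range.2 (hn b hb a ha hab).2
    have := card_le_card this
    rw [card_range] at this
    omega)
  exact ⟨c, hc, fun S hS hcard => hg S (hS.trans (range_subset_range.2 hw)) hcard
    (fun a ha b hb _ => ⟨mem_range.1 (hS ha), mem_range.1 (hS hb)⟩)⟩

lemma CertAt.good_cover {n w k r j : ℕ} (h : CertAt n w k 2 r) (hr : 3 ≤ r)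
    (H : ℕ → ℕ → ℕ → Prop) (hsym : ∀ t a b, H t a b → H t b a)
    (htri : ∀ t a b c, H t a b → H t b c → H t a c → False)
    (hcov : ∀ S : Finset ℕ, S ⊆ range n → S.card = w + 1 →
      ∃ a ∈ S, ∃ b ∈ S, a ≠ b ∧ ∃ t < j, H t a b) : Good n (k + j) 2 r := by
  classical
  obtain ⟨c, hc, hg⟩ := h (fun a b => ¬ ∃ t < j, H t a b)
    (fun a b h ⟨t, ht, h'⟩ => h ⟨t, ht, hsym _ _ _ h'⟩) (by
      intro S hS hc
      obtain ⟨a, ha, b, hb, hab, h'⟩ := hcov S hS hc
      exact ⟨a, ha, b, hb, hab, fun hn => hn h'⟩)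
  refine good2_of (fun a b => if h : ∃ t < j, H t a b then k + h.choose else c {a, b}) ?_ ?_
  · intro a b
    split_ifs with h1
    · have := h1.choose_spec.1; omega
    · have := hc {a, b}; omega
  intro x hx hb v hv
  beta_reduce at hv
  rcases lt_or_ge v k with hvk | hvk
  · have hno : ∀ i i', i < i' → i' < r → ¬ ∃ t < j, H t (x i) (x i') := by
      intro i i' h1 h2 h3
      have := hv i i' h1 h2
      rw [dif_pos h3] at this
      omega
    have hcl : ∀ a ∈ image x (range r), ∀ b ∈ image x (range r), a ≠ b →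
        ¬ ∃ t < j, H t a b := by
      intro a ha b hb hab
      obtain ⟨i, hi, rfl⟩ := mem_image.1 ha
      obtain ⟨i', hi', rfl⟩ := mem_image.1 hb
      rw [mem_range] at hi hi'
      rcases lt_trichotomy i i' with h1 | h1 | h1
      · exact hno i i' h1 hi'
      · exact absurd (by rw [h1]) hab
      · rintro ⟨t, ht, h'⟩
        exact hno i' i h1 hi ⟨t, ht, hsym _ _ _ h'⟩
    refine hg (image x (range r)) ?_ hx.card_image hcl ?_
    · intro a ha
      obtain ⟨i, hi, rfl⟩ := mem_image.1 ha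
      exact mem_range.2 (hb i (mem_range.1 hi))
    have key : ∀ T ⊆ image x (range r), T.card = 2 → c T = v := by
      intro T hT hc
      obtain ⟨a, b, hab, rfl⟩ := card_eq_two.1 hc
      obtain ⟨i, hi, rfl⟩ := mem_image.1 (hT (mem_insert_self _ _))
      obtain ⟨i', hi', rfl⟩ := mem_image.1 (hT (mem_insert_of_mem (mem_singleton_self _)))
      rw [mem_range] at hi hi'
      rcases lt_trichotomy i i' with h1 | h1 | h1
      · have := hv i i' h1 hi'
        rwa [dif_neg (hno i i' h1 hi')] at this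
      · exact absurd (by rw [h1]) hab
      · have := hv i' i h1 hi
        rwa [dif_neg (hno i' i h1 hi), pair_comm] at this
    intro T₁ T₂ h1 h2 c1 c2
    rw [key T₁ h1 c1, key T₂ h2 c2]
  · have hyes : ∀ i i', i < i' → i' < r → H (v - k) (x i) (x i') := by
      intro i i' h1 h2
      have := hv i i' h1 h2
      split_ifs at this with h3
      · have h4 := h3.choose_spec.2
        have : v - k = h3.choose := by omega
        rwa [this]
      · have := hc {x i, x i'}; omega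
    exact htri _ _ _ _ (hyes 0 1 (by omega) (by omega)) (hyes 1 2 (by omega) (by omega))
      (hyes 0 2 (by omega) (by omega))

lemma Complete.eventually {ε : ℝ} {k l : ℕ → ℕ} (h : Complete ε k l) (hk : ∀ n, 2 ≤ k n) :
    ∀ᶠ n : ℕ in Filter.atTop, ∃ r, ¬ Good ⌊(n : ℝ) ^ (1 - ε)⌋₊ (k n) (l n) r ∧
      CertAt n ⌊(n : ℝ) ^ ε⌋₊ (k n) (l n) r := by
  filter_upwards [h] with n hn
  have hk0 : 0 < k n := by have := hk n; omega
  refine ⟨_, not_good_of_arrows (arrows_ramseyR _ _ _ hk0), fun R hR hw => ?_⟩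
  have h1 := relGraph_cliqueNum hR hw
  obtain ⟨c, hc⟩ := hn (relGraph n R hR) (by
    refine le_trans ?_ (Nat.floor_le (a := (n : ℝ) ^ ε) (by positivity))
    exact_mod_cast h1)
  exact cert_nat hR hk0 c hc

end Pool.Agent.MP_251804_lc
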