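import Pool.Agent.MP_251804_lc.Basic

namespace Pool.Agent.MP_251804_lc
open Finset

/-- Counting. -/
lemma good_count {N l r : ℕ} (h : N.choose r * 2 < 2 ^ (r.choose l)) : Good N 2 l r := by
  classical
  set U := powersetCard l (range N) with hU
  have hbad : ((powersetCard r (range N)).biUnion (fun S =>
      Icc (powersetCard l S) U ∪ powerset (U \ powersetCard l S))).card < (powerset U).card := by
    rcases lt_or_ge N r with hN | hN
    · rw [powersetCard_eq_empty.2 (by rw [card_range]; exact hN)]
      simp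
    have hle : r.choose l ≤ U.card := by
      rw [hU, card_powersetCard, card_range]
      exact Nat.choose_le_choose l hN
    refine lt_of_le_of_lt card_biUnion_le ?_
    have : ∀ S ∈ powersetCard r (range N),
        (Icc (powersetCard l S) U ∪ powerset (U \ powersetCard l S)).card ≤
          2 * 2 ^ (U.card - r.choose l) := by
      intro S hS
      obtain ⟨h1, h2⟩ := mem_powersetCard.1 hS
      have hsub : powersetCard l S ⊆ U := powersetCard_mono h1
      refine (card_union_le _ _).trans ?_
      rw [card_Icc_finset hsub, card_powerset, card_sdiff_of_subset hsub, card_powersetCard l S,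
        h2]
      omega
    refine lt_of_le_of_lt (sum_le_card_nsmul _ _ _ this) ?_
    rw [card_powersetCard, card_range, card_powerset, smul_eq_mul]
    obtain ⟨q, hq⟩ := Nat.exists_eq_add_of_le hle
    rw [hq, Nat.add_sub_cancel_left, pow_add, ← mul_assoc]
    exact Nat.mul_lt_mul_of_pos_right h (by positivity)
  obtain ⟨F, hF, hnot⟩ := exists_mem_notMem_of_card_lt_card hbad
  refine ⟨fun T => if T ∈ F then 1 else 0, fun T => by beta_reduce; split_ifs <;> omega, ?_⟩
  intro S hS hc hm
  apply hnot
  refine mem_biUnion.2 ⟨S, mem_powersetCard.2 ⟨hS, hc⟩, ?_⟩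
  rw [mem_powerset] at hF
  by_cases hex : ∃ T ∈ powersetCard l S, T ∈ F
  · obtain ⟨T, hT, hTF⟩ := hex
    refine mem_union_left _ (mem_Icc.2 ⟨fun T' hT' => ?_, hF⟩)
    obtain ⟨a1, a2⟩ := mem_powersetCard.1 hT
    obtain ⟨b1, b2⟩ := mem_powersetCard.1 hT'
    have := hm T T' a1 b1 a2 b2
    simp only [hTF, if_true] at this
    by_contra hn
    simp [hn] at this
  · push Not at hex
    refine mem_union_right _ (mem_powerset.2 fun T hT => mem_sdiff.2 ⟨hF hT, fun h' => ?_⟩)
    exact hex T h' hT

lemma good_pow {y l r : ℕ} (hr : 3 ≤ r) (h : y * r ≤ r.choose l) : Good (2 ^ y) 2 l r := by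
  apply good_count
  have h1 : (2 ^ y).choose r * r.factorial ≤ (2 ^ y) ^ r := by
    rw [mul_comm, ← Nat.descFactorial_eq_factorial_mul_choose]
    exact Nat.descFactorial_le_pow _ _
  have h2 : 6 ≤ r.factorial := by
    have := Nat.factorial_le hr
    simpa [Nat.factorial] using this
  have h3 : (2 ^ y) ^ r ≤ 2 ^ (r.choose l) := by
    rw [← pow_mul]; exact Nat.pow_le_pow_right (by norm_num) h
  have h4 : 0 < 2 ^ (r.choose l) := by positivity
  nlinarith

lemma good_erdos {t : ℕ} (ht : 3 ≤ t) : Good (2 ^ ((t - 1) / 2)) 2 2 t := by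
  apply good_pow ht
  rw [Nat.choose_two_right, Nat.le_div_iff_mul_le (by norm_num)]
  have : (t - 1) / 2 * 2 ≤ t - 1 := Nat.div_mul_le_self _ _
  nlinarith

/-- Lifting the uniformity. -/
lemma Good.lift {N k l r : ℕ} (h : Good N k l r) : Good N k (l + 1) (r + 1) := by
  classical
  obtain ⟨c, hc, h⟩ := h
  refine ⟨fun T => c (T.erase (T.sup id)), fun T => hc _, fun S hS hcard hm => ?_⟩
  have hne : S.Nonempty := card_pos.1 (by omega)
  obtain ⟨M, hM, hMe⟩ := exists_mem_eq_sup S hne id
  simp only [id] at hMe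
  have hle : ∀ a ∈ S, a ≤ M := fun a ha => hMe ▸ le_sup (f := id) ha
  refine h (S.erase M) ((erase_subset _ _).trans hS) (by rw [card_erase_of_mem hM]; omega) ?_
  have key : ∀ T ⊆ S.erase M, T.card = l → insert M T ⊆ S ∧ (insert M T).card = l + 1 ∧
      (insert M T).erase ((insert M T).sup id) = T := by
    intro T hT hc
    have hn : M ∉ T := fun h' => by simpa using hT h'
    have hsub : insert M T ⊆ S := insert_subset hM (hT.trans (erase_subset _ _))
    refine ⟨hsub, by rw [card_insert_of_notMem hn, hc], ?_⟩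
    have : (insert M T).sup id = M := le_antisymm
      (Finset.sup_le fun a ha => hle a (hsub ha)) (le_sup (f := id) (mem_insert_self _ _))
    rw [this, erase_insert hn]
  intro T₁ T₂ h1 h2 c1 c2
  obtain ⟨a1, a2, a3⟩ := key T₁ h1 c1
  obtain ⟨b1, b2, b3⟩ := key T₂ h2 c2
  have := hm _ _ a1 b1 a2 b2
  simp only [a3, b3] at this
  exact this

lemma Good.lift_add {N k l r : ℕ} (h : Good N k l r) (q : ℕ) : Good N k (l + q) (r + q) := by
  induction q with
  | zero => exact h
  | succ q ih => exact ih.lift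

/-- Product of edge colourings. -/
lemma Good.prod {N₁ N₂ k₁ k₂ r : ℕ} (h₁ : Good N₁ k₁ 2 r) (h₂ : Good N₂ k₂ 2 r) :
    Good (N₁ * N₂) (k₁ + k₂) 2 r := by
  obtain ⟨c₁, hc₁, h₁⟩ := h₁.seq2
  obtain ⟨c₂, hc₂, h₂⟩ := h₂.seq2
  refine good2_of (fun a b => if a / N₂ = b / N₂ then k₁ + c₂ (a % N₂) (b % N₂)
    else c₁ (a / N₂) (b / N₂)) ?_ ?_
  · intro a b
    have := hc₁ (a / N₂) (b / N₂)
    have := hc₂ (a % N₂) (b % N₂)
    split_ifs <;> omega
  intro x hx hb v hv
  beta_reduce at hv
  rcases Nat.eq_zero_or_pos r with hr | hr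
  · subst hr
    exact h₁ x (by simp) (by simp) 0 (by simp)
  have hN : 0 < N₂ := by
    have := hb 0 hr
    rcases Nat.eq_zero_or_pos N₂ with h0 | h0
    · simp [h0] at this
    · exact h0
  rcases lt_or_ge v k₁ with hvk | hvk
  · have hne : ∀ i j, i < j → j < r → x i / N₂ ≠ x j / N₂ := by
      intro i j h1 h2 h3
      have := hv i j h1 h2
      rw [if_pos h3] at this
      omega
    refine h₁ (fun i => x i / N₂) ?_ ?_ v ?_
    · intro i hi j hj hij
      simp only [coe_range, Set.mem_Iio] at hi hj
      rcases lt_trichotomy i j with h1 | h1 | h1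
      · exact absurd hij (hne i j h1 hj)
      · exact h1
      · exact absurd hij.symm (hne j i h1 hi)
    · intro i hi
      exact Nat.div_lt_of_lt_mul (by rw [mul_comm]; exact hb i hi)
    · intro i j h1 h2
      have := hv i j h1 h2
      rwa [if_neg (hne i j h1 h2)] at this
  · have heq : ∀ i j, i < j → j < r → x i / N₂ = x j / N₂ := by
      intro i j h1 h2
      by_contra h3
      have := hv i j h1 h2
      rw [if_neg h3] at this
      have := hc₁ (x i / N₂) (x j / N₂)
      omega
    have hne : ∀ i j, i < j → j < r → x i % N₂ ≠ x j % N₂ := by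
      intro i j h1 h2 h3
      have e1 := Nat.div_add_mod (x i) N₂
      have e2 := Nat.div_add_mod (x j) N₂
      rw [heq i j h1 h2, h3, e2] at e1
      have := hx i j h1 h2
      omega
    refine h₂ (fun i => x i % N₂) ?_ ?_ (v - k₁) ?_
    · intro i hi j hj hij
      simp only [coe_range, Set.mem_Iio] at hi hj
      rcases lt_trichotomy i j with h1 | h1 | h1
      · exact absurd hij (hne i j h1 hj)
      · exact h1
      · exact absurd hij.symm (hne j i h1 hi)
    · intro i _
      exact Nat.mod_lt _ hN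
    · intro i j h1 h2
      have := hv i j h1 h2
      rw [if_pos (heq i j h1 h2)] at this
      omega

lemma Good.pow {N k r : ℕ} (h : Good N k 2 r) (t : ℕ) :
    Good (N ^ (t + 1)) (k * (t + 1)) 2 r := by
  induction t with
  | zero => simpa using h
  | succ t ih =>
    have := ih.prod h
    rwa [← pow_succ, ← Nat.mul_succ] at this

lemma good_multi {a t : ℕ} (ha : 0 < a) (ht : 3 ≤ t) :
    Good (2 ^ (a * ((t - 1) / 2))) (2 * a) 2 t := by
  obtain ⟨b, rfl⟩ : ∃ b, a = b + 1 := ⟨a - 1, by omega⟩
  have := (good_erdos ht).pow b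
  rwa [← pow_mul, mul_comm] at this

end Pool.Agent.MP_251804_lc
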