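import Pool.Agent.MP_251804_lc.Basic

namespace Pool.Agent.MP_251804_lc
open Finset

def sh (q : ℕ) (x : ℕ → ℕ) : ℕ → ℕ := fun i => x (q + i)

/-- Proper colourings of shift graphs. -/
def SC (N s K : ℕ) : Prop :=
  ∃ c : (ℕ → ℕ) → ℕ, Loc s c ∧ (∀ f, c f < K) ∧
    ∀ x, Inc (s + 1) x → (∀ i < s + 1, x i < N) → c x ≠ c (sh 1 x)

lemma Inc.sh {r q r' : ℕ} {x : ℕ → ℕ} (h : Inc r x) (hr : q + r' ≤ r) : Inc r' (sh q x) :=
  fun i j hij hj => h _ _ (by omega) (by omega)

lemma Inc.le {r r' : ℕ} {x : ℕ → ℕ} (h : Inc r x) (hr : r' ≤ r) : Inc r' x :=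
  fun i j hij hj => h _ _ hij (by omega)

lemma sh_sh (a b : ℕ) (x : ℕ → ℕ) : sh a (sh b x) = sh (b + a) x := by
  funext i; simp [sh, add_assoc]

lemma sc_one {N : ℕ} (hN : 0 < N) : SC N 1 N := by
  refine ⟨fun f => if f 0 < N then f 0 else 0, ?_, ?_, ?_⟩
  · intro f g h; simp only [h 0 (by omega)]
  · intro f; beta_reduce; split_ifs <;> omega
  · intro x hx hb
    have h0 := hb 0 (by omega)
    have h1 := hb 1 (by omega)
    have := hx 0 1 (by omega) (by omega)
    simp only [sh, add_zero, h0, h1, if_true]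
    omega

lemma SC.mono {N s s' K K' : ℕ} (h : SC N s K) (hs : s ≤ s') (hK : K ≤ K') : SC N s' K' := by
  obtain ⟨c, h1, h2, h3⟩ := h
  exact ⟨c, fun f g h => h1 f g (fun i hi => h i (by omega)), fun f => (h2 f).trans_le hK,
    fun x hx hb => h3 x (hx.le (by omega)) (fun i hi => hb i (by omega))⟩

lemma ex_bit {u v b : ℕ} (hu : u < 2 ^ b) (hv : v < 2 ^ b) (h : u ≠ v) :
    ∃ i < b, u.testBit i ≠ v.testBit i := by
  by_contra hn
  push Not at hn
  apply h
  apply Nat.eq_of_testBit_eq
  intro i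
  rcases lt_or_ge i b with hi | hi
  · exact hn i hi
  · have : 2 ^ b ≤ 2 ^ i := Nat.pow_le_pow_right (by norm_num) hi
    rw [Nat.testBit_lt_two_pow (by omega), Nat.testBit_lt_two_pow (by omega)]

lemma SC.step {N s K b : ℕ} (h : SC N s K) (hK : K ≤ 2 ^ b) (hb : 0 < b) :
    SC N (s + 1) (2 * b) := by
  classical
  obtain ⟨c, h1, h2, h3⟩ := h
  let g : ℕ → ℕ → ℕ := fun u v => if h : ∃ i < b, u.testBit i ≠ v.testBit i then
    2 * h.choose + (if u.testBit h.choose then 1 else 0) else 0
  have hg : ∀ u v, g u v < 2 * b := by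
    intro u v
    simp only [g]
    split_ifs with h
    · have := h.choose_spec.1; omega
    · have := h.choose_spec.1; omega
    · omega
  have hg2 : ∀ u v w, u < 2 ^ b → v < 2 ^ b → w < 2 ^ b → u ≠ v → v ≠ w → g u v ≠ g v w := by
    intro u v w hu hv hw huv hvw
    have e1 := ex_bit hu hv huv
    have e2 := ex_bit hv hw hvw
    simp only [g, dif_pos e1, dif_pos e2]
    intro e
    have q := e1.choose_spec.2
    have : e1.choose = e2.choose := by split_ifs at e <;> omega
    rw [this] at e q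
    revert e q
    cases u.testBit e2.choose <;> cases v.testBit e2.choose <;> simp
  refine ⟨fun f => g (c f) (c (sh 1 f)), ?_, fun f => hg _ _, ?_⟩
  · intro f f' h
    simp only
    rw [h1 f f' (fun i hi => h i (by omega)), h1 (sh 1 f) (sh 1 f') (fun i hi => h _ (by omega))]
  · intro x hx hb
    exact hg2 _ _ _ ((h2 _).trans_le hK) ((h2 _).trans_le hK) ((h2 _).trans_le hK)
      (h3 x (hx.le (by omega)) (fun i hi => hb i (by omega)))
      (h3 (sh 1 x) (hx.sh (by omega)) (fun i hi => hb _ (by omega)))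

lemma SC.good {N l K : ℕ} (h : SC N l K) : Good N K l (l + 1) := by
  obtain ⟨c, h1, h2, h3⟩ := h
  refine good_of_seq c h1 h2 (fun x hx hb hm => h3 x hx hb ?_)
  exact hm id (fun i => 1 + i) (fun a b h _ => h) (fun a b h _ => by simpa using h)
    (fun i hi => by simp; omega) (fun i hi => by omega)

def Pk (f : ℕ → ℕ) (j : ℕ) : Prop := f (j + 1) < f (j + 2) ∧ f (j + 3) < f (j + 2)

lemma exP (K : ℕ) (f : ℕ → ℕ) : ∃ j, Pk f j ∨ 2 * K ≤ j := ⟨2 * K, Or.inr le_rfl⟩

open Classical in
noncomputable def dd (K : ℕ) (f : ℕ → ℕ) : ℕ := Nat.find (exP K f)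

open Classical in
noncomputable def st (K : ℕ) (f : ℕ → ℕ) : ℕ :=
  if dd K f % 2 = 1 then 1 else if f 0 < f 1 ∧ f 2 < f 1 then 2 else 0

lemma st_loc (K : ℕ) : Loc (2 * K + 3) (st K) := by
  classical
  intro f g h
  have : dd K f = dd K g := by
    unfold dd
    apply Nat.find_congr' 
    intro j
    rcases lt_or_ge j (2 * K) with hj | hj
    · simp only [Pk, h (j + 1) (by omega), h (j + 2) (by omega), h (j + 3) (by omega)]
    · simp [hj]
  simp only [st, this, h 0 (by omega), h 1 (by omega), h 2 (by omega)]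

lemma exists_peak {K : ℕ} {f : ℕ → ℕ} (hK : ∀ i, f i < K)
    (hne : ∀ i < 2 * K + 2, f i ≠ f (i + 1)) : ∃ j < 2 * K, Pk f j := by
  by_contra hn
  push Not at hn
  have hstep : ∀ j < 2 * K, f (j + 1) < f (j + 2) → f (j + 2) < f (j + 3) := by
    intro j hj h
    have h1 := hn j hj
    have h2 := hne (j + 2) (by omega)
    simp only [Pk, not_and, not_lt] at h1
    have := h1 h
    have e : j + 2 + 1 = j + 3 := rfl
    rw [e] at h2
    omega
  by_cases hm : f (K + 1) < f (K + 2)
  · have : ∀ q ≤ K, q + 1 ≤ f (K + q + 2) ∧ f (K + q + 1) < f (K + q + 2) := by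
      intro q
      induction q with
      | zero => intro _; simp only [add_zero]; omega
      | succ q ih =>
        intro hq
        obtain ⟨a, b⟩ := ih (by omega)
        have := hstep (K + q) (by omega) b
        have e1 : K + (q + 1) + 2 = K + q + 3 := by omega
        have e2 : K + (q + 1) + 1 = K + q + 2 := by omega
        rw [e1, e2]
        omega
    have h1 := (this K le_rfl).1
    have := hK (K + K + 2)
    omega
  · have : ∀ q ≤ K, q + 1 ≤ f (K - q + 1) ∧ f (K - q + 2) < f (K - q + 1) := by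
      intro q
      induction q with
      | zero =>
        intro _
        have := hne (K + 1) (by omega)
        have e : K + 1 + 1 = K + 2 := rfl
        rw [e] at this
        simp only [Nat.sub_zero]; omega
      | succ q ih =>
        intro hq
        obtain ⟨a, b⟩ := ih (by omega)
        have h1 := hstep (K - (q + 1)) (by omega)
        have h2 := hne (K - (q + 1) + 1) (by omega)
        have e1 : K - (q + 1) + 2 = K - q + 1 := by omega
        have e2 : K - (q + 1) + 3 = K - q + 2 := by omega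
        have e3 : K - (q + 1) + 1 + 1 = K - q + 1 := by omega
        rw [e1, e2] at h1
        rw [e3] at h2
        rw [e1]
        omega
    have h1 := (this K le_rfl).1
    have := hK (K - K + 1)
    omega

def Arc (u v : ℕ) : Prop := (u = 0 ∧ v = 1) ∨ (u = 0 ∧ v = 2) ∨ (u = 2 ∧ v = 1) ∨ (u = 1 ∧ v = 0)

lemma Pk_sh (f : ℕ → ℕ) (j : ℕ) : Pk (sh 1 f) j ↔ Pk f (j + 1) := by
  have e1 : 1 + (j + 1) = j + 1 + 1 := by omega
  have e2 : 1 + (j + 2) = j + 1 + 2 := by omega
  have e3 : 1 + (j + 3) = j + 1 + 3 := by omega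
  simp only [Pk, sh, e1, e2, e3]

lemma st_arc {K : ℕ} {f : ℕ → ℕ} (hK : ∀ i, f i < K)
    (hne : ∀ i < 2 * K + 2, f i ≠ f (i + 1)) : Arc (st K f) (st K (sh 1 f)) := by
  classical
  obtain ⟨j, hj, hP⟩ := exists_peak hK hne
  have hle : dd K f ≤ j := Nat.find_min' _ (Or.inl hP)
  have hspec : Pk f (dd K f) := by
    rcases Nat.find_spec (exP K f) with h | h
    · exact h
    · exfalso; change 2 * K ≤ dd K f at h; omega
  have hE : (sh 1 f 0 < sh 1 f 1 ∧ sh 1 f 2 < sh 1 f 1) ↔ Pk f 0 := by simp [sh, Pk]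
  rcases Nat.eq_zero_or_pos (dd K f) with h0 | h0
  · rw [h0] at hspec
    have h1 : ¬ (f 0 < f 1 ∧ f 2 < f 1) := by
      have := hspec.1; simp only [zero_add] at this; omega
    have a : st K f = 0 := by simp only [st, h0, h1]; simp
    have b : st K (sh 1 f) = 1 ∨ st K (sh 1 f) = 2 := by
      simp only [st, hE, hspec, if_true]
      split_ifs <;> simp
    unfold Arc
    omega
  · have hn0 : ¬ Pk f 0 := fun h => by
      have : dd K f ≤ 0 := Nat.find_min' _ (Or.inl h)
      omega
    have hd : dd K (sh 1 f) = dd K f - 1 := by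
      unfold dd
      rw [Nat.find_eq_iff]
      refine ⟨Or.inl ?_, fun n hn => ?_⟩
      · rw [Pk_sh]
        have : Nat.find (exP K f) - 1 + 1 = dd K f := by change dd K f - 1 + 1 = _; omega
        rwa [this]
      · rw [Pk_sh]
        change n < dd K f - 1 at hn
        rintro (h | h)
        · have : dd K f ≤ n + 1 := Nat.find_min' _ (Or.inl h)
          omega
        · omega
    unfold Arc
    simp only [st, hE, hn0, hd, if_false]
    split_ifs <;> omega

def tb (u w : ℕ) : ℕ :=
  if u = 0 then (if w = 1 then 1 else 0) else if u = 1 then (if w = 1 then 0 else 1)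
  else (if w = 0 then 0 else 1)

lemma tb_lt (u w : ℕ) : tb u w < 2 := by unfold tb; split_ifs <;> omega

lemma tb_arc {u u' w w' : ℕ} (h1 : Arc u u') (h2 : Arc w w') (e1 : tb u w = tb u w')
    (e2 : tb u w' = tb u' w') : False := by
  rcases h1 with ⟨rfl, rfl⟩ | ⟨rfl, rfl⟩ | ⟨rfl, rfl⟩ | ⟨rfl, rfl⟩ <;>
  rcases h2 with ⟨rfl, rfl⟩ | ⟨rfl, rfl⟩ | ⟨rfl, rfl⟩ | ⟨rfl, rfl⟩ <;>
  simp [tb] at e1 e2

/-- Two colours suffice once the uniformity is large. -/
lemma SC.good_two {N s K l : ℕ} (h : SC N s K) (hl : 2 * (s + 2 * K + 2) ≤ l) :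
    Good N 2 l (l + 1) := by
  obtain ⟨c, h1, h2, h3⟩ := h
  set q := s + 2 * K + 2 with hq
  let u : (ℕ → ℕ) → ℕ := fun x => st K (fun j => c (sh j x))
  have uloc : Loc q u := by
    intro f g h
    apply st_loc K
    intro i hi
    exact h1 _ _ (fun j hj => h _ (by omega))
  have uarc : ∀ x, Inc (q + 1) x → (∀ i < q + 1, x i < N) → Arc (u x) (u (sh 1 x)) := by
    intro x hx hb
    have := st_arc (K := K) (f := fun j => c (sh j x)) (fun i => h2 _) (fun i hi => by
      have := h3 (sh i x) (hx.sh (by omega)) (fun j hj => hb _ (by omega))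
      rwa [sh_sh] at this)
    have e : sh 1 (fun j => c (sh j x)) = fun j => c (sh j (sh 1 x)) := by
      funext j; simp only [sh_sh]; rfl
    rw [e] at this
    exact this
  refine good_of_seq (fun x => tb (u x) (u (sh q x))) ?_ (fun f => tb_lt _ _) ?_
  · intro f g h
    simp only
    rw [uloc f g (fun i hi => h i (by omega)),
      uloc (sh q f) (sh q g) (fun i hi => h _ (by omega))]
  intro x hx hb hm
  let e : ℕ → ℕ := fun i => if i < q then i else i + 1
  have he : Inc l e := by
    intro i j hij _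
    simp only [e]; split_ifs <;> omega
  have heb : ∀ i < l, e i < l + 1 := by
    intro i hi
    simp only [e]; split_ifs <;> omega
  have m1 := hm id e (fun a b h _ => h) he (fun i hi => by simp; omega) heb
  have m2 := hm e (fun i => 1 + i) he (fun a b h _ => by simpa using h) heb
    (fun i hi => by omega)
  have a1 : u (x ∘ e) = u x := uloc _ _ (fun i hi => by simp [e, hi])
  have a2 : sh q (x ∘ e) = sh 1 (sh q x) := by
    funext i
    simp only [sh, e, Function.comp_apply]
    rw [if_neg (by omega)]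
    congr 1; omega
  have a3 : (x ∘ fun i => 1 + i) = sh 1 x := rfl
  have a4 : sh q (sh 1 x) = sh 1 (sh q x) := by rw [sh_sh, sh_sh, add_comm]
  simp only [Function.comp_id] at m1
  rw [a1, a2] at m1 m2
  rw [a3, a4] at m2
  exact tb_arc (uarc x (hx.le (by omega)) (fun i hi => hb i (by omega)))
    (uarc (sh q x) (hx.sh (by omega)) (fun i hi => hb _ (by omega))) m1 m2

end Pool.Agent.MP_251804_lc
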