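import Pool.Agent.MP_251804_lc.Basic

namespace Pool.Agent.MP_251804_lc
open Finset

lemma exD (a b : ℕ) : ∃ i, a / 2 ^ i = b / 2 ^ i :=
  ⟨a + b, by
    rw [Nat.div_eq_of_lt, Nat.div_eq_of_lt]
    · exact lt_of_le_of_lt (by omega) (Nat.lt_two_pow_self (n := a + b))
    · exact lt_of_le_of_lt (by omega) (Nat.lt_two_pow_self (n := a + b))⟩

def D (a b : ℕ) : ℕ := Nat.find (exD a b)

lemma D_le {a b i : ℕ} : D a b ≤ i ↔ a / 2 ^ i = b / 2 ^ i := by
  constructor
  · intro h
    obtain ⟨q, rfl⟩ := Nat.exists_eq_add_of_le h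
    have := Nat.find_spec (exD a b)
    rw [pow_add, ← Nat.div_div_eq_div_mul, ← Nat.div_div_eq_div_mul]
    exact congrArg (· / 2 ^ q) this
  · intro h; exact Nat.find_min' _ h

lemma D_pos {a b : ℕ} (h : a ≠ b) : 0 < D a b := by
  by_contra h0
  have : D a b ≤ 0 := by omega
  rw [D_le] at this
  simp at this
  exact h this

lemma D_le_of_lt {a b m : ℕ} (ha : a < 2 ^ m) (hb : b < 2 ^ m) : D a b ≤ m := by
  rw [D_le, Nat.div_eq_of_lt ha, Nat.div_eq_of_lt hb]

lemma D_max {a b c : ℕ} (h1 : a < b) (h2 : b < c) : D a c = max (D a b) (D b c) := by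
  apply eq_of_forall_ge_iff
  intro i
  rw [max_le_iff, D_le, D_le, D_le]
  have := Nat.div_le_div_right (c := 2 ^ i) h1.le
  have := Nat.div_le_div_right (c := 2 ^ i) h2.le
  omega

lemma D_ne {a b c : ℕ} (h1 : a < b) (h2 : b < c) : D a b ≠ D b c := by
  intro h
  have p1 := D_pos h1.ne
  obtain ⟨i, hi⟩ : ∃ i, D a b = i + 1 := ⟨D a b - 1, by omega⟩
  have e1 : a / 2 ^ (i + 1) = b / 2 ^ (i + 1) := D_le.1 hi.le
  have e2 : b / 2 ^ (i + 1) = c / 2 ^ (i + 1) := D_le.1 (by omega)
  have n1 : a / 2 ^ i ≠ b / 2 ^ i := fun e => by have := D_le.2 e; omega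
  have n2 : b / 2 ^ i ≠ c / 2 ^ i := fun e => by have := D_le.2 e; omega
  have := Nat.div_le_div_right (c := 2 ^ i) h1.le
  have := Nat.div_le_div_right (c := 2 ^ i) h2.le
  rw [pow_succ, ← Nat.div_div_eq_div_mul, ← Nat.div_div_eq_div_mul] at e1 e2
  omega

section
variable {r : ℕ} {x : ℕ → ℕ}

lemma D_up (hx : Inc r x) {p q : ℕ} (hq : q + 1 < r)
    (hup : ∀ j, p ≤ j → j < q → D (x j) (x (j + 1)) < D (x (j + 1)) (x (j + 2))) :
    ∀ b, b ≤ q → ∀ a, p ≤ a → a ≤ b → D (x a) (x (b + 1)) = D (x b) (x (b + 1)) := by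
  intro b
  induction b with
  | zero => intro _ a _ h; obtain rfl : a = 0 := by omega
            rfl
  | succ b ih =>
    intro hb a ha hab
    rcases eq_or_lt_of_le hab with h | h
    · rw [h]
    · rw [D_max (b := x (b + 1)) (hx _ _ h (by omega)) (hx _ _ (by omega) (by omega)),
        ih (by omega) a ha (by omega)]
      exact max_eq_right (hup b (by omega) (by omega)).le

lemma D_up_lt {p q : ℕ}
    (hup : ∀ j, p ≤ j → j < q → D (x j) (x (j + 1)) < D (x (j + 1)) (x (j + 2))) :
    ∀ b, b ≤ q → ∀ a, p ≤ a → a < b → D (x a) (x (a + 1)) < D (x b) (x (b + 1)) := by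
  intro b
  induction b with
  | zero => intro _ a _ h; omega
  | succ b ih =>
    intro hb a ha hab
    rcases eq_or_lt_of_le (Nat.lt_succ_iff.1 hab) with h | h
    · subst h; exact hup a ha (by omega)
    · exact (ih (by omega) a ha h).trans (hup b (by omega) (by omega))

lemma D_down_lt {p q : ℕ}
    (hdn : ∀ j, p ≤ j → j < q → D (x (j + 1)) (x (j + 2)) < D (x j) (x (j + 1))) :
    ∀ b, b ≤ q → ∀ a, p ≤ a → a < b → D (x b) (x (b + 1)) < D (x a) (x (a + 1)) := by
  intro b
  induction b with
  | zero => intro _ a _ h; omega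
  | succ b ih =>
    intro hb a ha hab
    rcases eq_or_lt_of_le (Nat.lt_succ_iff.1 hab) with h | h
    · subst h; exact hdn a ha (by omega)
    · exact (hdn b (by omega) (by omega)).trans (ih (by omega) a ha h)

lemma D_down (hx : Inc r x) {p q : ℕ} (hq : q + 1 < r)
    (hdn : ∀ j, p ≤ j → j < q → D (x (j + 1)) (x (j + 2)) < D (x j) (x (j + 1))) :
    ∀ b, b ≤ q → ∀ a, p ≤ a → a ≤ b → D (x a) (x (b + 1)) = D (x a) (x (a + 1)) := by
  intro b
  induction b with
  | zero => intro _ a _ h; obtain rfl : a = 0 := by omega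
            rfl
  | succ b ih =>
    intro hb a ha hab
    rcases eq_or_lt_of_le hab with h | h
    · rw [h]
    · rw [D_max (b := x (b + 1)) (hx _ _ h (by omega)) (hx _ _ (by omega) (by omega)),
        ih (by omega) a ha (by omega)]
      exact max_eq_left (D_down_lt hdn (b + 1) hb a ha h).le

end

lemma injOn_of_ne {t : ℕ} {y : ℕ → ℕ} (h : ∀ i j, i < j → j < t → y i ≠ y j) :
    Set.InjOn y (range t : Finset ℕ) := by
  intro i hi j hj hij
  simp only [coe_range, Set.mem_Iio] at hi hj
  rcases lt_trichotomy i j with h1 | h1 | h1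
  · exact absurd hij (h i j h1 hj)
  · exact h1
  · exact absurd hij.symm (h j i h1 hi)

/-- Stepping up from graphs to triples, doubling the colours. -/
lemma Good.step3 {m k t : ℕ} (h : Good m k 2 t) : Good (2 ^ m) (2 * k) 3 (t + 1) := by
  obtain ⟨c, hc, h⟩ := h.seq2
  refine good3_of (fun a b d => 2 * c (D a b - 1) (D b d - 1) + if D a b < D b d then 1 else 0)
    ?_ ?_
  · intro a b d
    have := hc (D a b - 1) (D b d - 1)
    split_ifs <;> omega
  intro x hx hb v hv
  beta_reduce at hv
  have hpos : ∀ i < t, 0 < D (x i) (x (i + 1)) := fun i hi =>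
    D_pos (hx i (i + 1) (by omega) (by omega)).ne
  have hbd : ∀ i < t, D (x i) (x (i + 1)) - 1 < m := fun i hi => by
    have := D_le_of_lt (hb i (by omega)) (hb (i + 1) (by omega))
    have := hpos i hi
    omega
  rcases Nat.eq_zero_or_pos t with ht | ht
  · subst ht
    exact h x (by simp) (by simp) 0 (by simp)
  rcases Nat.mod_two_eq_zero_or_one v with hv2 | hv2
  · have hdn : ∀ j, 0 ≤ j → j < t - 1 → D (x (j + 1)) (x (j + 2)) < D (x j) (x (j + 1)) := by
      intro j _ hj
      have h1 := hv j (j + 1) (j + 2) (by omega) (by omega) (by omega)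
      have h2 := D_ne (hx j (j + 1) (by omega) (by omega)) (hx (j + 1) (j + 2) (by omega) (by omega))
      split_ifs at h1 <;> omega
    refine h (fun i => D (x i) (x (i + 1)) - 1) (injOn_of_ne fun i j h1 h2 => ?_) hbd (v / 2) ?_
    · have := D_down_lt hdn j (by omega) i (by omega) h1
      have := hpos j h2
      omega
    · intro i j h1 h2
      obtain ⟨j, rfl⟩ : ∃ j', j = j' + 1 := ⟨j - 1, by omega⟩
      have h3 := hv i (j + 1) (j + 1 + 1) h1 (by omega) (by omega)
      rw [D_down hx (by omega) hdn j (by omega) i (by omega) (by omega)] at h3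
      split_ifs at h3 <;> omega
  · have hup : ∀ j, 0 ≤ j → j < t - 1 → D (x j) (x (j + 1)) < D (x (j + 1)) (x (j + 2)) := by
      intro j _ hj
      have h1 := hv j (j + 1) (j + 2) (by omega) (by omega) (by omega)
      split_ifs at h1 <;> omega
    refine h (fun i => D (x i) (x (i + 1)) - 1) (injOn_of_ne fun i j h1 h2 => ?_) hbd (v / 2) ?_
    · have := D_up_lt hup j (by omega) i (by omega) h1
      have := hpos i (by omega)
      omega
    · intro i j h1 h2
      have h3 := hv i (i + 1) (j + 1) (by omega) (by omega) (by omega)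
      rw [D_up hx (by omega) hup j (by omega) (i + 1) (by omega) (by omega)] at h3
      split_ifs at h3 <;> omega

lemma up_closed {u : ℕ → Prop} {a b : ℕ} (h : ∀ j, a ≤ j → j < b → u j → u (j + 1)) (ha : u a) :
    ∀ j, a ≤ j → j ≤ b → u j := by
  intro j hj
  induction j, hj using Nat.le_induction with
  | base => intro _; exact ha
  | succ j hj ih => intro hb; exact h j hj (by omega) (ih (by omega))

lemma down_closed {u : ℕ → Prop} {b : ℕ} (h : ∀ j, j < b → u (j + 1) → u j) (hb : u b) :
    ∀ j, j ≤ b → u j := by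
  intro j hj
  induction hj using Nat.decreasingInduction with
  | self => exact hb
  | of_succ j hj ih => exact h j hj ih

/-- Stepping up from triples to quadruples with two colours. -/
lemma Good.step4 {m t : ℕ} (h : Good m 2 3 t) : Good (2 ^ m) 2 4 (2 * t + 2) := by
  obtain ⟨c, hc, h⟩ := h.seq3
  refine good4_of (fun a b d e =>
    if D a b < D b d then (if D b d < D d e then c (D a b - 1) (D b d - 1) (D d e - 1) else 1)
    else (if D b d < D d e then 0 else c (D a b - 1) (D b d - 1) (D d e - 1))) ?_ ?_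
  · intro a b d e
    have := hc (D a b - 1) (D b d - 1) (D d e - 1)
    split_ifs <;> omega
  intro x hx hb v hv
  beta_reduce at hv
  have hpos : ∀ i < 2 * t + 1, 0 < D (x i) (x (i + 1)) := fun i hi =>
    D_pos (hx i (i + 1) (by omega) (by omega)).ne
  have hbd : ∀ i < 2 * t + 1, D (x i) (x (i + 1)) - 1 < m := fun i hi => by
    have := D_le_of_lt (hb i (by omega)) (hb (i + 1) (by omega))
    have := hpos i hi
    omega
  have hne : ∀ j < 2 * t, D (x j) (x (j + 1)) ≠ D (x (j + 1)) (x (j + 2)) := fun j hj =>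
    D_ne (hx j (j + 1) (by omega) (by omega)) (hx (j + 1) (j + 2) (by omega) (by omega))
  have caseUp : ∀ p, p ≤ t →
      (∀ j, p ≤ j → j < p + t → D (x j) (x (j + 1)) < D (x (j + 1)) (x (j + 2))) → False := by
    intro p hp hup
    refine h (fun i => D (x (p + i)) (x (p + i + 1)) - 1) (injOn_of_ne fun i j h1 h2 => ?_)
      (fun i hi => hbd _ (by omega)) v ?_
    · have := D_up_lt hup (p + j) (by omega) (p + i) (by omega) (by omega)
      have := hpos (p + i) (by omega)
      omega
    · intro i j s h1 h2 h3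
      have h4 := hv (p + i) (p + i + 1) (p + j + 1) (p + s + 1) (by omega) (by omega) (by omega)
        (by omega)
      rw [D_up hx (by omega) hup (p + j) (by omega) (p + i + 1) (by omega) (by omega),
        D_up hx (by omega) hup (p + s) (by omega) (p + j + 1) (by omega) (by omega),
        if_pos (D_up_lt hup (p + j) (by omega) (p + i) (by omega) (by omega)),
        if_pos (D_up_lt hup (p + s) (by omega) (p + j) (by omega) (by omega))] at h4
      exact h4
  have caseDown : ∀ p, p ≤ t →
      (∀ j, p ≤ j → j < p + t → D (x (j + 1)) (x (j + 2)) < D (x j) (x (j + 1))) → False := by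
    intro p hp hdn
    refine h (fun i => D (x (p + i)) (x (p + i + 1)) - 1) (injOn_of_ne fun i j h1 h2 => ?_)
      (fun i hi => hbd _ (by omega)) v ?_
    · have := D_down_lt hdn (p + j) (by omega) (p + i) (by omega) (by omega)
      have := hpos (p + j) (by omega)
      omega
    · intro i j s h1 h2 h3
      obtain ⟨j, rfl⟩ : ∃ j', j = j' + 1 := ⟨j - 1, by omega⟩
      obtain ⟨s, rfl⟩ : ∃ s', s = s' + 1 := ⟨s - 1, by omega⟩
      have h4 := hv (p + i) (p + j + 1) (p + s + 1) (p + s + 1 + 1) (by omega) (by omega)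
        (by omega) (by omega)
      rw [D_down hx (by omega) hdn (p + j) (by omega) (p + i) (by omega) (by omega),
        D_down hx (by omega) hdn (p + s) (by omega) (p + j + 1) (by omega) (by omega),
        if_neg (D_down_lt hdn (p + j + 1) (by omega) (p + i) (by omega) (by omega)).not_gt,
        if_neg (D_down_lt hdn (p + s + 1) (by omega) (p + j + 1) (by omega) (by omega)).not_gt]
        at h4
      exact h4
  rcases Nat.eq_zero_or_pos t with ht | ht
  · subst ht
    exact caseUp 0 le_rfl (by omega)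
  by_cases hv1 : v = 1
  · -- no local minimum
    have hstep : ∀ j, j + 1 < 2 * t → ¬ D (x j) (x (j + 1)) < D (x (j + 1)) (x (j + 2)) →
        ¬ D (x (j + 1)) (x (j + 2)) < D (x (j + 2)) (x (j + 3)) := by
      intro j hj h1 h2
      have := hv j (j + 1) (j + 2) (j + 3) (by omega) (by omega) (by omega) (by omega)
      rw [if_neg h1, if_pos h2] at this
      omega
    by_cases hm : D (x t) (x (t + 1)) < D (x (t + 1)) (x (t + 2))
    · refine caseUp 0 (by omega) (fun j _ hj => ?_)
      exact down_closed (u := fun j => D (x j) (x (j + 1)) < D (x (j + 1)) (x (j + 2))) (b := t)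
        (fun j hj h1 => by
          by_contra h2
          exact hstep j (by omega) h2 h1) hm j (by omega)
    · refine caseDown t le_rfl (fun j h1 hj => ?_)
      have := up_closed (u := fun j => ¬ D (x j) (x (j + 1)) < D (x (j + 1)) (x (j + 2)))
        (a := t) (b := 2 * t - 1) (fun j _ hj h1 => hstep j (by omega) h1) hm j h1 (by omega)
      have := hne j (by omega)
      omega
  · have hstep : ∀ j, j + 1 < 2 * t → D (x j) (x (j + 1)) < D (x (j + 1)) (x (j + 2)) →
        D (x (j + 1)) (x (j + 2)) < D (x (j + 2)) (x (j + 3)) := by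
      intro j hj h1
      by_contra h2
      have := hv j (j + 1) (j + 2) (j + 3) (by omega) (by omega) (by omega) (by omega)
      rw [if_pos h1, if_neg h2] at this
      omega
    by_cases hm : D (x t) (x (t + 1)) < D (x (t + 1)) (x (t + 2))
    · refine caseUp t le_rfl (fun j h1 hj => ?_)
      exact up_closed (u := fun j => D (x j) (x (j + 1)) < D (x (j + 1)) (x (j + 2)))
        (a := t) (b := 2 * t - 1) (fun j _ hj h1 => hstep j (by omega) h1) hm j h1 (by omega)
    · refine caseDown 0 (by omega) (fun j _ hj => ?_)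
      have := down_closed (u := fun j => ¬ D (x j) (x (j + 1)) < D (x (j + 1)) (x (j + 2)))
        (b := t) (fun j hj h1 h2 => h1 (hstep j (by omega) h2)) hm j (by omega)
      have := hne j (by omega)
      omega

end Pool.Agent.MP_251804_lc
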