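import Pool.Agent.MP_251804_lc.Constr
import Pool.Agent.MP_251804_lc.Step
import Pool.Agent.MP_251804_lc.Shift

namespace Pool.Agent.MP_251804_lc
open Finset

lemma bound4 {Y z t k l r : ℕ} (h : ¬ Good (2 ^ 2 ^ Y) k l r) (hk : 2 ≤ k) (hl : 4 ≤ l)
    (hr : l < r) (hz : 2 * (Y + 1) ≤ 2 ^ z) (hz0 : 0 < z) (ht : 3 ≤ t) (hY : Y * t ≤ t.choose 3) :
    k < 2 * z ∧ l < 8 * z + 12 ∧ r < 2 * t + l := by
  have s1 : SC (2 ^ 2 ^ Y) 1 (2 ^ 2 ^ Y) := sc_one (by positivity)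
  have s2 := s1.step le_rfl (by positivity)
  have s3 := s2.step (b := Y + 1) (by rw [pow_succ]; omega) (by omega)
  have s4 := s3.step hz hz0
  refine ⟨?_, ?_, ?_⟩
  · by_contra hc
    exact h ((s4.mono hl le_rfl).good.mono le_rfl (by omega) hr)
  · by_contra hc
    exact h ((s4.good_two (l := l) (by omega)).mono le_rfl hk hr)
  · by_contra hc
    obtain ⟨q, rfl⟩ := Nat.exists_eq_add_of_le hl
    exact h (((good_pow ht hY).step4.lift_add q).mono le_rfl hk (by omega))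

lemma bound3 {Y k r : ℕ} (h : ¬ Good (2 ^ 2 ^ Y) k 3 r) (hk : 4 ≤ k) (hr : 3 < r) :
    k * r < 35 * Y := by
  obtain ⟨t, rfl⟩ : ∃ t, r = t + 1 := ⟨r - 1, by omega⟩
  have g := (good_multi (a := k / 4) (t := t) (by omega) (by omega)).step3
  have h1 : k / 4 * ((t - 1) / 2) < Y := by
    by_contra hc
    exact h (g.mono (Nat.pow_le_pow_right (by norm_num)
      (Nat.pow_le_pow_right (by norm_num) (by omega))) (by omega) le_rfl)
  have h2 : k ≤ 7 * (k / 4) := by omega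
  have h3 : t + 1 ≤ 5 * ((t - 1) / 2) := by omega
  calc k * (t + 1) ≤ (7 * (k / 4)) * (5 * ((t - 1) / 2)) := Nat.mul_le_mul h2 h3
    _ = 35 * (k / 4 * ((t - 1) / 2)) := by ring
    _ < 35 * Y := by omega

lemma bound2 {x k r : ℕ} (h : ¬ Good (2 ^ x) k 2 r) (hk : 2 ≤ k) (hr : 2 < r) :
    k * r < 12 * x := by
  have g := good_multi (a := k / 2) (t := r) (by omega) (by omega)
  have h1 : k / 2 * ((r - 1) / 2) < x := by
    by_contra hc
    exact h (g.mono (Nat.pow_le_pow_right (by norm_num) (by omega)) (by omega) le_rfl)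
  have h2 : k ≤ 3 * (k / 2) := by omega
  have h3 : r ≤ 4 * ((r - 1) / 2) := by omega
  calc k * r ≤ (3 * (k / 2)) * (4 * ((r - 1) / 2)) := Nat.mul_le_mul h2 h3
    _ = 12 * (k / 2 * ((r - 1) / 2)) := by ring
    _ < 12 * x := by omega

lemma count_fiber (W : Finset ℕ) (g r : ℕ → ℕ) (B : ℕ → ℝ)
    (hB : ∀ i ∈ W, 1 ≤ r i ∧ (r i : ℝ) ≤ B (g i))
    (inj : ∀ i ∈ W, ∀ i' ∈ W, g i = g i' → r i = r i' → i = i') :
    (W.card : ℝ) ≤ ∑ a ∈ W.image g, B a := by
  rw [card_eq_sum_card_image g W]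
  push_cast
  refine sum_le_sum (fun a ha => ?_)
  obtain ⟨i₀, hi₀, rfl⟩ := mem_image.1 ha
  have h0 : 0 ≤ B (g i₀) := le_trans (by positivity) (hB i₀ hi₀).2
  refine le_trans ?_ (Nat.floor_le h0)
  have : (W.filter fun i => g i = g i₀).card ≤ (Icc 1 ⌊B (g i₀)⌋₊).card := by
    refine card_le_card_of_injOn r ?_ ?_
    · intro i hi
      simp only [coe_filter, Set.mem_ofPred_eq] at hi
      have := hB i hi.1
      simp only [coe_Icc, Set.mem_Icc]
      exact ⟨this.1, Nat.le_floor (hi.2 ▸ this.2)⟩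
    · intro i hi i' hi' e
      simp only [coe_filter, Set.mem_ofPred_eq] at hi hi'
      exact inj i hi.1 i' hi'.1 (hi.2.trans hi'.2.symm) e
  rw [Nat.card_Icc] at this
  exact_mod_cast this

lemma count_geom (W : Finset ℕ) (r : ℕ → ℕ) (u : ℕ → ℝ) (q M : ℝ) (hq0 : 0 < q) (hq1 : q < 1)
    (hM : 0 < M) (hr : ∀ i ∈ W, 1 ≤ r i) (hu : ∀ i ∈ W, 1 / M ≤ u i)
    (hru : ∀ i ∈ W, r i * u i ≤ 1)
    (hdec : ∀ i ∈ W, ∀ i' ∈ W, i < i' → r i = r i' → u i' ≤ q * u i) :
    (W.card : ℝ) ≤ M / (1 - q) := by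
  have hex : ∀ i, ∃ b : ℕ, i ∈ W → q ^ (b + 1) < r i * u i ∧ r i * u i ≤ q ^ b := by
    intro i
    by_cases hi : i ∈ W
    · have h1 : (0 : ℝ) < r i := by exact_mod_cast hr i hi
      have h2 : 0 < u i := lt_of_lt_of_le (by positivity) (hu i hi)
      obtain ⟨b, hb⟩ := exists_nat_pow_near_of_lt_one (mul_pos h1 h2) (hru i hi) hq0 hq1
      exact ⟨b, fun _ => hb⟩
    · exact ⟨0, fun h => absurd h hi⟩
  choose g hg using hex
  have key : ∀ i ∈ W, ∀ i' ∈ W, i < i' → g i = g i' → r i = r i' → False := by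
    intro i hi i' hi' hlt e1 e2
    have h1 := hdec i hi i' hi' hlt e2
    have h2 := (hg i hi).2
    have h3 := (hg i' hi').1
    rw [← e1, ← e2, pow_succ] at h3
    have h4 : (0 : ℝ) ≤ r i := by positivity
    nlinarith [mul_le_mul_of_nonneg_left h1 h4, mul_le_mul_of_nonneg_left h2 hq0.le]
  refine (count_fiber W g r (fun b => M * q ^ b) (fun i hi => ⟨hr i hi, ?_⟩) ?_).trans ?_
  · have h1 := (hg i hi).2
    have h2 := hu i hi
    rw [div_le_iff₀ hM] at h2
    have h4 : (0 : ℝ) ≤ r i := by positivity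
    nlinarith [mul_le_mul_of_nonneg_left h2 h4, mul_le_mul_of_nonneg_left h1 hM.le]
  · intro i hi i' hi' e1 e2
    rcases lt_trichotomy i i' with h | h | h
    · exact (key i hi i' hi' h e1 e2).elim
    · exact h
    · exact (key i' hi' i hi h e1.symm e2.symm).elim
  · rw [← mul_sum, div_eq_mul_inv, ← tsum_geometric_of_lt_one hq0.le hq1]
    exact mul_le_mul_of_nonneg_left ((summable_geometric_of_lt_one hq0.le hq1).sum_le_tsum _
      (fun _ _ => by positivity)) hM.le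

/-- The facts available at scale `i`. -/
def Data (ε : ℝ) (lam i k l r : ℕ) : Prop :=
  (∀ y : ℕ, (1 - ε) * 2 ^ (lam * i) ≤ y → ¬ Good (2 ^ y) k l r) ∧
  Good (2 ^ 2 ^ (lam * (i - 1))) k l r ∧ l < r ∧
  (l = 2 → ∀ j, 2 ^ (lam * i) < i * j → Good (2 ^ 2 ^ (lam * i)) (k + j) 2 r)

lemma Data.not_good {ε : ℝ} {lam i k l r y : ℕ} (h : Data ε lam i k l r) (hε : 0 < ε)
    (hy : lam * i ≤ y) : ¬ Good (2 ^ 2 ^ y) k l r := by
  refine h.1 _ ?_
  have h1 : (2 : ℝ) ^ (lam * i) ≤ 2 ^ y := pow_le_pow_right₀ (by norm_num) hy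
  have h2 : (0 : ℝ) < 2 ^ (lam * i) := by positivity
  push_cast
  nlinarith

lemma Data.inj {ε : ℝ} {lam i i' k l r : ℕ} (h : Data ε lam i k l r) (h' : Data ε lam i' k l r)
    (hε : 0 < ε) : i = i' := by
  rcases lt_trichotomy i i' with h1 | h1 | h1
  · exact (h.not_good hε (Nat.mul_le_mul_left _ (by omega)) h'.2.1).elim
  · exact h1
  · exact (h'.not_good hε (Nat.mul_le_mul_left _ (by omega)) h.2.1).elim

lemma count4 {ε : ℝ} (hε : 0 < ε) {lam Y z t : ℕ} (W : Finset ℕ) (k l r : ℕ → ℕ)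
    (hW : ∀ i ∈ W, lam * i ≤ Y ∧ Data ε lam i (k i) (l i) (r i) ∧ 2 ≤ k i ∧ 4 ≤ l i)
    (hz : 2 * (Y + 1) ≤ 2 ^ z) (hz0 : 0 < z) (ht : 3 ≤ t) (hY : Y * t ≤ t.choose 3) :
    W.card ≤ 2 * z * ((8 * z + 12) * (2 * t + 8 * z + 12)) := by
  have : W.card ≤ (range (2 * z) ×ˢ (range (8 * z + 12) ×ˢ range (2 * t + 8 * z + 12))).card := by
    refine card_le_card_of_injOn (fun i => (k i, l i, r i)) ?_ ?_
    · intro i hi
      obtain ⟨h1, h2, h3, h4⟩ := hW i hi
      have := bound4 (h2.not_good hε h1) h3 h4 h2.2.2.1 hz hz0 ht hY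
      simp only [coe_product, coe_range, Set.mem_prod, Set.mem_Iio]
      omega
    · intro i hi i' hi' e
      simp only [Prod.mk.injEq] at e
      have h1 := (hW i hi).2.1
      have h2 := (hW i' hi').2.1
      rw [← e.1, ← e.2.1, ← e.2.2] at h2
      exact h1.inj h2 hε
  simpa using this

lemma count3 {ε c : ℝ} (hε : 0 < ε) (hc : c < 1 / 4) {lam Y : ℕ} (K : Set ℕ)
    (hK : ∀ F : Finset ℕ, (F : Set ℕ) ⊆ K → ∑ a ∈ F, 1 / (a : ℝ) ≤ c)
    (W : Finset ℕ) (k r : ℕ → ℕ)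
    (hW : ∀ i ∈ W, lam * i ≤ Y ∧ Data ε lam i (k i) 3 (r i) ∧ 2 ≤ k i ∧ k i ∈ K) :
    (W.card : ℝ) ≤ 35 * Y * c := by
  refine (count_fiber W k r (fun a => 35 * Y * (1 / a)) (fun i hi => ?_) ?_).trans ?_
  · obtain ⟨h1, h2, h3, h4⟩ := hW i hi
    have h5 := hK {k i} (by simpa using h4)
    rw [sum_singleton] at h5
    have hk0 : (0 : ℝ) < k i := by exact_mod_cast (by omega : 0 < k i)
    have h6 : 4 ≤ k i := by
      have : 1 / (k i : ℝ) < 1 / 4 := h5.trans_lt hc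
      rw [div_lt_div_iff₀ hk0 (by norm_num)] at this
      have : (4 : ℝ) < k i := by linarith
      exact_mod_cast this.le
    have h7 := bound3 (h2.not_good hε h1) h6 h2.2.2.1
    refine ⟨by have := h2.2.2.1; omega, ?_⟩
    rw [mul_one_div, le_div_iff₀ hk0]
    have : ((k i * r i : ℕ) : ℝ) ≤ ((35 * Y : ℕ) : ℝ) := by exact_mod_cast h7.le
    push_cast at this
    linarith
  · intro i hi i' hi' e1 e2
    have h1 := (hW i hi).2.1
    have h2 := (hW i' hi').2.1
    rw [← e1, ← e2] at h2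
    exact h1.inj h2 hε
  · rw [← mul_sum]
    refine mul_le_mul_of_nonneg_left (hK _ ?_) (by positivity)
    intro a ha
    obtain ⟨i, hi, rfl⟩ := mem_image.1 (mem_coe.1 ha)
    exact (hW i hi).2.2.2

lemma count2 {ε : ℝ} (hε : 0 < ε) (hε2 : ε < 1 / 2) {lam I : ℕ} (hlam : 4 / ε ≤ 2 ^ lam)
    (hI : 0 < I) (W : Finset ℕ) (k r : ℕ → ℕ)
    (hW : ∀ i ∈ W, I ≤ i ∧ Data ε lam i (k i) 2 (r i) ∧ 2 ≤ k i ∧
      100 / ε * 2 ^ (lam * i) / I ≤ k i) :
    (W.card : ℝ) ≤ I / 4 := by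
  have hIR : (0 : ℝ) < I := by exact_mod_cast hI
  have hlam0 : 0 < lam := by
    rcases Nat.eq_zero_or_pos lam with h | h
    · rw [h, pow_zero, div_le_iff₀ hε] at hlam; linarith
    · exact h
  have := count_geom W r (fun i => k i / (12 * 2 ^ (lam * i))) (1 - ε / 2) (12 * ε * I / 100)
    (by linarith) (by linarith) (by positivity) (fun i hi => ?_) (fun i hi => ?_)
    (fun i hi => ?_) (fun i hi i' hi' hlt e => ?_)
  · refine this.trans ?_
    rw [div_le_iff₀ (by linarith)]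
    nlinarith [mul_pos hε hIR]
  · have := (hW i hi).2.1.2.2.1; omega
  · obtain ⟨h1, h2, h3, h4⟩ := hW i hi
    rw [le_div_iff₀ (by positivity)]
    refine le_trans (le_of_eq ?_) h4
    field_simp
  · obtain ⟨h1, h2, h3, h4⟩ := hW i hi
    have h5 := bound2 (h2.not_good hε le_rfl) h3 h2.2.2.1
    have : ((k i * r i : ℕ) : ℝ) ≤ ((12 * 2 ^ (lam * i) : ℕ) : ℝ) := by exact_mod_cast h5.le
    push_cast at this
    rw [← mul_div_assoc, div_le_one (by positivity)]
    linarith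
  · obtain ⟨h1, h2, h3, h4⟩ := hW i hi
    obtain ⟨h1', h2', h3', h4'⟩ := hW i' hi'
    rw [← e] at h2'
    set x : ℕ := 2 ^ (lam * i) with hx
    set x' : ℕ := 2 ^ (lam * i') with hx'
    have hxR : (2 : ℝ) ^ (lam * i) = x := by rw [hx]; push_cast; rfl
    have hxR' : (2 : ℝ) ^ (lam * i') = x' := by rw [hx']; push_cast; rfl
    have hi0 : 0 < i := by omega
    have hix : i ≤ x := by
      have : i ≤ lam * i := Nat.le_mul_of_pos_left _ hlam0
      exact this.trans (Nat.lt_two_pow_self).le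
    have hj := h2.2.2.2 rfl (x / i + 1) (by
      have := Nat.div_add_mod x i
      have := Nat.mod_lt x hi0
      rw [mul_add]; omega)
    set a := k i + (x / i + 1) with ha
    have ha0 : 0 < a := Nat.add_pos_right _ (Nat.succ_pos _)
    have hx0 : (0 : ℝ) < x := by rw [← hxR]; positivity
    have hx0' : (0 : ℝ) < x' := by rw [← hxR']; positivity
    have hxx : 4 / ε * x ≤ x' := by
      rw [← hxR, ← hxR']
      have : lam + lam * i ≤ lam * i' := by nlinarith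
      calc 4 / ε * 2 ^ (lam * i) ≤ 2 ^ lam * 2 ^ (lam * i) := by gcongr
        _ = 2 ^ (lam + lam * i) := by rw [pow_add]
        _ ≤ _ := pow_le_pow_right₀ (by norm_num) this
    have haR : (a : ℝ) ≤ (1 + ε / 4) * k i := by
      have e1 : ((x / i : ℕ) : ℝ) ≤ x / I := by
        refine Nat.cast_div_le.trans ?_
        have : (I : ℝ) ≤ i := by exact_mod_cast h1
        gcongr
      have e2 : (1 : ℝ) ≤ x / I := by
        rw [le_div_iff₀ hIR, one_mul]; exact_mod_cast h1.trans hix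
      rw [hxR, mul_div_assoc, div_mul_eq_mul_div, div_le_iff₀ hε] at h4
      rw [ha]; push_cast
      nlinarith
    have ht : ((k i' / a : ℕ) : ℝ) * x < (1 - ε) * x' := by
      rcases Nat.eq_zero_or_pos (k i' / a) with h0 | h0
      · rw [h0]; simp only [Nat.cast_zero, zero_mul]; exact mul_pos (by linarith) hx0'
      obtain ⟨t, ht⟩ : ∃ t, k i' / a = t + 1 := ⟨k i' / a - 1, by omega⟩
      by_contra hc
      push Not at hc
      have g := hj.pow t
      rw [← pow_mul] at g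
      refine h2'.1 (x * (t + 1)) ?_ (g.mono le_rfl ?_ le_rfl)
      · rw [hxR']; rw [ht] at hc; push_cast at hc ⊢; linarith
      · rw [← ht]; exact Nat.mul_div_le _ _
    have hk' : (k i' : ℝ) ≤ a * ((k i' / a : ℕ) + 1) := by
      have := Nat.div_add_mod (k i') a
      have := Nat.mod_lt (k i') ha0
      have : k i' ≤ a * (k i' / a + 1) := by rw [mul_add]; omega
      exact_mod_cast this
    simp only [hxR, hxR']
    rw [← mul_div_assoc, div_le_div_iff₀ (by positivity) (by positivity)]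
    have hx4 : (x : ℝ) ≤ ε / 4 * x' := by
      rw [div_mul_eq_mul_div, div_le_iff₀ hε] at hxx; linarith
    have hk0 : (0 : ℝ) ≤ k i := by positivity
    have haR0 : (0 : ℝ) ≤ a := by positivity
    have s1 : (k i' : ℝ) * x ≤ a * ((1 - 3 * ε / 4) * x') := by
      calc (k i' : ℝ) * x ≤ a * ((k i' / a : ℕ) + 1) * x := by gcongr
        _ = a * ((k i' / a : ℕ) * x + x) := by ring
        _ ≤ _ := by gcongr; linarith
    have s2 : (a : ℝ) * ((1 - 3 * ε / 4) * x') ≤ (1 + ε / 4) * k i * ((1 - 3 * ε / 4) * x') :=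
      mul_le_mul_of_nonneg_right haR (mul_nonneg (by linarith) hx0'.le)
    have s3 : (1 + ε / 4) * (1 - 3 * ε / 4) ≤ 1 - ε / 2 := by nlinarith
    have s4 := mul_le_mul_of_nonneg_right s3 (mul_nonneg hk0 hx0'.le)
    nlinarith

end Pool.Agent.MP_251804_lc
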