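import Mathlib

namespace Pool.Agent.MP_251804_lc
open Finset

lemma sum_cube_succ {d : ℕ} (F : (Fin (d + 1) → Bool) → ℝ) :
    ∑ x, F x = ∑ y : Fin d → Bool, F (Fin.cons false y) + ∑ y : Fin d → Bool, F (Fin.cons true y) := by
  rw [← (Fin.consEquiv (fun _ : Fin (d + 1) => Bool)).sum_comp, Fintype.sum_prod_type,
    Fintype.sum_bool, add_comm]
  rfl

lemma ham_cons {d : ℕ} (a b : Bool) (x y : Fin d → Bool) :
    hammingDist (Fin.cons a x : Fin (d + 1) → Bool) (Fin.cons b y) =
      hammingDist x y + if a = b then 0 else 1 := by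
  simp only [hammingDist, card_eq_sum_ones, sum_filter, Fin.sum_univ_succ, Fin.cons_zero,
    Fin.cons_succ]
  by_cases h : a = b <;> simp [h, add_comm]

lemma poincare (d : ℕ) : ∀ f : (Fin d → Bool) → ℝ,
    (∀ x y, f x - f y ≤ hammingDist x y) →
      2 ^ d * ∑ x, f x ^ 2 - (∑ x, f x) ^ 2 ≤ d * 4 ^ d / 4 := by
  induction d with
  | zero => intro f _; simp
  | succ d ih =>
    intro f hf
    have h0 := ih (fun y => f (Fin.cons false y)) (fun x y => by
      have := hf (Fin.cons false x) (Fin.cons false y)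
      rw [ham_cons] at this; simpa using this)
    have h1 := ih (fun y => f (Fin.cons true y)) (fun x y => by
      have := hf (Fin.cons true x) (Fin.cons true y)
      rw [ham_cons] at this; simpa using this)
    rw [sum_cube_succ (fun x => f x ^ 2), sum_cube_succ f]
    have hd1 : ∑ y : Fin d → Bool, f (Fin.cons false y) - ∑ y : Fin d → Bool, f (Fin.cons true y)
        ≤ 2 ^ d := by
      rw [← sum_sub_distrib]
      refine (sum_le_card_nsmul _ _ 1 (fun y _ => ?_)).trans (by simp)
      have := hf (Fin.cons false y) (Fin.cons true y)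
      rw [ham_cons] at this; simpa using this
    have hd2 : ∑ y : Fin d → Bool, f (Fin.cons true y) - ∑ y : Fin d → Bool, f (Fin.cons false y)
        ≤ 2 ^ d := by
      rw [← sum_sub_distrib]
      refine (sum_le_card_nsmul _ _ 1 (fun y _ => ?_)).trans (by simp)
      have := hf (Fin.cons true y) (Fin.cons false y)
      rw [ham_cons] at this; simpa using this
    generalize ∑ y : Fin d → Bool, f (Fin.cons false y) = S0 at *
    generalize ∑ y : Fin d → Bool, f (Fin.cons true y) = S1 at *
    generalize ∑ y : Fin d → Bool, f (Fin.cons false y) ^ 2 = Q0 at *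
    generalize ∑ y : Fin d → Bool, f (Fin.cons true y) ^ 2 = Q1 at *
    have h4 : (4 : ℝ) ^ d = 2 ^ d * 2 ^ d := by rw [← mul_pow]; norm_num
    have hsq : (S0 - S1) ^ 2 ≤ 2 ^ d * 2 ^ d := by
      rw [← sq]; exact sq_le_sq' (by linarith) hd1
    push_cast
    rw [pow_succ (2 : ℝ) d, pow_succ (4 : ℝ) d, h4]
    rw [h4] at h0 h1
    nlinarith

lemma ham_not {d : ℕ} (x y : Fin d → Bool) :
    hammingDist (fun i => !x i) y + hammingDist x y = d := by
  simp only [hammingDist]
  have : (univ.filter fun i => (!x i) ≠ y i) = univ.filter fun i => ¬ (x i ≠ y i) := by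
    ext i; cases x i <;> cases y i <;> simp
  rw [this, add_comm, card_filter_add_card_filter_not]
  simp

lemma ham_tri {d : ℕ} (x y z : Fin d → Bool) :
    hammingDist x y + hammingDist y z + hammingDist x z ≤ 2 * d := by
  simp only [hammingDist, card_eq_sum_ones, sum_filter, ← sum_add_distrib]
  refine (sum_le_card_nsmul _ _ 2 (fun i _ => ?_)).trans (by simp [mul_comm])
  cases x i <;> cases y i <;> cases z i <;> simp

lemma indep_small {d : ℕ} (A : Finset (Fin d → Bool))
    (hA : ∀ x ∈ A, ∀ y ∈ A, 3 * hammingDist x y ≤ 2 * d) : A.card * d ≤ 9 * 2 ^ d := by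
  classical
  rcases A.eq_empty_or_nonempty with rfl | hne
  · simp
  rcases Nat.eq_zero_or_pos d with rfl | hd
  · simp
  let f : (Fin d → Bool) → ℝ := fun x => ((A.inf' hne fun a => hammingDist x a : ℕ) : ℝ)
  have hlip : ∀ x y, f x - f y ≤ hammingDist x y := by
    intro x y
    obtain ⟨a, ha, e⟩ := exists_mem_eq_inf' hne (fun a => hammingDist y a)
    have h1 : (A.inf' hne fun a => hammingDist x a) ≤ hammingDist x a := inf'_le _ ha
    have h2 := hammingDist_triangle x y a
    simp only [f, e]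
    have : ((A.inf' hne fun a => hammingDist x a : ℕ) : ℝ) ≤ hammingDist x y + hammingDist y a := by
      exact_mod_cast h1.trans h2
    linarith
  have hP := poincare d f hlip
  have hA0 : ∀ x ∈ A, f x = 0 := by
    intro x hx
    have h1 : (A.inf' hne fun a => hammingDist x a) ≤ hammingDist x x := inf'_le _ hx
    simp only [hammingDist_self, nonpos_iff_eq_zero] at h1
    simp only [f, h1, Nat.cast_zero]
  have hB : ∀ x ∈ A, (d : ℝ) / 3 ≤ f (fun i => !x i) := by
    intro x hx
    obtain ⟨a, ha, e⟩ := exists_mem_eq_inf' hne (fun a => hammingDist (fun i => !x i) a)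
    simp only [f, e]
    have h1 := ham_not x a
    have h2 := hA x hx a ha
    have : d ≤ 3 * hammingDist (fun i => !x i) a := by omega
    have : (d : ℝ) ≤ 3 * hammingDist (fun i => !x i) a := by exact_mod_cast this
    linarith
  set S := ∑ x, f x with hS
  set μ : ℝ := S / 2 ^ d with hμ
  have h2d : (0 : ℝ) < 2 ^ d := by positivity
  have hvar : ∑ x, (f x - μ) ^ 2 ≤ d * 2 ^ d / 4 := by
    have e : ∑ x, (f x - μ) ^ 2 = ∑ x, f x ^ 2 - 2 * μ * S + 2 ^ d * μ ^ 2 := by
      simp only [sub_sq, sum_add_distrib, sum_sub_distrib, sum_const, card_univ, Fintype.card_pi,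
        Fintype.card_bool, prod_const, Fintype.card_fin, nsmul_eq_mul, hS, mul_sum]
      push_cast
      congr 2
      exact sum_congr rfl (fun x _ => by ring)
    have hSμ : S = μ * 2 ^ d := by rw [hμ]; field_simp
    have h4 : (4 : ℝ) ^ d = 2 ^ d * 2 ^ d := by rw [← mul_pow]; norm_num
    rw [e]
    rw [h4, hSμ] at hP
    rw [hSμ]
    have : 2 ^ d * (∑ x, f x ^ 2 - 2 * μ * (μ * 2 ^ d) + 2 ^ d * μ ^ 2) ≤
        2 ^ d * (d * 2 ^ d / 4) := by nlinarith
    exact le_of_mul_le_mul_left this h2d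
  have hdR : (0 : ℝ) < d := by exact_mod_cast hd
  have hlow : (A.card : ℝ) * (d / 6) ^ 2 ≤ ∑ x, (f x - μ) ^ 2 := by
    rcases le_total ((d : ℝ) / 6) μ with h | h
    · refine le_trans ?_ (sum_le_sum_of_subset_of_nonneg (subset_univ A) (fun _ _ _ => sq_nonneg _))
      rw [← nsmul_eq_mul]
      refine card_nsmul_le_sum _ _ _ (fun x hx => ?_)
      rw [hA0 x hx]
      nlinarith
    · have hinj : Function.Injective (fun (x : Fin d → Bool) i => !x i) := by
        intro x y h; funext i; simpa using congrFun h i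
      refine le_trans ?_ (sum_le_sum_of_subset_of_nonneg
        (subset_univ (A.image (fun x i => !x i))) (fun _ _ _ => sq_nonneg _))
      rw [← nsmul_eq_mul, ← card_image_of_injective A hinj]
      refine card_nsmul_le_sum _ _ _ (fun y hy => ?_)
      obtain ⟨x, hx, rfl⟩ := mem_image.1 hy
      have := hB x hx
      nlinarith
  have : (A.card : ℝ) * d ≤ 9 * 2 ^ d := by
    have h := hlow.trans hvar
    have : d * ((A.card : ℝ) * d) ≤ d * (9 * 2 ^ d) := by nlinarith
    exact le_of_mul_le_mul_left this hdR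
  exact_mod_cast this

lemma count_maps {V : Type} [Fintype V] [DecidableEq V] (Ind : Finset V → Prop)
    [DecidablePred Ind] {n s : ℕ} (ρ : ℝ) (hρ : 0 ≤ ρ)
    (hInd : ∀ A, Ind A → (A.card : ℝ) ≤ ρ * Fintype.card V) (hs : Fintype.card V ≤ s)
    (S : Finset (Fin n)) (hS : S.card = s) :
    ((univ.filter fun φ : Fin n → V => Ind (S.image φ)).card : ℝ) ≤
      (2 * ρ) ^ s * (Fintype.card V : ℝ) ^ n := by
  have hsub : (univ.filter fun φ : Fin n → V => Ind (S.image φ)) ⊆
      (univ.filter Ind).biUnion fun A => Fintype.piFinset fun i => if i ∈ S then A else univ := by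
    intro φ hφ
    refine mem_biUnion.2 ⟨S.image φ, by simpa using hφ, Fintype.mem_piFinset.2 fun i => ?_⟩
    split_ifs with h
    · exact mem_image_of_mem _ h
    · exact mem_univ _
  have hsn : s ≤ n := by simpa [hS] using card_le_univ S
  have h1 : ∀ A ∈ univ.filter Ind,
      ((Fintype.piFinset fun i : Fin n => if i ∈ S then A else univ).card : ℝ) ≤
        ρ ^ s * (Fintype.card V : ℝ) ^ n := by
    intro A hA
    have hA' := hInd A (by simpa using hA)
    rw [Fintype.card_piFinset]
    simp only [apply_ite card, card_univ]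
    rw [prod_ite, prod_const, prod_const, filter_mem_eq_inter, univ_inter, hS]
    have : (univ.filter fun i => i ∉ S).card = n - s := by
      rw [filter_not, filter_mem_eq_inter, univ_inter, card_univ_sdiff, Fintype.card_fin, hS]
    rw [this]
    obtain ⟨q, rfl⟩ := Nat.exists_eq_add_of_le hsn
    rw [Nat.add_sub_cancel_left, pow_add, ← mul_assoc, ← mul_pow]
    push_cast
    gcongr
  have h2 : ((univ.filter Ind).card : ℝ) ≤ 2 ^ s := by
    have := card_le_univ (univ.filter Ind)
    rw [Fintype.card_finset] at this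
    exact_mod_cast this.trans (Nat.pow_le_pow_right (by norm_num) hs)
  calc _ ≤ ((∑ A ∈ univ.filter Ind,
        (Fintype.piFinset fun i : Fin n => if i ∈ S then A else univ).card : ℕ) : ℝ) := by
        exact_mod_cast (card_le_card hsub).trans card_biUnion_le
    _ ≤ (univ.filter Ind).card • (ρ ^ s * (Fintype.card V : ℝ) ^ n) := by
        push_cast; exact sum_le_card_nsmul _ _ _ h1
    _ ≤ _ := by
        rw [nsmul_eq_mul, mul_pow, mul_assoc]
        gcongr

lemma cover_step {V : Type} [Fintype V] [DecidableEq V] [Nonempty V] (Ind : Finset V → Prop)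
    [DecidablePred Ind] {n : ℕ} (β : ℝ) (F : Finset (Finset (Fin n)))
    (h : ∀ S ∈ F, ((univ.filter fun φ : Fin n → V => Ind (S.image φ)).card : ℝ) ≤
      β * (Fintype.card V : ℝ) ^ n) :
    ∃ φ : Fin n → V, ((F.filter fun S => Ind (S.image φ)).card : ℝ) ≤ F.card * β := by
  have : ∑ φ : Fin n → V, ((F.filter fun S => Ind (S.image φ)).card : ℝ) ≤
      ∑ _φ : Fin n → V, F.card * β := by
    have e : ∑ φ : Fin n → V, ((F.filter fun S => Ind (S.image φ)).card : ℝ) =
        ∑ S ∈ F, ((univ.filter fun φ : Fin n → V => Ind (S.image φ)).card : ℝ) := by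
      simp only [card_eq_sum_ones, sum_filter]
      push_cast
      exact sum_comm
    rw [e]
    refine (sum_le_card_nsmul _ _ _ h).trans (le_of_eq ?_)
    simp
    ring
  obtain ⟨φ, -, hφ⟩ := exists_le_of_sum_le univ_nonempty this
  exact ⟨φ, hφ⟩

lemma cover_iter {V : Type} [Fintype V] [DecidableEq V] [Nonempty V] (Ind : Finset V → Prop)
    [DecidablePred Ind] {n : ℕ} (β : ℝ) (hβ : 0 ≤ β) (F : Finset (Finset (Fin n)))
    (h : ∀ S ∈ F, ((univ.filter fun φ : Fin n → V => Ind (S.image φ)).card : ℝ) ≤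
      β * (Fintype.card V : ℝ) ^ n) (j : ℕ) :
    ∃ Φ : ℕ → Fin n → V,
      ((F.filter fun S => ∀ t < j, Ind (S.image (Φ t))).card : ℝ) ≤ F.card * β ^ j := by
  induction j with
  | zero => exact ⟨fun _ _ => Classical.arbitrary V, by simp⟩
  | succ j ih =>
    obtain ⟨Φ, hΦ⟩ := ih
    obtain ⟨φ, hφ⟩ := cover_step Ind β (F.filter fun S => ∀ t < j, Ind (S.image (Φ t)))
      (fun S hS => h S (mem_filter.1 hS).1)
    refine ⟨fun t => if t < j then Φ t else φ, le_trans (le_of_eq ?_) (hφ.trans ?_)⟩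
    · rw [filter_filter]
      congr 2
      ext S
      simp only [mem_filter, and_congr_right_iff]
      intro _
      constructor
      · intro H
        refine ⟨fun t ht => ?_, ?_⟩
        · simpa [ht] using H t (by omega)
        · simpa using H j (by omega)
      · rintro ⟨H1, H2⟩ t ht
        split_ifs with h'
        · exact H1 t h'
        · exact H2
    · rw [pow_succ, ← mul_assoc]
      gcongr

lemma exists_cover {n w d j i : ℕ} (hd : 18 * 2 ^ i ≤ d) (hb : 2 ^ d ≤ w + 1)
    (hj : n < 2 ^ (i * j)) : ∃ H : ℕ → ℕ → ℕ → Prop, (∀ t a b, H t a b → H t b a) ∧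
      (∀ t a b c, H t a b → H t b c → H t a c → False) ∧
      ∀ S : Finset ℕ, S ⊆ range n → S.card = w + 1 →
        ∃ a ∈ S, ∃ b ∈ S, a ≠ b ∧ ∃ t < j, H t a b := by
  classical
  let Ind : Finset (Fin d → Bool) → Prop := fun A => ∀ x ∈ A, ∀ y ∈ A, 3 * hammingDist x y ≤ 2 * d
  have hd0 : 0 < d := lt_of_lt_of_le (by positivity) hd
  have hdR : (0 : ℝ) < d := by exact_mod_cast hd0
  have hcard : Fintype.card (Fin d → Bool) = 2 ^ d := by simp
  obtain ⟨Φ, hΦ⟩ := cover_iter Ind (n := n) ((2 * (9 / d : ℝ)) ^ (w + 1)) (by positivity)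
    (powersetCard (w + 1) univ) (fun S hS => count_maps Ind (9 / d : ℝ) (by positivity)
      (fun A hA => by
        have := indep_small A hA
        have h2 : (A.card : ℝ) * d ≤ 9 * 2 ^ d := by exact_mod_cast this
        rw [hcard, div_mul_eq_mul_div, le_div_iff₀ hdR]
        exact_mod_cast h2) (hcard ▸ hb) S (mem_powersetCard.1 hS).2) j
  have hlt : ((powersetCard (w + 1) (univ : Finset (Fin n))).card : ℝ) *
      ((2 * (9 / d : ℝ)) ^ (w + 1)) ^ j < 1 := by
    rw [card_powersetCard, card_univ, Fintype.card_fin]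
    have h1 : ((n.choose (w + 1) : ℕ) : ℝ) ≤ (n : ℝ) ^ (w + 1) := by
      exact_mod_cast Nat.choose_le_pow n (w + 1)
    have h2 : 2 * (9 / d : ℝ) ≤ 1 / 2 ^ i := by
      have : (18 * 2 ^ i : ℝ) ≤ d := by exact_mod_cast hd
      rw [← mul_div_assoc, div_le_div_iff₀ hdR (by positivity)]
      linarith
    have h3 : (n : ℝ) * (1 / 2 ^ i) ^ j < 1 := by
      have : (n : ℝ) < 2 ^ (i * j) := by exact_mod_cast hj
      rw [one_div, inv_pow, ← pow_mul, ← div_eq_mul_inv, div_lt_one (by positivity)]
      exact this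
    calc _ ≤ (n : ℝ) ^ (w + 1) * ((1 / 2 ^ i) ^ (w + 1)) ^ j := by gcongr
      _ = ((n : ℝ) * (1 / 2 ^ i) ^ j) ^ (w + 1) := by
        rw [mul_pow, ← pow_mul, ← pow_mul, mul_comm j]
      _ < 1 := pow_lt_one₀ (by positivity) h3 (by omega)
  have hemp := card_eq_zero.1 (Nat.lt_one_iff.1 (Nat.cast_lt_one.1 (hΦ.trans_lt hlt) ▸ one_pos))
  replace hemp := (@filter_eq_empty_iff _ _ (_) _).1 hemp
  let ψ : ℕ → ℕ → Fin d → Bool := fun t a => if h : a < n then Φ t ⟨a, h⟩ else fun _ => false
  refine ⟨fun t a b => 2 * d < 3 * hammingDist (ψ t a) (ψ t b), ?_, ?_, ?_⟩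
  · intro t a b h; rwa [hammingDist_comm]
  · intro t a b c h1 h2 h3
    have := ham_tri (ψ t a) (ψ t b) (ψ t c)
    omega
  · intro S hS hc
    have hlt' : ∀ m ∈ S, m < n := fun m hm => mem_range.1 (hS hm)
    have h1 := hemp (x := S.attachFin hlt')
      (mem_powersetCard.2 ⟨subset_univ _, by rw [card_attachFin, hc]⟩)
    simp only [Ind, not_forall, not_le] at h1
    obtain ⟨t, ht, x, hx, y, hy, hxy⟩ := h1
    obtain ⟨a, ha, rfl⟩ := mem_image.1 hx
    obtain ⟨b, hb', rfl⟩ := mem_image.1 hy
    rw [mem_attachFin] at ha hb'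
    refine ⟨a, ha, b, hb', ?_, t, ht, ?_⟩
    · intro e
      rw [Fin.ext e, hammingDist_self] at hxy
      omega
    · simpa [ψ] using hxy

end Pool.Agent.MP_251804_lc
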