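import Mathlib

namespace Pool.Agent.MP_251804_lc

/-- All `l`-cliques of `H` contained in `S` get one colour. -/
def Mono {V : Type} (H : SimpleGraph V) (k l : ℕ)
    (c : {T : Finset V // H.IsNClique l T} → Fin k) (S : Finset V) : Prop :=
  ∀ T₁ T₂ : {T : Finset V // H.IsNClique l T}, T₁.1 ⊆ S → T₂.1 ⊆ S → c T₁ = c T₂

/-- Every `k`-colouring of the `l`-cliques of `H` has a one-coloured clique of size `≥ r`. -/
def Arrows {V : Type} (H : SimpleGraph V) (k l r : ℕ) : Prop :=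
  ∀ c : {T : Finset V // H.IsNClique l T} → Fin k,
    ∃ S : Finset V, H.IsClique (S : Set V) ∧ r ≤ S.card ∧ Mono H k l c S

/-- The number `R(H,k,l)`. -/
noncomputable def ramseyR {V : Type} (H : SimpleGraph V) (k l : ℕ) : ℕ :=
  sSup {r : ℕ | Arrows H k l r}

/-- The colouring `c` has no one-coloured `r`-vertex clique. -/
def IsCert {V : Type} (G : SimpleGraph V) (k l r : ℕ)
    (c : {T : Finset V // G.IsNClique l T} → Fin k) : Prop :=
  ¬ ∃ S : Finset V, G.IsNClique r S ∧ Mono G k l c S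

/-- Completeness of the certificate system. -/
def Complete (ε : ℝ) (k l : ℕ → ℕ) : Prop :=
  ∀ᶠ n : ℕ in Filter.atTop, ∀ G : SimpleGraph (Fin n), (G.cliqueNum : ℝ) ≤ (n : ℝ) ^ ε →
    ∃ c : {T : Finset (Fin n) // G.IsNClique (l n) T} → Fin (k n),
      IsCert G (k n) (l n)
        (ramseyR (⊤ : SimpleGraph (Fin ⌊(n : ℝ) ^ (1 - ε)⌋₊)) (k n) (l n)) c

end Pool.Agent.MP_251804_lc
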