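import Pool.Agent.MP_251804_lc.Rand

namespace Pool.Agent.MP_251804_lc
open Finset

/-- A pair in increasing order. -/
def srt (a b : ℕ) : ℕ × ℕ := (min a b, max a b)

lemma srt_comm (a b : ℕ) : srt a b = srt b a := by simp [srt, min_comm, max_comm]

/-- The edge set of a triangle. -/
def tri (a b c : ℕ) : Finset (ℕ × ℕ) := {srt a b, srt a c, srt b c}

lemma card_tri {a b c : ℕ} (h1 : a ≠ b) (h2 : a ≠ c) (h3 : b ≠ c) : (tri a b c).card = 3 := by
  refine card_eq_three.2 ⟨_, _, _, ?_, ?_, ?_, rfl⟩ <;> simp only [srt, ne_eq, Prod.mk.injEq] <;>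
    omega

/-- The triangles on `range N`. -/
def IsTri (N : ℕ) (T : Finset (ℕ × ℕ)) : Prop :=
  ∃ a b c, a < N ∧ b < N ∧ c < N ∧ a ≠ b ∧ a ≠ c ∧ b ≠ c ∧ T = tri a b c

lemma IsTri.card {N : ℕ} {T : Finset (ℕ × ℕ)} (h : IsTri N T) : T.card = 3 := by
  obtain ⟨a, b, c, -, -, -, h1, h2, h3, rfl⟩ := h
  exact card_tri h1 h2 h3

lemma IsTri.edge {N : ℕ} {T : Finset (ℕ × ℕ)} (h : IsTri N T) {e : ℕ × ℕ} (he : e ∈ T) :
    ∃ c < N, T = tri e.1 e.2 c := by
  obtain ⟨a, b, c, ha, hb, hc, -, -, -, rfl⟩ := h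
  have key : ∀ a b c : ℕ, tri (srt a b).1 (srt a b).2 c = tri a b c := by
    intro a b c
    rcases le_total a b with h | h
    · simp [srt, h]
    · simp only [srt, min_eq_right h, max_eq_left h, tri]
      ext x
      simp only [mem_insert, mem_singleton, min_eq_left h, max_eq_right h]
      tauto
  simp only [tri, mem_insert, mem_singleton] at he
  rcases he with rfl | rfl | rfl
  · exact ⟨c, hc, (key a b c).symm⟩
  · refine ⟨b, hb, ?_⟩
    rw [key]
    ext x
    simp only [tri, mem_insert, mem_singleton, srt_comm c b]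
    tauto
  · refine ⟨a, ha, ?_⟩
    rw [key]
    ext x
    simp only [tri, mem_insert, mem_singleton, srt_comm c a, srt_comm b a]
    tauto

lemma exists_packing (N : ℕ) (E : Finset (ℕ × ℕ)) : ∃ F : Finset (Finset (ℕ × ℕ)),
    (∀ T ∈ F, IsTri N T ∧ T ⊆ E) ∧ (F : Set (Finset (ℕ × ℕ))).PairwiseDisjoint id ∧
      ∀ T, IsTri N T → ¬ T ⊆ E \ F.biUnion id := by
  classical
  obtain ⟨F, hF, hmax⟩ := exists_max_image (E.powerset.powerset.filter fun F : Finset (Finset (ℕ × ℕ)) =>
    (∀ T ∈ F, IsTri N T) ∧ (F : Set (Finset (ℕ × ℕ))).PairwiseDisjoint id) card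
    ⟨∅, by simp⟩
  simp only [mem_filter, mem_powerset] at hF hmax
  refine ⟨F, fun T hT => ⟨hF.2.1 T hT, mem_powerset.1 (hF.1 hT)⟩, hF.2.2, fun T hT hsub => ?_⟩
  have hdis : ∀ U ∈ F, Disjoint T U := fun U hU => disjoint_left.2 fun e he he' =>
    (mem_sdiff.1 (hsub he)).2 (mem_biUnion.2 ⟨U, hU, he'⟩)
  have hTF : T ∉ F := fun h => by
    have := hT.card
    rw [disjoint_self.1 (hdis T h)] at this
    simp at this
  have := hmax (insert T F) ⟨insert_subset (mem_powerset.2 (hsub.trans sdiff_subset)) hF.1,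
    fun U hU => (mem_insert.1 hU).elim (fun h => h ▸ hT) (hF.2.1 U), by
      rw [coe_insert]
      exact hF.2.2.insert fun U hU _ => hdis U hU⟩
  rw [card_insert_of_notMem hTF] at this
  omega

theorem exists_trifree {N w : ℕ} {p : ℝ} (hN : 1 ≤ N) (h0 : 0 ≤ p) (h1 : p ≤ 1)
    (hw : 40 * Real.log (3 * N) ≤ p * w) (hp : 150 * (N * p ^ 2) ≤ 1) :
    ∃ H : ℕ → ℕ → Prop, (∀ x y, H x y → H y x) ∧
      (∀ S ⊆ range N, S.card = w + 1 → ∃ x ∈ S, ∃ y ∈ S, x ≠ y ∧ H x y) ∧
      ∀ x y z, x < N → y < N → z < N → x ≠ y → x ≠ z → y ≠ z → H x y → H x z → H y z → False := by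
  classical
  have hNR : (1 : ℝ) ≤ N := by exact_mod_cast hN
  set P := prs (range N) with hP
  set m : ℝ := p * ((w + 1).choose 2 : ℕ) with hm
  have hm2 : m = (w + 1) * (p * w) / 2 := by rw [hm, cast_choose_two]; push_cast; ring
  have hlog : 1 ≤ Real.log (3 * N) := by
    rw [Real.le_log_iff_exp_le (by positivity)]
    linarith [Real.exp_one_lt_d9]
  have hm20 : 20 ≤ m := by
    have : (0 : ℝ) ≤ w := Nat.cast_nonneg _
    rw [hm2]; nlinarith
  set y := ⌈m / 20⌉₊ with hy
  have hy1 : m / 20 ≤ y := Nat.le_ceil _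
  have hy2 : (y : ℝ) ≤ m / 20 + 1 := (Nat.ceil_lt_add_one (by positivity)).le
  let TS : Finset ℕ → Finset (Finset (ℕ × ℕ)) := fun S =>
    ((prs S ×ˢ range N).image fun q => tri q.1.1 q.1.2 q.2).filter fun T => T.card = 3 ∧ T ⊆ P
  let GS : Finset ℕ → Finset (Finset (Finset (ℕ × ℕ))) := fun S =>
    (powersetCard y (TS S)).filter fun G => (G : Set (Finset (ℕ × ℕ))).PairwiseDisjoint id
  let Z : Finset ℕ → Finset (ℕ × ℕ) → ℝ := fun S E =>
    2 ^ (3 * y) * ∏ e ∈ prs S, (if e ∈ E then (1 / 2 : ℝ) else 1) +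
      ∑ G ∈ GS S, ∏ e ∈ G.biUnion id, (if e ∈ E then (1 : ℝ) else 0)
  have hexp : Real.exp (-(m / 20)) ≤ (1 / (3 * N)) ^ (w + 1) := by
    rw [one_div, ← Real.exp_log (show (0 : ℝ) < 3 * N by positivity), ← Real.exp_neg,
      ← Real.exp_nat_mul]
    refine Real.exp_le_exp.2 ?_
    have : (0 : ℝ) ≤ w := Nat.cast_nonneg _
    rw [hm2]
    push_cast
    nlinarith
  have e1 : ∀ S ∈ powersetCard (w + 1) (range N),
      ∑ E ∈ P.powerset, wgt p P E * Z S E ≤ 2 * (1 / (3 * N)) ^ (w + 1) := by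
    intro S hS
    obtain ⟨hS1, hS2⟩ := mem_powersetCard.1 hS
    simp only [Z, mul_add, sum_add_distrib, mul_left_comm (wgt p P _), mul_sum]
    rw [← mul_sum, exp_prod p _ 1 (prs_mono hS1), card_prs, hS2, sum_comm, two_mul]
    refine add_le_add (le_trans ?_ hexp) (le_trans ?_ hexp)
    · have a1 : (2 : ℝ) ^ (3 * y) ≤ Real.exp (3 * y) := by
        have : (2 : ℝ) ≤ Real.exp 1 := by linarith [Real.add_one_le_exp 1]
        refine (pow_le_pow_left₀ (by norm_num) this _).trans (le_of_eq ?_)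
        rw [← Real.exp_nat_mul]; push_cast; ring_nf
      have a2 : (p * (1 / 2) + (1 - p) * 1) ^ (w + 1).choose 2 ≤ Real.exp (-(m / 2)) := by
        refine (pow_le_pow_left₀ (by linarith) (b := Real.exp (-(p / 2)))
          (by linarith [Real.add_one_le_exp (-(p / 2))]) _).trans (le_of_eq ?_)
        rw [← Real.exp_nat_mul, hm]; ring_nf
      refine (mul_le_mul a1 a2 (pow_nonneg (by linarith) _) (by positivity)).trans ?_
      rw [← Real.exp_add]
      exact Real.exp_le_exp.2 (by linarith)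
    · have a1 : ∀ G ∈ GS S, ∑ E ∈ P.powerset, wgt p P E *
          ∏ e ∈ G.biUnion id, (if e ∈ E then (1 : ℝ) else 0) ≤ (p ^ 3) ^ y := by
        intro G hG
        obtain ⟨hG1, hG2⟩ := mem_filter.1 hG
        obtain ⟨hG3, hG4⟩ := mem_powersetCard.1 hG1
        rw [exp_prod p 1 0 (A := G.biUnion id)
          (biUnion_subset.2 fun T hT => (mem_filter.1 (hG3 hT)).2.2), card_biUnion hG2,
          sum_congr rfl (f := fun T => (id T : Finset (ℕ × ℕ)).card) (g := fun _ => 3)
            fun T hT => (mem_filter.1 (hG3 hT)).2.1, sum_const, hG4, ← pow_mul]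
        simp [mul_comm]
      refine (sum_le_card_nsmul _ _ _ a1).trans ?_
      have a2 : (TS S).card ≤ (w + 1).choose 2 * N := by
        refine (card_filter_le _ _).trans (card_image_le.trans ?_)
        rw [card_product, card_prs, hS2, card_range]
      have a3 : ((GS S).card : ℝ) ≤ (((w + 1).choose 2 * N : ℕ) : ℝ) ^ y / y.factorial := by
        refine le_trans ?_ (Nat.choose_le_pow_div y _)
        have := (card_filter_le _ _ : (GS S).card ≤ _)
        rw [card_powersetCard] at this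
        exact_mod_cast this.trans (Nat.choose_le_choose _ a2)
      rw [nsmul_eq_mul]
      refine (mul_le_mul_of_nonneg_right a3 (by positivity)).trans ?_
      have a4 := Real.pow_div_factorial_le_exp (Real.exp 2 * (m * (N * p ^ 2)))
        (by positivity) y
      have a5 : (((w + 1).choose 2 * N : ℕ) : ℝ) ^ y / y.factorial * (p ^ 3) ^ y =
          Real.exp (-(2 * y)) * ((Real.exp 2 * (m * (N * p ^ 2))) ^ y / y.factorial) := by
        rw [mul_pow (Real.exp 2), ← Real.exp_nat_mul, mul_div_assoc, ← mul_assoc, ← Real.exp_add,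
          div_mul_eq_mul_div, ← mul_pow, hm]
        push_cast
        ring_nf
        simp
      rw [a5]
      refine (mul_le_mul_of_nonneg_left a4 (by positivity)).trans ?_
      rw [← Real.exp_add]
      refine Real.exp_le_exp.2 ?_
      have a6 : Real.exp 2 ≤ 15 / 2 := by
        have : Real.exp 2 = Real.exp 1 * Real.exp 1 := by rw [← Real.exp_add]; norm_num
        have h2 := Real.exp_one_lt_d9
        have h3 := Real.exp_pos 1
        nlinarith
      have a7 : m * (N * p ^ 2) ≤ m / 150 := by nlinarith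
      have a8 : 0 ≤ m * (N * p ^ 2) := by positivity
      nlinarith
  obtain ⟨E, hE, hZ⟩ := exists_lt_one h0 h1 P (fun E => ∑ S ∈ powersetCard (w + 1) (range N), Z S E)
    (by
      simp only [mul_sum]
      rw [sum_comm]
      refine (sum_le_sum e1).trans_lt ?_
      rw [← mul_sum]
      have := sum_card_le (n := N) (s := w + 1) (x := 1 / (3 * N)) (by positivity)
        (fun _ => (1 / (3 * N)) ^ (w + 1)) fun _ _ => le_rfl
      have e : (N : ℝ) * (1 / (3 * N)) = 1 / 3 := by field_simp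
      rw [e] at this
      have h2 : (1 / 3 : ℝ) ^ (w + 1) ≤ 1 / 3 :=
        pow_le_of_le_one (by norm_num) (by norm_num) (by omega)
      linarith)
  obtain ⟨F, hF1, hF2, hF3⟩ := exists_packing N E
  have n1 : ∀ S, 0 ≤ 2 ^ (3 * y) * ∏ e ∈ prs S, (if e ∈ E then (1 / 2 : ℝ) else 1) :=
    fun S => mul_nonneg (by positivity) (prod_nonneg fun e _ => by split_ifs <;> norm_num)
  have n2 : ∀ G : Finset (Finset (ℕ × ℕ)),
      0 ≤ ∏ e ∈ G.biUnion id, (if e ∈ E then (1 : ℝ) else 0) :=
    fun S => prod_nonneg fun e _ => by split_ifs <;> norm_num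
  refine ⟨fun a b => srt a b ∈ E \ F.biUnion id, fun a b h => by
    beta_reduce at h ⊢; rwa [srt_comm], ?_, ?_⟩
  · intro S hS hc
    by_contra hno
    push Not at hno
    have h2 : Z S E < 1 := (single_le_sum (f := fun S => Z S E)
      (fun S _ => add_nonneg (n1 S) (sum_nonneg fun G _ => n2 G))
      (mem_powersetCard.2 ⟨hS, hc⟩)).trans_lt hZ
    set FS := F.filter fun T => ∃ e ∈ T, e ∈ prs S with hFS
    rcases le_total y FS.card with h3 | h3
    · obtain ⟨G, hG1, hG2⟩ := exists_subset_card_eq h3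
      have hGF : G ⊆ F := hG1.trans (filter_subset _ _)
      have h4 : G ∈ GS S := by
        refine mem_filter.2 ⟨mem_powersetCard.2 ⟨fun T hT => ?_, hG2⟩, hF2.subset hGF⟩
        obtain ⟨hT1, e, he1, he2⟩ := mem_filter.1 (hG1 hT)
        obtain ⟨c, hc, h5⟩ := (hF1 T hT1).1.edge he1
        exact mem_filter.2 ⟨mem_image.2 ⟨(e, c), mem_product.2 ⟨he2, mem_range.2 hc⟩, h5.symm⟩,
          (hF1 T hT1).1.card, (hF1 T hT1).2.trans hE⟩
      have h5 := single_le_sum (fun G _ => n2 G) h4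
      rw [prod_eq_one (s := G.biUnion id) fun e he => if_pos
        (biUnion_subset.2 (fun T hT => (hF1 T (hGF hT)).2) he)] at h5
      have := n1 S
      simp only [Z] at h2
      linarith
    · have h4 : (prs S ∩ E).card ≤ 3 * y := by
        refine le_trans (card_le_card (t := FS.biUnion id) fun e he => ?_) ?_
        · obtain ⟨he1, he2⟩ := mem_inter.1 he
          obtain ⟨a1, a2, a3⟩ := mem_prs.1 he1
          have h5 := hno _ a1 _ a2 a3.ne
          have h6 : srt e.1 e.2 = e := by simp [srt, a3.le]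
          rw [h6, mem_sdiff, not_and, not_not] at h5
          obtain ⟨T, hT, h7⟩ := mem_biUnion.1 (h5 he2)
          exact mem_biUnion.2 ⟨T, mem_filter.2 ⟨hT, e, h7, he1⟩, h7⟩
        · refine (card_biUnion_le_card_mul _ _ 3 fun T hT => ?_).trans (by omega)
          exact (hF1 T (mem_filter.1 hT).1).1.card.le
      have h5 : (1 : ℝ) ≤ 2 ^ (3 * y) * ∏ e ∈ prs S, (if e ∈ E then (1 / 2 : ℝ) else 1) := by
        rw [prod_ite_eq_pow, one_div, inv_pow, ← div_eq_mul_inv, one_le_div (by positivity)]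
        exact pow_le_pow_right₀ (by norm_num) h4
      have := sum_nonneg (s := GS S) fun G _ => n2 G
      simp only [Z] at h2
      linarith
  · intro x y z hx hy hz a1 a2 a3 b1 b2 b3
    refine hF3 (tri x y z) ⟨x, y, z, hx, hy, hz, a1, a2, a3, rfl⟩ ?_
    intro e he
    simp only [tri, mem_insert, mem_singleton] at he
    rcases he with rfl | rfl | rfl <;> assumption

end Pool.Agent.MP_251804_lc
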