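import Pool.Agent.MP_251804_lc.TwoTwo
import Pool.Agent.MP_251804_lc.TriFree

namespace Pool.Agent.MP_251804_lc
open Finset Filter

/-- A certificate on the complement of `H` extends to a colouring of all triples. -/
lemma CertAt.fill {n N w k r : ℕ} (h : CertAt n w k 3 r) (hN : N ≤ n) (hw : 0 < w) (hk : 2 ≤ k)
    (hr : 2 ≤ r) (H : ℕ → ℕ → Prop) (hH : ∀ x y, H x y → H y x)
    (h1 : ∀ S ⊆ range N, S.card = w + 1 → ∃ x ∈ S, ∃ y ∈ S, x ≠ y ∧ H x y)
    (h2 : ∀ S ⊆ range N, S.card = r + 1 → ∃ x ∈ S, ∃ y ∈ S, x ≠ y ∧ ¬ H x y)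
    (htri : ∀ x y z, H x y → H x z → H y z → 2 < k) : Good N k 3 (r + 1) := by
  classical
  obtain ⟨c, hc, hg⟩ := h (fun a b => a < N ∧ b < N ∧ ¬ H a b)
    (fun a b h => ⟨h.2.1, h.1, fun h' => h.2.2 (hH _ _ h')⟩) (by
      intro S _ hcard
      by_cases hS : S ⊆ range N
      · obtain ⟨x, hx, y, hy, hxy, h⟩ := h1 S hS hcard
        exact ⟨x, hx, y, hy, hxy, fun h' => h'.2.2 h⟩
      · obtain ⟨a, ha, haN⟩ := not_subset.1 hS
        obtain ⟨b, hb, hab⟩ := exists_mem_ne (s := S) (by omega) a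
        exact ⟨a, ha, b, hb, hab.symm, fun h' => haN (mem_range.2 h'.1)⟩)
  refine good3_of (fun x y z => if H y z then (if H x y ∧ H x z then 2 else 0)
    else if H x y ∨ H x z then 1 else c {x, y, z}) ?_ ?_
  · intro x y z
    split_ifs with q1 q2 q3
    · exact htri _ _ _ q2.1 q2.2 q1
    · omega
    · omega
    · exact hc _
  intro x hx hb v hv
  beta_reduce at hv
  have hcover : ∃ i₀ < r + 1, ∀ i j, i < j → j < r + 1 → i ≠ i₀ → j ≠ i₀ → ¬ H (x i) (x j) := by
    obtain rfl | rfl | hv2 : v = 0 ∨ v = 1 ∨ 2 ≤ v := by omega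
    · have key : ∀ i j t, i < j → j < t → t < r + 1 → H (x i) (x j) ∨ H (x i) (x t) →
          H (x j) (x t) := by
        intro i j t a1 a2 a3 a4
        by_contra a5
        have := hv i j t a1 a2 a3
        rw [if_neg a5, if_pos a4] at this
        omega
      have ntri : ∀ i j t, i < j → j < t → t < r + 1 → H (x i) (x j) → H (x i) (x t) → False := by
        intro i j t a1 a2 a3 a4 a5
        have := hv i j t a1 a2 a3
        rw [if_pos (key i j t a1 a2 a3 (Or.inl a4)), if_pos ⟨a4, a5⟩] at this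
        omega
      have low : ∀ i j, i < j → j < r - 1 → ¬ H (x i) (x j) := fun i j a1 a2 a3 =>
        ntri j (r - 1) r a2 (by omega) (by omega)
          (key i j _ a1 a2 (by omega) (Or.inl a3)) (key i j _ a1 (by omega) (by omega) (Or.inl a3))
      by_cases hA : ∃ i₀ < r - 1, H (x i₀) (x (r - 1))
      · obtain ⟨i₀, a1, a2⟩ := hA
        refine ⟨r - 1, by omega, fun i j b1 b2 b3 b4 b5 => ?_⟩
        rcases Nat.lt_or_ge j (r - 1) with b6 | b6
        · exact low i j b1 b6 b5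
        obtain rfl : j = r := by omega
        rcases lt_trichotomy i i₀ with b7 | b7 | b7
        · exact ntri i₀ (j - 1) j a1 (by omega) b2 a2
            (key i i₀ j b7 (by omega) b2 (Or.inr b5))
        · exact ntri i₀ (j - 1) j a1 (by omega) b2 a2 (b7 ▸ b5)
        · exact ntri i (j - 1) j (by omega) (by omega) b2
            (key i₀ i _ b7 (by omega) (by omega) (Or.inr a2)) b5
      · refine ⟨r, by omega, fun i j b1 b2 _ b4 b5 => ?_⟩
        rcases Nat.lt_or_ge j (r - 1) with b6 | b6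
        · exact low i j b1 b6 b5
        obtain rfl : j = r - 1 := by omega
        exact hA ⟨i, b1, b5⟩
    · refine ⟨0, by omega, fun i j b1 b2 b3 _ b5 => ?_⟩
      have := hv 0 i j (by omega) b1 b2
      rw [if_pos b5] at this
      split_ifs at this
      omega
    · have all : ∀ i j t, i < j → j < t → t < r + 1 →
          H (x i) (x j) ∨ H (x i) (x t) ∨ H (x j) (x t) →
          H (x i) (x j) ∧ H (x i) (x t) ∧ H (x j) (x t) := by
        intro i j t a1 a2 a3 a4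
        have := hv i j t a1 a2 a3
        split_ifs at this with q1 q2 q3
        · exact ⟨q2.1, q2.2, q1⟩
        · omega
        · omega
        · tauto
      have all' : ∀ i j t, i < r + 1 → j < r + 1 → t < r + 1 → i ≠ j → i ≠ t → j ≠ t →
          H (x i) (x j) → H (x i) (x t) := by
        intro i j t a1 a2 a3 a4 a5 a6 a7
        have a8 := hH _ _ a7
        rcases lt_or_gt_of_ne a4 with b1 | b1 <;> rcases lt_or_gt_of_ne a5 with b2 | b2 <;>
          rcases lt_or_gt_of_ne a6 with b3 | b3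
        · exact (all i j t b1 b3 a3 (Or.inl a7)).2.1
        · exact (all i t j b2 b3 a2 (Or.inr (Or.inl a7))).1
        · omega
        · exact hH _ _ (all t i j b2 b1 a2 (Or.inr (Or.inr a7))).1
        · exact (all j i t b1 b2 a3 (Or.inl a8)).2.2
        · omega
        · exact hH _ _ (all j t i b3 b2 a1 (Or.inr (Or.inl a8))).2.2
        · exact hH _ _ (all t j i b3 b1 a1 (Or.inr (Or.inr a8))).2.1
      refine ⟨0, by omega, fun i j b1 b2 _ _ b5 => ?_⟩
      have star : ∀ t, t < r + 1 → t ≠ i → H (x i) (x t) := by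
        intro t a1 a2
        by_cases a3 : t = j
        · exact a3 ▸ b5
        · exact all' i j t (by omega) b2 a1 b1.ne a2.symm (Ne.symm a3) b5
      obtain ⟨a, ha, b, hb', hab, hn⟩ := h2 (image x (range (r + 1))) (by
        intro a ha
        obtain ⟨s, hs, rfl⟩ := mem_image.1 ha
        exact mem_range.2 (hb s (mem_range.1 hs))) hx.card_image
      obtain ⟨s, hs, rfl⟩ := mem_image.1 ha
      obtain ⟨t, ht, rfl⟩ := mem_image.1 hb'
      rw [mem_range] at hs ht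
      have hst : s ≠ t := fun e => hab (by rw [e])
      by_cases a1 : s = i
      · exact hn (a1 ▸ star t ht (by omega))
      by_cases a2 : t = i
      · exact hn (hH _ _ (a2 ▸ star s hs a1))
      exact hn (all' s i t hs (by omega) ht a1 hst (Ne.symm a2) (hH _ _ (star s hs a1)))
  obtain ⟨i₀, hi₀, hno⟩ := hcover
  have hinj : Set.InjOn x ((range (r + 1)).erase i₀ : Finset ℕ) :=
    hx.injOn.mono (by exact_mod_cast erase_subset _ _)
  have hmem : ∀ i ∈ (range (r + 1)).erase i₀, i ≠ i₀ ∧ i < r + 1 := fun i hi => by simpa using hi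
  refine hg (image x ((range (r + 1)).erase i₀)) ?_ ?_ ?_ ?_
  · intro a ha
    obtain ⟨i, hi, rfl⟩ := mem_image.1 ha
    exact mem_range.2 ((hb i (hmem i hi).2).trans_le hN)
  · rw [card_image_of_injOn hinj, card_erase_of_mem (mem_range.2 hi₀), card_range]
    omega
  · intro a ha b hb' hab
    obtain ⟨i, hi, rfl⟩ := mem_image.1 ha
    obtain ⟨j, hj, rfl⟩ := mem_image.1 hb'
    refine ⟨hb i (hmem i hi).2, hb j (hmem j hj).2, ?_⟩
    rcases lt_trichotomy i j with q | q | q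
    · exact hno i j q (hmem j hj).2 (hmem i hi).1 (hmem j hj).1
    · exact absurd (by rw [q]) hab
    · exact fun h' => hno j i q (hmem i hi).2 (hmem j hj).1 (hmem i hi).1 (hH _ _ h')
  have key : ∀ T ⊆ image x ((range (r + 1)).erase i₀), T.card = 3 → c T = v := by
    intro T hT hcT
    obtain ⟨U, hU, rfl⟩ := subset_image_iff.1 hT
    rw [card_image_of_injOn (hinj.mono (by exact_mod_cast hU))] at hcT
    have e0 := hmem _ (hU (enum_mem (T := U) (i := 0) (by omega)))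
    have e1 := hmem _ (hU (enum_mem (T := U) (i := 1) (by omega)))
    have e2 := hmem _ (hU (enum_mem (T := U) (i := 2) (by omega)))
    have l01 := enum_inc U 0 1 (by omega) (by omega)
    have l12 := enum_inc U 1 2 (by omega) (by omega)
    have := hv _ _ _ l01 l12 e2.2
    rw [if_neg (hno _ _ l12 e2.2 e1.1 e2.1), if_neg (not_or.2 ⟨hno _ _ l01 e1.2 e0.1 e1.1,
      hno _ _ (l01.trans l12) e2.2 e0.1 e2.1⟩)] at this
    rw [← this]
    congr 1
    conv_lhs => rw [← image_enum U, hcT]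
    ext a
    simp only [range_add_one, range_zero, image_insert, mem_insert, mem_singleton,
      insert_empty_eq, image_singleton]
    tauto
  intro T₁ T₂ q1 q2 c1 c2
  rw [key T₁ q1 c1, key T₂ q2 c2]

lemma succ_rpow_le {n : ℕ} (hn : 1 ≤ n) {ε : ℝ} (hε : 0 < ε) (hε1 : ε ≤ 1) :
    (⌊((n + 1 : ℕ) : ℝ) ^ (1 - ε)⌋₊ : ℝ) ≤ 2 * (n : ℝ) ^ (1 - ε) := by
  have hnR : (1 : ℝ) ≤ n := by exact_mod_cast hn
  refine (Nat.floor_le (by positivity)).trans ?_
  have h1 : ((n + 1 : ℕ) : ℝ) ^ (1 - ε) ≤ (2 * n : ℝ) ^ (1 - ε) :=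
    Real.rpow_le_rpow (by positivity) (by push_cast; linarith) (by linarith)
  rw [Real.mul_rpow (by norm_num) (by positivity)] at h1
  have h2 : (2 : ℝ) ^ (1 - ε) ≤ 2 := by
    simpa using Real.rpow_le_rpow_of_exponent_le (x := 2) (by norm_num) (show 1 - ε ≤ 1 by linarith)
  exact h1.trans (mul_le_mul_of_nonneg_right h2 (by positivity))

lemma ev_fill {ε : ℝ} (hε : 0 < ε) (hε2 : ε < 1 / 2) : ∃ r₀ : ℕ, ∀ᶠ n : ℕ in atTop, ∀ k r : ℕ,
    2 ≤ k → (3 ≤ k ∨ 1 / 3 < ε) → r₀ ≤ r → CertAt n ⌊(n : ℝ) ^ ε⌋₊ k 3 r →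
      Good ⌊((n + 1 : ℕ) : ℝ) ^ (1 - ε)⌋₊ k 3 (r + 1) := by
  have hev : ∀ᶠ n : ℕ in atTop, 1 / 3 < ε → 400 * (4 * Real.log (3 * n) + 2 * Real.log (4 * n) + 1)
      ≤ (n : ℝ) ^ ((3 * ε - 1) / 2) := by
    by_cases h : 1 / 3 < ε
    · exact (ev_log (by linarith) (by norm_num)).mono fun n hn _ => hn
    · exact Eventually.of_forall fun n hn => absurd hn h
  refine ⟨2 * ⌈4 / ε⌉₊ + 2, ?_⟩
  filter_upwards [hev, ev_log (half_pos hε) (C := 2) (by norm_num), ev_rpow hε 2,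
    eventually_ge_atTop 3] with n h1 h2 h3 hn k r hk hcase hr hc
  have n3 : (3 : ℝ) ≤ n := by exact_mod_cast hn
  have n0 : (0 : ℝ) < n := by linarith
  have hw := half_le_floor (show 1 ≤ (n : ℝ) ^ ε by linarith)
  set w := ⌊(n : ℝ) ^ ε⌋₊
  set N := ⌊((n + 1 : ℕ) : ℝ) ^ (1 - ε)⌋₊ with hNdef
  have w0 : (0 : ℝ) < w := by linarith
  have l3 : 0 ≤ Real.log (3 * n) := Real.log_nonneg (by linarith)
  have l4 : 0 ≤ Real.log (4 * n) := Real.log_nonneg (by linarith)
  have hN2 : (N : ℝ) ≤ 2 * (n : ℝ) ^ (1 - ε) := succ_rpow_le (by omega) hε (by linarith)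
  have e1 : (n : ℝ) ^ (1 - ε) * (n : ℝ) ^ ε = n := by rw [← Real.rpow_add n0]; simp
  have p1 : 0 < (n : ℝ) ^ (1 - ε) := by positivity
  have hNn : N ≤ n := by
    have : (N : ℝ) ≤ n := by nlinarith
    exact_mod_cast this
  rcases hcase with hk3 | hε3
  · have q0 : 0 < (n : ℝ) ^ (ε / 2) := by positivity
    have q1 : (n : ℝ) ^ ε = (n : ℝ) ^ (ε / 2) * (n : ℝ) ^ (ε / 2) := by
      rw [← Real.rpow_add n0, add_halves]
    have hp : 2 * Real.log (3 * n) / w ≤ (n : ℝ) ^ (-(ε / 2)) := by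
      rw [Real.rpow_neg n0.le, div_le_iff₀ w0, ← div_eq_inv_mul, le_div_iff₀ q0]
      nlinarith
    have hp1 : (n : ℝ) ^ (-(ε / 2)) ≤ 1 :=
      Real.rpow_le_one_of_one_le_of_nonpos (by linarith) (by linarith)
    obtain ⟨H, hH, a1, a2, -⟩ := exists_rand (n := n) (w := w) (a := ⌈4 / ε⌉₊)
      (p := 2 * Real.log (3 * n) / w) (by omega) (by positivity) (hp.trans hp1)
      (by rw [div_mul_cancel₀ _ w0.ne']) (by
        have b1 := pow_le_pow_left₀ (by positivity) hp ⌈4 / ε⌉₊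
        rw [← Real.rpow_natCast ((n : ℝ) ^ (-(ε / 2))), ← Real.rpow_mul n0.le] at b1
        have b2 : 4 / ε ≤ (⌈4 / ε⌉₊ : ℝ) := Nat.le_ceil _
        rw [div_le_iff₀ hε] at b2
        have b3 : (n : ℝ) ^ (-(ε / 2) * (⌈4 / ε⌉₊ : ℝ)) ≤ (n : ℝ) ^ (-2 : ℝ) :=
          Real.rpow_le_rpow_of_exponent_le (by linarith) (by linarith)
        have b4 : (n : ℝ) ^ (-2 : ℝ) = 1 / (n * n) := by
          rw [Real.rpow_neg n0.le, Real.rpow_two, one_div, sq]
        calc _ ≤ 3 * n * (1 / (n * n) : ℝ) :=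
              mul_le_mul_of_nonneg_left (b1.trans (b3.trans b4.le)) (by positivity)
          _ = 3 / n := by field_simp
          _ ≤ 1 := by rw [div_le_one n0]; exact n3)
    refine (hc.fill le_rfl (by exact_mod_cast w0) hk (by omega) H hH a1 ?_
      (fun _ _ _ _ _ _ => by omega)).mono hNn le_rfl le_rfl
    intro S hS hcard
    obtain ⟨S', b1, b2⟩ := exists_subset_card_eq (s := S) (n := 2 * ⌈4 / ε⌉₊ + 1) (by omega)
    obtain ⟨x, hx, y, hy, b3⟩ := a2 S' (b1.trans hS) b2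
    exact ⟨x, b1 hx, y, b1 hy, b3⟩
  · have h4 := h1 hε3
    have hN1 : 1 ≤ N := (Nat.one_le_floor_iff _).2
      (Real.one_le_rpow (by push_cast; linarith) (by linarith))
    have N1 : (1 : ℝ) ≤ N := by exact_mod_cast hN1
    have Nn : (N : ℝ) ≤ n := by exact_mod_cast hNn
    have q0 : 0 < (n : ℝ) ^ ε := by positivity
    have hp : 150 * (N * (40 * Real.log (3 * n) / w) ^ 2) ≤ 1 := by
      have b1 : 1600 * Real.log (3 * n) ≤ (n : ℝ) ^ ((3 * ε - 1) / 2) := by linarith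
      have b2 := mul_self_le_mul_self (by positivity) b1
      have b3 : (n : ℝ) ^ ((3 * ε - 1) / 2) * (n : ℝ) ^ ((3 * ε - 1) / 2) * (n : ℝ) ^ (1 - ε) =
          (n : ℝ) ^ ε * (n : ℝ) ^ ε := by
        simp only [← Real.rpow_add n0]; congr 1; ring
      have b4 := mul_self_le_mul_self (by positivity) hw
      have b5 := mul_le_mul_of_nonneg_right b2 p1.le
      have b6 := mul_le_mul_of_nonneg_right hN2 (mul_self_nonneg (Real.log (3 * n)))
      rw [div_pow, ← mul_div_assoc, ← mul_div_assoc, div_le_one (by positivity)]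
      nlinarith
    have hp1 : 40 * Real.log (3 * n) / w ≤ 1 := by
      by_contra hlt
      push Not at hlt
      nlinarith
    obtain ⟨H, hH, a1, a2⟩ := exists_trifree (N := N) (w := w) (p := 40 * Real.log (3 * n) / w)
      hN1 (by positivity) hp1 (by
        rw [div_mul_cancel₀ _ w0.ne']
        have := Real.log_le_log (x := 3 * N) (y := 3 * n) (by positivity) (by linarith)
        linarith) hp
    refine hc.fill hNn (by exact_mod_cast w0) hk (by omega)
      (fun a b => H a b ∧ a < N ∧ b < N ∧ a ≠ b)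
      (fun a b h => ⟨hH _ _ h.1, h.2.2.1, h.2.1, h.2.2.2.symm⟩) ?_ ?_ ?_
    · intro S hS hcard
      obtain ⟨x, hx, y, hy, b1, b2⟩ := a1 S hS hcard
      exact ⟨x, hx, y, hy, b1, b2, mem_range.1 (hS hx), mem_range.1 (hS hy), b1⟩
    · intro S hS hcard
      by_contra hno
      push Not at hno
      obtain ⟨x, hx, y, hy, z, hz, b1, b2, b3⟩ := two_lt_card.1 (show 2 < S.card by omega)
      exact a2 x y z (mem_range.1 (hS hx)) (mem_range.1 (hS hy)) (mem_range.1 (hS hz)) b1 b2 b3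
        (hno x hx y hy b1).1 (hno x hx z hz b2).1 (hno y hy z hz b3).1
    · intro x y z b1 b2 b3
      exact (a2 x y z b1.2.1 b1.2.2.1 b2.2.2.1 b1.2.2.2 b2.2.2.2 b3.2.2.2 b1.1 b2.1 b3.1).elim

theorem mainB {ε : ℝ} (hε : 0 < ε) (hε2 : ε < 1 / 2) : ∃ Λ : ℕ, ∀ k l : ℕ → ℕ,
    (∀ n, 2 ≤ k n) → (∃ᶠ n : ℕ in atTop, (3 ≤ k n ∨ 1 / 3 < ε) ∧
      ∀ n' ∈ Set.Icc n (n ^ Λ), k n' = k n ∧ l n' = 3) → ¬ Complete ε k l := by
  obtain ⟨r₀, hfill⟩ := ev_fill hε hε2
  set g := ⌈1 / ε⌉₊ with hg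
  have g1 : 1 ≤ ε * g := by
    have : 1 / ε ≤ (g : ℝ) := Nat.le_ceil _
    rwa [div_le_iff₀' hε] at this
  have g0 : 0 < g := Nat.ceil_pos.2 (by positivity)
  refine ⟨g ^ (r₀ + 1), fun k l hk hfreq hcomp => ?_⟩
  obtain ⟨N, hN⟩ := eventually_atTop.1
    ((hcomp.eventually hk).and (hfill.and (eventually_ge_atTop 1)))
  choose! r hr using fun n hn => (hN n hn).1
  obtain ⟨n, ⟨hcase, hwin⟩, hn⟩ := (hfreq.and_eventually (eventually_ge_atTop N)).exists
  have n1 : 1 ≤ n := (hN n hn).2.2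
  have hr' : ∀ x, n ≤ x → x ≤ n ^ g ^ (r₀ + 1) → ¬ Good ⌊(x : ℝ) ^ (1 - ε)⌋₊ (k n) 3 (r x) ∧
      CertAt x ⌊(x : ℝ) ^ ε⌋₊ (k n) 3 (r x) := by
    intro x a1 a2
    have := hr x (hn.trans a1)
    rwa [(hwin x ⟨a1, a2⟩).1, (hwin x ⟨a1, a2⟩).2] at this
  have c1 : ∀ x y, n ≤ x → x ^ g ≤ y → y ≤ n ^ g ^ (r₀ + 1) → r x < r y := by
    intro x y a1 a2 a3
    have x1 : 1 ≤ x := n1.trans a1
    have a4 : x ≤ y := (Nat.le_self_pow g0.ne' x).trans a2
    have xR : (1 : ℝ) ≤ x := by exact_mod_cast x1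
    have a5 : x ≤ ⌊(y : ℝ) ^ ε⌋₊ := by
      refine Nat.le_floor ?_
      have b1 : ((x : ℝ) ^ g) ^ ε ≤ (y : ℝ) ^ ε :=
        Real.rpow_le_rpow (by positivity) (by exact_mod_cast a2) hε.le
      rw [← Real.rpow_natCast, ← Real.rpow_mul (by positivity)] at b1
      refine le_trans ?_ b1
      simpa using Real.rpow_le_rpow_of_exponent_le xR (show 1 ≤ (g : ℝ) * ε by linarith)
    by_contra hlt
    exact (hr' x a1 (a4.trans a3)).1 (((hr' y (a1.trans a4) a3).2.good
      (floor_rpow_le (x1.trans a4) (by linarith)) (by omega)).mono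
      ((floor_rpow_le x1 (by linarith)).trans a5) le_rfl (by omega))
  have c0 : ∀ j, n ≤ n ^ g ^ j := fun j => Nat.le_self_pow (by positivity) n
  have c2 : ∀ j y, n ^ g ^ j ≤ y → y ≤ n ^ g ^ (r₀ + 1) → j ≤ r y := by
    intro j
    induction j with
    | zero => intros; omega
    | succ j ih =>
      intro y a1 a2
      rw [pow_succ, pow_mul] at a1
      have a3 := c1 _ y (c0 j) a1 a2
      have a4 := ih _ le_rfl ((Nat.le_self_pow g0.ne' _).trans (a1.trans a2))
      omega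
  have c3 : ∀ t, n ^ g ^ r₀ + t ≤ n ^ g ^ (r₀ + 1) → r (n ^ g ^ r₀ + t) ≤ r (n ^ g ^ r₀) := by
    intro t
    induction t with
    | zero => intro _; rfl
    | succ t ih =>
      intro a1
      have a2 : n ≤ n ^ g ^ r₀ + t := (c0 r₀).trans (Nat.le_add_right _ _)
      have a3 := (hN _ (hn.trans a2)).2.1 (k n) _ (hk n) hcase
        (c2 r₀ _ (Nat.le_add_right _ t) (by omega)) (hr' _ a2 (by omega)).2
      have a4 := (hr' (n ^ g ^ r₀ + t + 1) (by omega) a1).1
      have a5 := ih (by omega)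
      by_contra hlt
      exact a4 (a3.mono le_rfl le_rfl (by rw [add_assoc]; omega))
  have c4 : (n ^ g ^ r₀) ^ g = n ^ g ^ (r₀ + 1) := by rw [pow_succ, pow_mul]
  have c5 := c1 _ _ (c0 r₀) c4.le le_rfl
  obtain ⟨t, ht⟩ := Nat.exists_eq_add_of_le ((Nat.le_self_pow g0.ne' _).trans c4.le)
  have c6 := c3 t ht.ge
  rw [← ht] at c6
  omega

end Pool.Agent.MP_251804_lc
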