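import Pool.Agent.MP_251804_lc.Count
import Pool.Agent.MP_251804_lc.Cube
import Pool.Agent.MP_251804_lc.Bridge

namespace Pool.Agent.MP_251804_lc
open Finset Filter

lemma two_pow_rpow (x : ℕ) (e : ℝ) : ((2 ^ x : ℕ) : ℝ) ^ e = (2 : ℝ) ^ ((x : ℝ) * e) := by
  push_cast
  rw [Real.rpow_mul (by norm_num), Real.rpow_natCast]

lemma data_of {ε : ℝ} (hε : 0 < ε) (hε2 : ε < 1 / 2) {lam i k l r : ℕ} (hlam : 4 / ε ≤ 2 ^ lam)
    (hlam4 : 4 ≤ lam) (hi : 3 ≤ i) (n : ℕ) (hn : n = 2 ^ 2 ^ (lam * i))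
    (hl : (l : ℝ) ≤ (n : ℝ) ^ ε) (h1 : ¬ Good ⌊(n : ℝ) ^ (1 - ε)⌋₊ k l r)
    (h2 : CertAt n ⌊(n : ℝ) ^ ε⌋₊ k l r) : Data ε lam i k l r := by
  have hwn : ⌊(n : ℝ) ^ ε⌋₊ ≤ n := by
    apply Nat.floor_le_of_le
    have : (1 : ℝ) ≤ n := by rw [hn]; exact_mod_cast Nat.one_le_two_pow
    calc (n : ℝ) ^ ε ≤ (n : ℝ) ^ (1 : ℝ) := Real.rpow_le_rpow_of_exponent_le this (by linarith)
      _ = n := Real.rpow_one _
  have hw : 2 ^ 2 ^ (lam * (i - 1)) ≤ ⌊(n : ℝ) ^ ε⌋₊ := by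
    apply Nat.le_floor
    rw [hn, two_pow_rpow, ← Real.rpow_one ((2 ^ 2 ^ (lam * (i - 1)) : ℕ) : ℝ), two_pow_rpow]
    apply Real.rpow_le_rpow_of_exponent_le (by norm_num)
    have e : lam * i = lam * (i - 1) + lam := by
      obtain ⟨j, rfl⟩ : ∃ j, i = j + 1 := ⟨i - 1, by omega⟩
      simp [mul_add]
    rw [e]
    push_cast
    rw [pow_add, mul_assoc]
    rw [div_le_iff₀ hε] at hlam
    gcongr
    linarith
  have hw0 : 0 < ⌊(n : ℝ) ^ ε⌋₊ := lt_of_lt_of_le (by positivity) hw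
  have hg := h2.good hwn hw0
  have hlr := hg.lt_of_le (Nat.le_floor hl)
  refine ⟨fun y hy hc => h1 (hc.mono ?_ le_rfl le_rfl), hg.mono hw le_rfl le_rfl, hlr, ?_⟩
  · apply Nat.floor_le_of_le
    rw [hn, two_pow_rpow, ← Real.rpow_one ((2 ^ y : ℕ) : ℝ), two_pow_rpow]
    apply Real.rpow_le_rpow_of_exponent_le (by norm_num)
    push_cast
    linarith
  · rintro rfl j hj
    obtain ⟨H, a1, a2, a3⟩ := exists_cover (n := n) (w := ⌊(n : ℝ) ^ ε⌋₊)
      (d := 2 ^ (lam * (i - 1))) (j := j) (i := i) (by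
        have : 5 + i ≤ lam * (i - 1) := by
          have : 4 * (i - 1) ≤ lam * (i - 1) := Nat.mul_le_mul_right _ hlam4
          omega
        calc 18 * 2 ^ i ≤ 2 ^ (5 + i) := by rw [pow_add]; omega
          _ ≤ _ := Nat.pow_le_pow_right (by norm_num) this) (by omega)
      (by rw [hn]; exact Nat.pow_lt_pow_right (by norm_num) hj)
    rw [← hn]
    exact h2.good_cover (by omega) H a1 a2 a3

lemma choose_three_ge {Y T : ℕ} (h : 6 * Y ≤ T * T) : Y * (T + 2) ≤ (T + 2).choose 3 := by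
  have h1 := Nat.descFactorial_eq_factorial_mul_choose (T + 2) 3
  simp only [Nat.descFactorial, Nat.factorial] at h1
  simp only [Nat.add_sub_cancel, Nat.sub_zero, mul_one, Nat.add_one_sub_one] at h1
  have : T + 2 - 1 = T + 1 := by omega
  nlinarith

lemma ev_poly (A : ℕ) : ∀ᶠ p : ℕ in atTop, A * (p + 1) ^ 2 < 2 ^ p := by
  have h := (tendsto_pow_const_div_const_pow_of_one_lt 2 (r := 2) (by norm_num)).eventually
    (gt_mem_nhds (show (0 : ℝ) < 1 / (4 * A + 1) by positivity))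
  filter_upwards [h, eventually_ge_atTop 1] with p hp h1
  rw [div_lt_div_iff₀ (by positivity) (by positivity)] at hp
  have h2 : p ^ 2 * (4 * A + 1) < 1 * 2 ^ p := by exact_mod_cast hp
  have h3 : (p + 1) ^ 2 ≤ 4 * p ^ 2 := by nlinarith
  nlinarith [Nat.mul_le_mul_left A h3]

lemma count4' {ε : ℝ} (hε : 0 < ε) {lam p : ℕ} (hlam : 4 ≤ lam)
    (hp : 160 * (lam + 4) ^ 2 * (28 * lam + 84) * (p + 1) ^ 2 < 2 ^ p) (W : Finset ℕ)
    (k l r : ℕ → ℕ)
    (hW : ∀ i ∈ W, i ≤ 2 * 4 ^ p ∧ Data ε lam i (k i) (l i) (r i) ∧ 2 ≤ k i ∧ 4 ≤ l i) :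
    4 * W.card ≤ 4 ^ p := by
  have h4 : 4 ^ p = 2 ^ p * 2 ^ p := by rw [← mul_pow]; norm_num
  have hP : p + 1 ≤ 2 ^ p := Nat.lt_two_pow_self
  have hL : lam + 1 ≤ 2 ^ lam := Nat.lt_two_pow_self
  have := count4 hε (lam := lam) (Y := lam * (2 * 4 ^ p)) (z := 2 * p + lam + 2)
    (t := 4 * lam * 2 ^ p + 2) W k l r
    (fun i hi => ⟨Nat.mul_le_mul_left _ (hW i hi).1, (hW i hi).2⟩) (by
      rw [pow_add, pow_add, pow_mul]
      have : 0 < 4 ^ p := by positivity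
      norm_num
      nlinarith) (by omega) (by nlinarith) (choose_three_ge (by rw [h4]; nlinarith))
  set z := 2 * p + lam + 2 with hz
  have z1 : z ≤ (lam + 4) * (p + 1) := by rw [hz]; nlinarith
  have z2 : 8 * z + 12 ≤ 20 * ((lam + 4) * (p + 1)) := by nlinarith
  have z3 : 2 * (4 * lam * 2 ^ p + 2) + 8 * z + 12 ≤ (28 * lam + 84) * 2 ^ p := by
    have : (lam + 4) * (p + 1) ≤ (lam + 4) * 2 ^ p := Nat.mul_le_mul_left _ hP
    nlinarith
  calc 4 * W.card ≤ 4 * (2 * ((lam + 4) * (p + 1)) *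
        (20 * ((lam + 4) * (p + 1)) * ((28 * lam + 84) * 2 ^ p))) := by
        refine Nat.mul_le_mul_left _ (this.trans ?_)
        gcongr
    _ = (160 * (lam + 4) ^ 2 * (28 * lam + 84) * (p + 1) ^ 2) * 2 ^ p := by ring
    _ ≤ 4 ^ p := by rw [h4]; exact Nat.mul_le_mul_right _ hp.le

lemma colours_ge {ε : ℝ} (hε : 0 < ε) {lam i I : ℕ} (hlam : 4 ≤ lam) (hI : 0 < I) (h1 : I ≤ i)
    (h2 : i ≤ 2 * I) (n : ℕ) (hn : n = 2 ^ 2 ^ (lam * i)) :
    100 / ε * 2 ^ (lam * i) / I ≤ 200 * lam / ε * Real.log n / Real.log (Real.log n) := by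
  have hl2 : (0 : ℝ) < Real.log 2 := Real.log_pos (by norm_num)
  have hl2' : Real.log 2 < 1 := by have := Real.log_two_lt_d9; linarith
  have hl3 : (1 : ℝ) / 2 < Real.log 2 := by have := Real.log_two_gt_d9; linarith
  have hlog : Real.log n = 2 ^ (lam * i) * Real.log 2 := by
    rw [hn]; push_cast; rw [Real.log_pow]; push_cast; rfl
  have hx : (4 : ℝ) ≤ 2 ^ (lam * i) := by
    have : 2 ≤ lam * i := by nlinarith
    calc (4 : ℝ) = 2 ^ 2 := by norm_num
      _ ≤ _ := pow_le_pow_right₀ (by norm_num) this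
  have hpos : 0 < Real.log (Real.log n) := Real.log_pos (by rw [hlog]; nlinarith)
  have hup : Real.log (Real.log n) ≤ 2 * lam * I * Real.log 2 := by
    calc Real.log (Real.log n) ≤ Real.log (2 ^ (lam * i)) := by
          apply Real.log_le_log (by rw [hlog]; positivity)
          rw [hlog]; nlinarith
      _ = lam * i * Real.log 2 := by rw [Real.log_pow]; push_cast; ring
      _ ≤ _ := by
          have : (i : ℝ) ≤ 2 * I := by exact_mod_cast h2
          have : (lam : ℝ) * i ≤ 2 * lam * I := by nlinarith [Nat.cast_nonneg (α := ℝ) lam]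
          gcongr
  have hIR : (0 : ℝ) < I := by exact_mod_cast hI
  have hlR : (0 : ℝ) < lam := by exact_mod_cast (by omega : 0 < lam)
  calc 100 / ε * 2 ^ (lam * i) / I
      = 200 * lam / ε * Real.log n / (2 * lam * I * Real.log 2) := by
        rw [hlog]; field_simp; ring
    _ ≤ _ := by
        apply div_le_div_of_nonneg_left _ hpos hup
        rw [hlog]; positivity

theorem main (ε : ℝ) (hε : 0 < ε) (hε2 : ε < 1 / 2) : ∃ C c : ℝ, 0 < c ∧
    ∀ K : Set ℕ, (∀ F : Finset ℕ, (F : Set ℕ) ⊆ K → ∑ a ∈ F, 1 / (a : ℝ) ≤ c) →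
      ∀ k l : ℕ → ℕ, (∀ n, 2 ≤ k n) → (∀ n, 2 ≤ l n) →
        (∀ᶠ n : ℕ in atTop, (l n : ℝ) ≤ (n : ℝ) ^ ε) → Complete ε k l →
          ∃ᶠ n : ℕ in atTop,
            (l n = 2 ∧ (k n : ℝ) < C * Real.log n / Real.log (Real.log n)) ∨
              (l n = 3 ∧ k n ∉ K) := by
  classical
  obtain ⟨lam₀, hlam₀⟩ := pow_unbounded_of_one_lt (4 / ε) (y := (2 : ℝ)) (by norm_num)
  set lam := lam₀ + 4 with hlamdef
  have hlam4 : 4 ≤ lam := by omega
  have hlam : 4 / ε ≤ 2 ^ lam := hlam₀.le.trans (pow_le_pow_right₀ (by norm_num) (by omega))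
  have hlR : (4 : ℝ) ≤ lam := by exact_mod_cast hlam4
  refine ⟨200 * lam / ε, 1 / (300 * lam), by positivity, fun K hK k l hk hl2 hl hC => ?_⟩
  by_contra hfreq
  rw [not_frequently] at hfreq
  obtain ⟨n₀, hn₀⟩ := eventually_atTop.1 ((hC.eventually hk).and (hl.and hfreq))
  obtain ⟨p, hp, hp0, hp1⟩ := ((ev_poly (160 * (lam + 4) ^ 2 * (28 * lam + 84))).and
    ((eventually_ge_atTop n₀).and (eventually_ge_atTop 1))).exists
  set I := 4 ^ p with hI
  have hIp : p ≤ I := (Nat.lt_pow_self (by norm_num)).le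
  have hI4 : 4 ≤ I := by
    calc 4 = 4 ^ 1 := by norm_num
      _ ≤ _ := Nat.pow_le_pow_right (by norm_num) hp1
  let N : ℕ → ℕ := fun i => 2 ^ 2 ^ (lam * i)
  have hN : ∀ i, I ≤ i → n₀ ≤ N i := by
    intro i hi
    have a1 : i ≤ lam * i := Nat.le_mul_of_pos_left _ (by omega)
    have a2 : lam * i < 2 ^ (lam * i) := Nat.lt_two_pow_self
    have a3 : 2 ^ (lam * i) < 2 ^ 2 ^ (lam * i) := Nat.lt_two_pow_self
    simp only [N]; omega
  have hex : ∀ i, ∃ r, I ≤ i → Data ε lam i (k (N i)) (l (N i)) r := by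
    intro i
    by_cases hi : I ≤ i
    · obtain ⟨⟨r, h1, h2⟩, h3, -⟩ := hn₀ (N i) (hN i hi)
      exact ⟨r, fun _ => data_of hε hε2 hlam hlam4 (by omega) (N i) rfl h3 h1 h2⟩
    · exact ⟨0, fun h => absurd h hi⟩
  choose r hr using hex
  have c4 := count4' hε hlam4 hp ((Ico I (2 * I)).filter fun i => 4 ≤ l (N i))
    (fun i => k (N i)) (fun i => l (N i)) r (fun i hi => by
      simp only [mem_filter, mem_Ico] at hi
      exact ⟨by omega, hr i hi.1.1, hk _, hi.2⟩)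
  have c3 := count3 hε (c := 1 / (300 * lam)) (by
      rw [div_lt_div_iff₀ (by positivity) (by norm_num)]; linarith) (lam := lam)
    (Y := lam * (2 * I)) K hK ((Ico I (2 * I)).filter fun i => l (N i) = 3)
    (fun i => k (N i)) r (fun i hi => by
      simp only [mem_filter, mem_Ico] at hi
      refine ⟨Nat.mul_le_mul_left _ (by omega), hi.2 ▸ hr i hi.1.1, hk _, ?_⟩
      by_contra hn
      exact (hn₀ (N i) (hN i hi.1.1)).2.2 (Or.inr ⟨hi.2, hn⟩))
  have c2 := count2 hε hε2 hlam (I := I) (by omega)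
    ((Ico I (2 * I)).filter fun i => l (N i) = 2) (fun i => k (N i)) r (fun i hi => by
      simp only [mem_filter, mem_Ico] at hi
      refine ⟨hi.1.1, hi.2 ▸ hr i hi.1.1, hk _, ?_⟩
      refine (colours_ge hε hlam4 (by omega) hi.1.1 (by omega) (N i) rfl).trans ?_
      by_contra hn
      exact (hn₀ (N i) (hN i hi.1.1)).2.2 (Or.inl ⟨hi.2, not_le.1 hn⟩))
  have hsub : Ico I (2 * I) ⊆ ((Ico I (2 * I)).filter fun i => 4 ≤ l (N i)) ∪
      (((Ico I (2 * I)).filter fun i => l (N i) = 3) ∪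
        ((Ico I (2 * I)).filter fun i => l (N i) = 2)) := by
    intro i hi
    have := hl2 (N i)
    simp only [mem_union, mem_filter, hi, true_and]
    omega
  have h1 := (card_le_card hsub).trans ((card_union_le _ _).trans
    (Nat.add_le_add_left (card_union_le _ _) _))
  rw [Nat.card_Ico] at h1
  have h2 : 2 * I - I = I := by omega
  rw [h2] at h1
  have e3 : (35 : ℝ) * ((lam * (2 * I) : ℕ) : ℝ) * (1 / (300 * lam)) = 7 / 30 * I := by
    push_cast; field_simp; ring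
  rw [e3] at c3
  have c4R : (4 : ℝ) * ((Ico I (2 * I)).filter fun i => 4 ≤ l (N i)).card ≤ I := by
    exact_mod_cast c4
  have h1R : (I : ℝ) ≤ ((Ico I (2 * I)).filter fun i => 4 ≤ l (N i)).card +
      (((Ico I (2 * I)).filter fun i => l (N i) = 3).card +
        ((Ico I (2 * I)).filter fun i => l (N i) = 2).card) := by exact_mod_cast h1
  have hIR : (4 : ℝ) ≤ I := by exact_mod_cast hI4
  linarith

end Pool.Agent.MP_251804_lc
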