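import Mathlib

namespace Pool.Agent.MP_251804_lc
open Finset

section Infra
variable {α : Type} [DecidableEq α]

/-- The weight of a subset under independent sampling with probability `p`. -/
noncomputable def wgt (p : ℝ) (P E : Finset α) : ℝ := (∏ _e ∈ E, p) * ∏ _e ∈ P \ E, (1 - p)

lemma wgt_nonneg {p : ℝ} (h0 : 0 ≤ p) (h1 : p ≤ 1) (P E : Finset α) : 0 ≤ wgt p P E :=
  mul_nonneg (prod_nonneg fun _ _ => h0) (prod_nonneg fun _ _ => by linarith)

lemma exp_prod (p a b : ℝ) {P A : Finset α} (hA : A ⊆ P) :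
    ∑ E ∈ P.powerset, wgt p P E * ∏ e ∈ A, (if e ∈ E then a else b) =
      (p * a + (1 - p) * b) ^ A.card := by
  have h1 := prod_add (fun e => p * if e ∈ A then a else 1)
    (fun e => (1 - p) * if e ∈ A then b else 1) P
  have h2 : ∏ e ∈ P, ((p * if e ∈ A then a else 1) + (1 - p) * if e ∈ A then b else 1) =
      (p * a + (1 - p) * b) ^ A.card := by
    rw [← prod_const, ← prod_subset hA]
    · exact prod_congr rfl fun e he => by simp [he]
    · intro e _ he; simp [he]
  rw [← h2, h1]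
  refine sum_congr rfl fun E hE => ?_
  have hE' := mem_powerset.1 hE
  rw [prod_mul_distrib, prod_mul_distrib, wgt, prod_ite_mem, prod_ite_mem, prod_ite,
    filter_mem_eq_inter, inter_comm A E]
  have : (A.filter fun x => x ∉ E) = (P \ E) ∩ A := by
    ext x
    simp only [mem_filter, mem_inter, mem_sdiff]
    exact ⟨fun h => ⟨⟨hA h.1, h.2⟩, h.1⟩, fun h => ⟨h.2, h.1.2⟩⟩
  rw [this]
  ring

lemma exists_lt_one {p : ℝ} (h0 : 0 ≤ p) (h1 : p ≤ 1) (P : Finset α) (Z : Finset α → ℝ)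
    (h : ∑ E ∈ P.powerset, wgt p P E * Z E < 1) : ∃ E ⊆ P, Z E < 1 := by
  by_contra hc
  push Not at hc
  have h2 := exp_prod p 1 1 (empty_subset P)
  simp only [prod_empty, card_empty, pow_zero] at h2
  have := sum_le_sum fun E (hE : E ∈ P.powerset) =>
    mul_le_mul_of_nonneg_left (hc E (mem_powerset.1 hE)) (wgt_nonneg h0 h1 P E)
  linarith

lemma prod_ite_eq_pow (x : ℝ) (A E : Finset α) :
    ∏ e ∈ A, (if e ∈ E then x else 1) = x ^ (A ∩ E).card := by
  rw [prod_ite_mem, prod_const]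

end Infra

/-- The increasing pairs of a set. -/
def prs (S : Finset ℕ) : Finset (ℕ × ℕ) := (S ×ˢ S).filter fun e => e.1 < e.2

lemma card_prs (S : Finset ℕ) : (prs S).card = S.card.choose 2 := card_product_filter_lt

lemma prs_mono {S T : Finset ℕ} (h : S ⊆ T) : prs S ⊆ prs T :=
  filter_subset_filter _ (product_subset_product h h)

lemma mem_prs {S : Finset ℕ} {e : ℕ × ℕ} : e ∈ prs S ↔ e.1 ∈ S ∧ e.2 ∈ S ∧ e.1 < e.2 := by
  simp [prs, and_assoc]

lemma sum_card_le {n s : ℕ} {x : ℝ} (hx : 0 ≤ x) (F : Finset ℕ → ℝ)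
    (h : ∀ S ∈ powersetCard s (range n), F S ≤ x ^ s) :
    ∑ S ∈ powersetCard s (range n), F S ≤ (n * x) ^ s := by
  refine (sum_le_card_nsmul _ _ _ h).trans ?_
  rw [card_powersetCard, card_range, nsmul_eq_mul, mul_pow]
  have : ((n.choose s : ℕ) : ℝ) ≤ (n : ℝ) ^ s := by exact_mod_cast Nat.choose_le_pow n s
  gcongr

lemma cast_choose_two (x : ℕ) : ((x.choose 2 : ℕ) : ℝ) = x * (x - 1) / 2 := Nat.cast_choose_two ℝ x

theorem exists_rand {n w a : ℕ} {p : ℝ} (hn : 1 ≤ n) (h0 : 0 ≤ p) (h1 : p ≤ 1)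
    (hw : 2 * Real.log (3 * n) ≤ p * w) (ha : 3 * n * p ^ a ≤ 1) :
    ∃ H : ℕ → ℕ → Prop, (∀ x y, H x y → H y x) ∧
      (∀ S ⊆ range n, S.card = w + 1 → ∃ x ∈ S, ∃ y ∈ S, x ≠ y ∧ H x y) ∧
      (∀ S ⊆ range n, S.card = 2 * a + 1 → ∃ x ∈ S, ∃ y ∈ S, x ≠ y ∧ ¬ H x y) ∧
      ∀ X ⊆ range n, X.Nonempty → ∃ v ∈ X, ∀ Y ⊆ X, (∀ u ∈ Y, H v u) →
        (Y.card : ℝ) ≤ 2 * p * X.card + 2 * Real.log (4 * n) := by
  classical
  have hnR : (1 : ℝ) ≤ n := by exact_mod_cast hn
  set P := prs (range n) with hP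
  set L := Real.log (4 * n) with hL
  let Z₁ : Finset (ℕ × ℕ) → ℝ := fun E => ∑ S ∈ powersetCard (w + 1) (range n),
    ∏ e ∈ prs S, (if e ∈ E then (0 : ℝ) else 1)
  let Z₂ : Finset (ℕ × ℕ) → ℝ := fun E => ∑ S ∈ powersetCard (2 * a + 1) (range n),
    ∏ e ∈ prs S, (if e ∈ E then (1 : ℝ) else 0)
  let Z₃ : Finset (ℕ × ℕ) → ℝ := fun E => ∑ X ∈ (range n).powerset.erase ∅,
    Real.exp (-(p * X.card ^ 2 + L * X.card)) * ∏ e ∈ prs X, (if e ∈ E then Real.exp 1 else 1)
  have e1 : ∑ E ∈ P.powerset, wgt p P E * Z₁ E ≤ 1 / 3 := by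
    simp only [Z₁, mul_sum]
    rw [sum_comm]
    refine (sum_card_le (x := 1 / (3 * n)) (by positivity) _ fun S hS => ?_).trans ?_
    · obtain ⟨hS1, hS2⟩ := mem_powersetCard.1 hS
      rw [exp_prod p 0 1 (prs_mono hS1), card_prs, hS2, mul_zero, zero_add, mul_one]
      calc _ ≤ Real.exp (-p) ^ (w + 1).choose 2 :=
            pow_le_pow_left₀ (by linarith) (by linarith [Real.add_one_le_exp (-p)]) _
        _ = Real.exp (-(p * w / 2)) ^ (w + 1) := by
            rw [← Real.exp_nat_mul, ← Real.exp_nat_mul, cast_choose_two]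
            congr 1
            push_cast
            ring
        _ ≤ _ := by
            refine pow_le_pow_left₀ (by positivity) ?_ _
            rw [one_div, ← Real.exp_log (show (0 : ℝ) < 3 * n by positivity), ← Real.exp_neg]
            exact Real.exp_le_exp.2 (by linarith)
    · have : (n : ℝ) * (1 / (3 * n)) = 1 / 3 := by field_simp
      rw [this]
      exact pow_le_of_le_one (by norm_num) (by norm_num) (by omega)
  have e2 : ∑ E ∈ P.powerset, wgt p P E * Z₂ E ≤ 1 / 3 := by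
    simp only [Z₂, mul_sum]
    rw [sum_comm]
    refine (sum_card_le (x := p ^ a) (by positivity) _ fun S hS => ?_).trans ?_
    · obtain ⟨hS1, hS2⟩ := mem_powersetCard.1 hS
      rw [exp_prod p 1 0 (prs_mono hS1), card_prs, hS2, mul_zero, add_zero, mul_one, ← pow_mul,
        Nat.choose_two_right]
      refine le_of_eq (congrArg _ ?_)
      rw [Nat.add_sub_cancel, mul_comm 2 a, ← mul_assoc, Nat.mul_div_cancel _ (by norm_num),
        mul_comm]
    · exact (pow_le_of_le_one (by positivity) (by linarith) (by omega)).trans (by linarith)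
  have e3 : ∑ E ∈ P.powerset, wgt p P E * Z₃ E < 1 / 3 := by
    simp only [Z₃, mul_sum]
    rw [sum_comm]
    have hx : Real.exp (-L) = 1 / (4 * n) := by
      rw [Real.exp_neg, hL, Real.exp_log (by positivity), one_div]
    have h3 : ∀ X ∈ (range n).powerset.erase ∅, ∑ E ∈ P.powerset, wgt p P E *
        (Real.exp (-(p * X.card ^ 2 + L * X.card)) *
          ∏ e ∈ prs X, (if e ∈ E then Real.exp 1 else 1)) ≤ (1 / (4 * n)) ^ X.card := by
      intro X hX
      have hX1 := mem_powerset.1 (mem_erase.1 hX).2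
      simp only [mul_left_comm (wgt p P _)]
      rw [← mul_sum, exp_prod p _ 1 (prs_mono hX1), card_prs, ← hx]
      have h4 : p * Real.exp 1 + (1 - p) * 1 ≤ Real.exp (2 * p) := by
        have := Real.exp_one_lt_d9
        nlinarith [Real.add_one_le_exp (2 * p)]
      have h5 : 0 ≤ p * Real.exp 1 + (1 - p) * 1 := by
        have := Real.exp_pos 1
        nlinarith
      refine (mul_le_mul_of_nonneg_left (pow_le_pow_left₀ h5 h4 _) (by positivity)).trans ?_
      rw [← Real.exp_nat_mul, ← Real.exp_nat_mul, ← Real.exp_add, cast_choose_two]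
      refine Real.exp_le_exp.2 ?_
      have : (0 : ℝ) ≤ X.card := Nat.cast_nonneg _
      nlinarith [mul_nonneg h0 this]
    refine (sum_le_sum h3).trans_lt ?_
    have h4 := sum_pow_mul_eq_add_pow (1 / (4 * n) : ℝ) 1 (range n)
    simp only [one_pow, mul_one, card_range] at h4
    rw [sum_erase_eq_sub (empty_mem_powerset _), h4, card_empty, pow_zero]
    have h5 : (1 / (4 * n) + 1 : ℝ) ^ n ≤ Real.exp (1 / 4) := by
      refine (pow_le_pow_left₀ (by positivity) (Real.add_one_le_exp _) _).trans (le_of_eq ?_)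
      rw [← Real.exp_nat_mul]
      congr 1
      field_simp
    have h6 : Real.exp (1 / 4) < 4 / 3 := by
      have := Real.exp_bound_div_one_sub_of_interval' (x := 1 / 4) (by norm_num) (by norm_num)
      norm_num at this ⊢
      exact this
    linarith
  obtain ⟨E, hE, hZ⟩ := exists_lt_one h0 h1 P (fun E => Z₁ E + Z₂ E + Z₃ E) (by
    simp only [mul_add, sum_add_distrib]; linarith)
  have n1 : ∀ S ∈ powersetCard (w + 1) (range n),
      0 ≤ ∏ e ∈ prs S, (if e ∈ E then (0 : ℝ) else 1) :=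
    fun S _ => prod_nonneg fun e _ => by split_ifs <;> norm_num
  have n2 : ∀ S ∈ powersetCard (2 * a + 1) (range n),
      0 ≤ ∏ e ∈ prs S, (if e ∈ E then (1 : ℝ) else 0) :=
    fun S _ => prod_nonneg fun e _ => by split_ifs <;> norm_num
  have n3 : ∀ X ∈ (range n).powerset.erase ∅, 0 ≤ Real.exp (-(p * X.card ^ 2 + L * X.card)) *
      ∏ e ∈ prs X, (if e ∈ E then Real.exp 1 else 1) :=
    fun S _ => mul_nonneg (Real.exp_pos _).le
      (prod_nonneg fun e _ => by split_ifs <;> positivity)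
  have z1 : 0 ≤ Z₁ E := sum_nonneg n1
  have z2 : 0 ≤ Z₂ E := sum_nonneg n2
  have z3 : 0 ≤ Z₃ E := sum_nonneg n3
  refine ⟨fun x y => (x, y) ∈ E ∨ (y, x) ∈ E, fun x y h => h.symm, ?_, ?_, ?_⟩
  · intro S hS hc
    by_contra hno
    push Not at hno
    have h2 := single_le_sum n1 (mem_powersetCard.2 ⟨hS, hc⟩)
    rw [prod_eq_one fun e he => by
      obtain ⟨a1, a2, a3⟩ := mem_prs.1 he
      exact if_neg (hno _ a1 _ a2 a3.ne).1] at h2
    have : 1 ≤ Z₁ E := h2
    linarith
  · intro S hS hc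
    by_contra hno
    push Not at hno
    have h2 := single_le_sum n2 (mem_powersetCard.2 ⟨hS, hc⟩)
    rw [prod_eq_one fun e he => by
      obtain ⟨a1, a2, a3⟩ := mem_prs.1 he
      by_contra hc
      have h3 : e ∉ E := fun h => hc (if_pos h)
      have := (mem_prs.1 (hE ((hno _ a1 _ a2 a3.ne).resolve_left h3))).2.2
      simp only at this
      omega] at h2
    have : 1 ≤ Z₂ E := h2
    linarith
  · intro X hX hne
    have h2 := single_le_sum n3 (mem_erase.2 ⟨hne.ne_empty, mem_powerset.2 hX⟩)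
    have h3 : Real.exp (-(p * X.card ^ 2 + L * X.card)) *
      ∏ e ∈ prs X, (if e ∈ E then Real.exp 1 else 1) < 1 := by
      have : _ ≤ Z₃ E := h2
      linarith
    rw [prod_ite_eq_pow, ← Real.exp_nat_mul, ← Real.exp_add, Real.exp_lt_one_iff] at h3
    have h4 : ∑ v ∈ X, (X.filter fun u => (v, u) ∈ E ∨ (u, v) ∈ E).card ≤
        2 * (prs X ∩ E).card := by
      rw [← card_sigma, two_mul]
      refine le_trans (card_le_card_of_injOn (t := (prs X ∩ E) ∪ (prs X ∩ E).image Prod.swap)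
        (fun q => (q.1, q.2)) ?_ ?_) ((card_union_le _ _).trans (Nat.add_le_add_left card_image_le _))
      · rintro ⟨v, u⟩ hq
        simp only [coe_sigma, Set.mem_sigma_iff, mem_coe, mem_filter] at hq
        obtain ⟨hv, hu, h | h⟩ := hq
        · exact mem_coe.2 (mem_union_left _ (mem_inter.2
            ⟨mem_prs.2 ⟨hv, hu, (mem_prs.1 (hE h)).2.2⟩, h⟩))
        · exact mem_coe.2 (mem_union_right _ (mem_image.2 ⟨(u, v), mem_inter.2
            ⟨mem_prs.2 ⟨hu, hv, (mem_prs.1 (hE h)).2.2⟩, h⟩, rfl⟩))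
      · rintro ⟨v, u⟩ _ ⟨v', u'⟩ _ h
        obtain ⟨rfl, rfl⟩ := Prod.mk.inj h
        rfl
    obtain ⟨v, hv, h5⟩ := exists_le_of_sum_le (s := X) hne
      (f := fun v => ((X.filter fun u => (v, u) ∈ E ∨ (u, v) ∈ E).card : ℝ))
      (g := fun _ => 2 * p * X.card + 2 * L) (by
        rw [sum_const, nsmul_eq_mul]
        have : ((∑ v ∈ X, (X.filter fun u => (v, u) ∈ E ∨ (u, v) ∈ E).card : ℕ) : ℝ) ≤
          ((2 * (prs X ∩ E).card : ℕ) : ℝ) := by exact_mod_cast h4
        push_cast at this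
        nlinarith)
    refine ⟨v, hv, fun Y hY hYH => le_trans ?_ h5⟩
    exact_mod_cast card_le_card fun u hu => mem_filter.2 ⟨hY hu, hYH u hu⟩

end Pool.Agent.MP_251804_lc
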