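import Pool.Agent.MP_251804_lc.Walk
import Pool.Agent.MP_251804_lc.Rand
import Pool.Agent.MP_251804_lc.Constr

namespace Pool.Agent.MP_251804_lc
open Finset Filter

lemma cost_le {m r : ℕ} (hm : ¬ Good m 2 2 r) (hr : 4000 ≤ r) :
    2 * ((11 / 10 : ℝ) ^ r * 12 ^ (r / 10)) ≤ m := by
  set j := r / 10 with hj
  have h1 : 2 ^ ((r - 1) / 2) < m := by
    by_contra h
    exact hm ((good_erdos (by omega)).mono (by omega) le_rfl le_rfl)
  have h2 : 2 ^ (5 * j) ≤ 2 * m := by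
    calc 2 ^ (5 * j) ≤ 2 ^ ((r - 1) / 2 + 1) := Nat.pow_le_pow_right (by norm_num) (by omega)
      _ ≤ 2 * m := by rw [pow_succ]; omega
  have h3 : (32 : ℝ) ^ j ≤ 2 * m := by
    have : ((2 ^ (5 * j) : ℕ) : ℝ) ≤ (2 * m : ℕ) := by exact_mod_cast h2
    push_cast at this
    rwa [pow_mul, show (2 : ℝ) ^ 5 = 32 by norm_num] at this
  have h4 : (11 / 10 : ℝ) ^ r ≤ ((11 / 10) ^ 10) ^ j * (11 / 10) ^ 9 := by
    rw [← pow_mul, ← pow_add]
    exact pow_le_pow_right₀ (by norm_num) (by omega)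
  have h5 : (1 : ℝ) + j * (1 / 36) ≤ (1 + 1 / 36) ^ j := one_add_mul_le_pow (by norm_num) j
  have h6 : (400 : ℝ) ≤ j := by exact_mod_cast (by omega : 400 ≤ j)
  have h7 : ((11 / 10 : ℝ) ^ 10) ^ j * 12 ^ j * (1 + 1 / 36) ^ j ≤ 32 ^ j := by
    rw [← mul_pow, ← mul_pow]
    exact pow_le_pow_left₀ (by norm_num) (by norm_num) j
  have h8 : (0 : ℝ) < ((11 / 10 : ℝ) ^ 10) ^ j * 12 ^ j := by positivity
  have h9 : ((11 / 10 : ℝ) ^ 10) ^ j * 12 ^ j * 12 ≤ 32 ^ j :=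
    le_trans (mul_le_mul_of_nonneg_left (by linarith) h8.le) h7
  have h10 : (11 / 10 : ℝ) ^ r * 12 ^ j ≤ ((11 / 10) ^ 10) ^ j * (11 / 10) ^ 9 * 12 ^ j :=
    mul_le_mul_of_nonneg_right h4 (by positivity)
  have h11 : ((11 / 10 : ℝ)) ^ 9 ≤ 3 := by norm_num
  nlinarith

lemma stepA {n w m s ρ r : ℕ} (hn : 1 ≤ n) (hmw : m * w ≤ n)
    (hs : s * (4 * Real.log (3 * n) + 2 * Real.log (4 * n) + 1) ≤ w)
    (h264 : 264 * (4 * Real.log (3 * n) + 2 * Real.log (4 * n) + 1) ≤ w)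
    (hρ : ¬ Good s 2 2 ρ) (hm : ¬ Good m 2 2 r) (hr : 4000 ≤ r) (hc : CertAt n w 2 2 r) :
    10 * ρ < 9 * r := by
  by_contra hlt
  have hnR : (1 : ℝ) ≤ n := by exact_mod_cast hn
  have l3 : 0 ≤ Real.log (3 * n) := Real.log_nonneg (by linarith)
  have l4 : 0 ≤ Real.log (4 * n) := Real.log_nonneg (by linarith)
  have hw : (0 : ℝ) < w := by linarith
  set p : ℝ := 2 * Real.log (3 * n) / w with hp
  have hpw : p * w = 2 * Real.log (3 * n) := by rw [hp]; field_simp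
  have hp0 : 0 ≤ p := by positivity
  have hp1 : p ≤ 1 / 528 := by rw [hp, div_le_iff₀ hw]; linarith
  obtain ⟨a, ha⟩ := exists_pow_lt_of_lt_one (show (0 : ℝ) < 1 / (3 * n) by positivity)
    (show p < 1 by linarith)
  obtain ⟨H, hH, h1, -, h3⟩ := exists_rand (w := w) (a := a) hn hp0 (by linarith) hpw.ge (by
    rw [lt_div_iff₀ (by positivity)] at ha
    linarith)
  obtain ⟨c, hc2, hg⟩ := hc (fun x y => ¬ H x y) (fun x y h h' => h (hH _ _ h')) (by
    intro S hS hcard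
    obtain ⟨x, hx, y, hy, hxy, h⟩ := h1 S hS hcard
    exact ⟨x, hx, y, hy, hxy, fun h' => h' h⟩)
  have hρ' : ¬ Good s 2 2 (r - r / 10) := fun h => hρ (h.mono le_rfl le_rfl (by omega))
  have e : r - r / 10 + r / 10 = r := by omega
  obtain ⟨S, q1, q2, q3, q4⟩ := walk_main hH (V := range n) (B := w) (ρ := r - r / 10)
    (j := r / 10) (by
      intro X hX hB
      have hB' : (w : ℝ) ≤ X.card := by exact_mod_cast hB
      obtain ⟨v, hv, hd⟩ := h3 X hX (card_pos.1 (by exact_mod_cast hw.trans_le hB'))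
      refine ⟨v, hv, fun Y hY hY' => ?_⟩
      have h4 := hd Y hY hY'
      have h5 : p * X.card ≤ 1 / 528 * X.card := mul_le_mul_of_nonneg_right hp1 (by positivity)
      have : (132 : ℝ) * (Y.card + 1) ≤ X.card := by linarith
      exact_mod_cast this) c hc2 (by
      intro X hX hB
      obtain ⟨X₀, hX₀, hc₀⟩ := exists_subset_card_eq hB
      obtain ⟨I, hI, hIc, hind⟩ := greedy hH (V := X₀)
        (D := 4 * Real.log (3 * n) + 2 * Real.log (4 * n) + 1) (by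
          intro Z hZ hne
          obtain ⟨v, hv, hd⟩ := h3 Z (hZ.trans (hX₀.trans hX)) hne
          refine ⟨v, hv, fun Y hY hY' => ?_⟩
          have h4 := hd Y hY hY'
          have h5 : (Z.card : ℝ) ≤ w := by exact_mod_cast hc₀ ▸ card_le_card hZ
          have h6 : p * Z.card ≤ p * w := mul_le_mul_of_nonneg_left h5 hp0
          linarith) s X₀ Subset.rfl (by rw [hc₀]; exact hs) (by linarith)
      refine (has_of_not_good hρ' c hc2 I hIc).imp ?_ ?_ <;>
      · rintro ⟨S, h4, h5, h6⟩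
        exact ⟨S, h4.trans (hI.trans hX₀), h5, fun x hx y hy hxy =>
          ⟨hind x (h4 hx) y (h4 hy) hxy, h6 x hx y hy hxy⟩⟩) (by
      rw [e, card_range]
      have h4 := cost_le hm hr
      have h5 : (m : ℝ) * w ≤ n := by exact_mod_cast hmw
      nlinarith)
  exact hg S q1 (by omega) q3 q4

lemma ev_rpow {η : ℝ} (hη : 0 < η) (K : ℝ) : ∀ᶠ n : ℕ in atTop, K ≤ (n : ℝ) ^ η :=
  ((tendsto_rpow_atTop hη).comp tendsto_natCast_atTop_atTop).eventually_ge_atTop K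

lemma ev_logge (K : ℝ) : ∀ᶠ n : ℕ in atTop, K ≤ Real.log n :=
  (Real.tendsto_log_atTop.comp tendsto_natCast_atTop_atTop).eventually_ge_atTop K

lemma ev_log {η : ℝ} (hη : 0 < η) {C : ℝ} (hC : 0 ≤ C) : ∀ᶠ n : ℕ in atTop,
    C * (4 * Real.log (3 * n) + 2 * Real.log (4 * n) + 1) ≤ (n : ℝ) ^ η := by
  filter_upwards [ev_rpow (half_pos hη) (C * (12 / η + 19)), eventually_ge_atTop 1] with n h1 hn
  have hnR : (1 : ℝ) ≤ n := by exact_mod_cast hn
  have h2 : Real.log n ≤ (n : ℝ) ^ (η / 2) / (η / 2) :=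
    Real.log_le_rpow_div (by positivity) (half_pos hη)
  have h3 : (1 : ℝ) ≤ (n : ℝ) ^ (η / 2) := Real.one_le_rpow hnR (half_pos hη).le
  have h4 : Real.log 3 ≤ 3 := (Real.log_le_sub_one_of_pos (by norm_num)).trans (by norm_num)
  have h5 : Real.log 4 ≤ 3 := (Real.log_le_sub_one_of_pos (by norm_num)).trans (by norm_num)
  rw [Real.log_mul (by norm_num) (by positivity), Real.log_mul (by norm_num) (by positivity)]
  have h6 : 4 * (Real.log 3 + Real.log n) + 2 * (Real.log 4 + Real.log n) + 1 ≤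
      (12 / η + 19) * (n : ℝ) ^ (η / 2) := by
    have : (n : ℝ) ^ (η / 2) / (η / 2) * 6 = 12 / η * (n : ℝ) ^ (η / 2) := by field_simp; ring
    nlinarith
  have h7 : (n : ℝ) ^ η = (n : ℝ) ^ (η / 2) * (n : ℝ) ^ (η / 2) := by
    rw [← Real.rpow_add (by positivity), add_halves]
  calc _ ≤ C * ((12 / η + 19) * (n : ℝ) ^ (η / 2)) := mul_le_mul_of_nonneg_left h6 hC
    _ = C * (12 / η + 19) * (n : ℝ) ^ (η / 2) := by ring
    _ ≤ _ := by rw [h7]; exact mul_le_mul_of_nonneg_right h1 (by positivity)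

lemma half_le_floor {x : ℝ} (hx : 1 ≤ x) : x / 2 ≤ ⌊x⌋₊ := by
  have h1 := Nat.lt_floor_add_one x
  have h2 : (1 : ℝ) ≤ ⌊x⌋₊ := by exact_mod_cast (Nat.one_le_floor_iff x).2 hx
  linarith

lemma floor_rpow_le {n : ℕ} (hn : 1 ≤ n) {a : ℝ} (ha : a ≤ 1) : ⌊(n : ℝ) ^ a⌋₊ ≤ n := by
  have hnR : (1 : ℝ) ≤ n := by exact_mod_cast hn
  refine Nat.floor_le_of_le ?_
  simpa using Real.rpow_le_rpow_of_exponent_le hnR ha

lemma r_lower {n r : ℕ} {ε : ℝ} (hn : 1 ≤ n) (h : Good ⌊(n : ℝ) ^ ε⌋₊ 2 2 r) :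
    ε * Real.log n ≤ 9 + 3 * r := by
  have hnR : (1 : ℝ) ≤ n := by exact_mod_cast hn
  have h1 : ⌊(n : ℝ) ^ ε⌋₊ < 264 * 14 ^ r := by
    by_contra hc
    exact not_good_pow r (h.mono (by omega) le_rfl le_rfl)
  have h2 : (n : ℝ) ^ ε ≤ 264 * 14 ^ r := by
    have h3 := Nat.lt_floor_add_one ((n : ℝ) ^ ε)
    have h4 : ((⌊(n : ℝ) ^ ε⌋₊ + 1 : ℕ) : ℝ) ≤ (264 * 14 ^ r : ℕ) := by exact_mod_cast h1
    push_cast at h4
    linarith
  have h3 := Real.log_le_log (by positivity) h2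
  rw [Real.log_rpow (by positivity), Real.log_mul (by norm_num) (by positivity),
    Real.log_pow] at h3
  have h4 := Real.log_two_lt_d9
  have h5 : Real.log 264 ≤ 9 * Real.log 2 := by
    have := Real.log_le_log (x := 264) (y := 2 ^ 9) (by norm_num) (by norm_num)
    rwa [Real.log_pow] at this
  have h6 : Real.log 14 ≤ 4 * Real.log 2 := by
    have := Real.log_le_log (x := 14) (y := 2 ^ 4) (by norm_num) (by norm_num)
    rwa [Real.log_pow] at this
  have h7 : (r : ℝ) * Real.log 14 ≤ r * 3 :=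
    mul_le_mul_of_nonneg_left (by linarith) (by positivity)
  linarith

lemma r_upper {m n r : ℕ} (hmn : m ≤ n) (hr : 3 ≤ r) (h : ¬ Good m 2 2 r) :
    (r : ℝ) ≤ 3 * Real.log n + 2 := by
  have h1 : 2 ^ ((r - 1) / 2) < m := by
    by_contra hc
    exact h ((good_erdos hr).mono (by omega) le_rfl le_rfl)
  have h2 : (2 : ℝ) ^ ((r - 1) / 2) ≤ n := by exact_mod_cast (by omega : 2 ^ ((r - 1) / 2) ≤ n)
  have h3 := Real.log_le_log (by positivity) h2
  rw [Real.log_pow] at h3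
  have h4 := Real.log_two_gt_d9
  have h5 : (r : ℝ) ≤ 2 * ((r - 1) / 2 : ℕ) + 2 := by exact_mod_cast (by omega)
  have h6 : (0 : ℝ) ≤ ((r - 1) / 2 : ℕ) := by positivity
  nlinarith

theorem mainA {ε : ℝ} (h1 : 9 / 19 < ε) (h2 : ε < 1 / 2) : ∃ Λ : ℕ, ∀ k l : ℕ → ℕ,
    (∀ n, 2 ≤ k n) → (∃ᶠ n : ℕ in atTop, ∀ n' ∈ Set.Icc n (n ^ Λ), k n' = 2 ∧ l n' = 2) →
      ¬ Complete ε k l := by
  have hε : 0 < ε := by linarith
  have h3 : (1 - ε) / ε < 10 / 9 := by rw [div_lt_iff₀ hε]; linarith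
  have h4 : 1 < (1 - ε) / ε := by rw [lt_div_iff₀ hε]; linarith
  obtain ⟨γ, g1, g2⟩ := exists_between h3
  obtain ⟨γ', g3, g4⟩ := exists_between g2
  have γ1 : 1 < γ := by linarith
  have γ0 : 0 < γ := by linarith
  have γ'0 : 0 < γ' := by linarith
  set η := ε - (1 - ε) / γ with hη
  have η0 : 0 < η := by
    rw [hη, sub_pos, div_lt_iff₀ γ0]
    rw [div_lt_iff₀ hε] at g1
    linarith
  have η1 : η ≤ ε := by
    have : 0 ≤ (1 - ε) / γ := div_nonneg (by linarith) γ0.le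
    linarith
  obtain ⟨J, hJ⟩ := pow_unbounded_of_one_lt (20 / ε) (show 1 < 10 / 9 / γ' by
    rw [lt_div_iff₀ γ'0]; linarith)
  refine ⟨⌈γ' ^ J⌉₊, fun k l hk hfreq hcomp => ?_⟩
  have hev := (hcomp.eventually hk).and ((ev_log η0 (C := 528) (by norm_num)).and
    ((ev_logge (20000 / ε)).and ((ev_rpow (sub_pos.2 g3) 2).and (eventually_ge_atTop 1))))
  obtain ⟨N, hN⟩ := eventually_atTop.1 hev
  choose! r hr using fun n hn => (hN n hn).1
  obtain ⟨n, hwin, hn⟩ := (hfreq.and_eventually (eventually_ge_atTop N)).exists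
  have hlog : ∀ x, N ≤ x → 20000 ≤ ε * Real.log x := fun x hx => by
    have := (hN x hx).2.2.1
    rwa [div_le_iff₀' hε] at this
  have hone : ∀ x, N ≤ x → (1 : ℝ) ≤ x := fun x hx => by exact_mod_cast (hN x hx).2.2.2.2
  have hlow : ∀ x, N ≤ x → k x = 2 ∧ l x = 2 → ε * Real.log x ≤ 9 + 3 * r x := by
    intro x hx hkl
    have q := (hr x hx).2
    rw [hkl.1, hkl.2] at q
    have q1 := (hN x hx).2.2.2.2
    refine r_lower q1 (q.good (floor_rpow_le q1 (by linarith)) ?_)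
    exact (Nat.one_le_floor_iff _).2 (Real.one_le_rpow (hone x hx) hε.le)
  have hbig : ∀ x, N ≤ x → k x = 2 ∧ l x = 2 → 4000 ≤ r x := by
    intro x hx hkl
    have := hlow x hx hkl
    have := hlog x hx
    exact_mod_cast (by linarith : (4000 : ℝ) ≤ r x)
  have hstep : ∀ x y, N ≤ x → N ≤ y → (x : ℝ) ^ γ ≤ y → k x = 2 ∧ l x = 2 → k y = 2 ∧ l y = 2 →
      10 * r x < 9 * r y := by
    intro x y hx hy hxy kx ky
    have qx := (hr x hx).1
    have qy := hr y hy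
    rw [kx.1, kx.2] at qx
    rw [ky.1, ky.2] at qy
    have y1 := hone y hy
    have y0 : (0 : ℝ) < y := by linarith
    have hD := (hN y hy).2.1
    have hw := half_le_floor (Real.one_le_rpow y1 hε.le)
    have l3 : 0 ≤ Real.log (3 * y) := Real.log_nonneg (by linarith)
    have l4 : 0 ≤ Real.log (4 * y) := Real.log_nonneg (by linarith)
    have e1 : (y : ℝ) ^ ε = (y : ℝ) ^ ((1 - ε) / γ) * (y : ℝ) ^ η := by
      rw [← Real.rpow_add y0, hη]; congr 1; ring
    have e2 : (⌊(x : ℝ) ^ (1 - ε)⌋₊ : ℝ) ≤ (y : ℝ) ^ ((1 - ε) / γ) := by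
      refine (Nat.floor_le (by positivity)).trans ?_
      have := Real.rpow_le_rpow (by positivity) hxy (div_nonneg (by linarith : 0 ≤ 1 - ε) γ0.le)
      rwa [← Real.rpow_mul (by positivity), mul_div_cancel₀ _ γ0.ne'] at this
    have e3 : (y : ℝ) ^ η ≤ (y : ℝ) ^ ε := Real.rpow_le_rpow_of_exponent_le y1 η1
    refine stepA (hN y hy).2.2.2.2 ?_ ?_ (by linarith) qx qy.1 (hbig y hy ky) qy.2
    · have : (⌊(y : ℝ) ^ (1 - ε)⌋₊ : ℝ) * ⌊(y : ℝ) ^ ε⌋₊ ≤ y := by
        calc _ ≤ (y : ℝ) ^ (1 - ε) * (y : ℝ) ^ ε :=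
              mul_le_mul (Nat.floor_le (by positivity)) (Nat.floor_le (by positivity))
                (by positivity) (by positivity)
          _ = y := by rw [← Real.rpow_add y0]; simp
      exact_mod_cast this
    · calc _ ≤ (y : ℝ) ^ ((1 - ε) / γ) * ((y : ℝ) ^ η / 2) :=
            mul_le_mul e2 (by linarith) (by positivity) (by positivity)
        _ ≤ _ := by linarith
  let f : ℕ → ℕ := fun x => ⌈(x : ℝ) ^ γ⌉₊
  have n1 := hone n hn
  have ln0 : 1 ≤ Real.log n := by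
    have := hlog n hn
    by_contra hc
    nlinarith
  have hchain : ∀ j, n ≤ f^[j] n ∧ Real.log (f^[j] n : ℕ) ≤ γ' ^ j * Real.log n := by
    intro j
    induction j with
    | zero => simp
    | succ j ih =>
      rw [Function.iterate_succ_apply']
      set x := f^[j] n
      have hx : N ≤ x := hn.trans ih.1
      have x1 := hone x hx
      have x0 : (0 : ℝ) < x := by linarith
      have q1 : (x : ℝ) ≤ (x : ℝ) ^ γ := by
        simpa using Real.rpow_le_rpow_of_exponent_le x1 γ1.le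
      have q2 : (x : ℝ) ^ γ ≤ f x := Nat.le_ceil _
      have q3 : (f x : ℝ) < (x : ℝ) ^ γ + 1 := Nat.ceil_lt_add_one (by positivity)
      have q4 : (x : ℝ) ^ γ' = (x : ℝ) ^ (γ' - γ) * (x : ℝ) ^ γ := by
        rw [← Real.rpow_add x0]; congr 1; ring
      have q5 := (hN x hx).2.2.2.1
      have q6 : (f x : ℝ) ≤ (x : ℝ) ^ γ' := by nlinarith
      refine ⟨ih.1.trans (by exact_mod_cast q1.trans q2), ?_⟩
      have q7 := Real.log_le_log (by linarith) q6
      rw [Real.log_rpow x0] at q7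
      rw [pow_succ']
      nlinarith [ih.2]
  have hkl : ∀ j ≤ J, k (f^[j] n) = 2 ∧ l (f^[j] n) = 2 := by
    intro j hj
    refine hwin _ ⟨(hchain j).1, ?_⟩
    have q1 : γ' ^ j ≤ (⌈γ' ^ J⌉₊ : ℝ) :=
      (pow_le_pow_right₀ (by linarith) hj).trans (Nat.le_ceil _)
    have q2 : Real.log (f^[j] n : ℕ) ≤ Real.log ((n : ℝ) ^ ⌈γ' ^ J⌉₊) := by
      rw [Real.log_pow]
      exact (hchain j).2.trans (mul_le_mul_of_nonneg_right q1 (by linarith))
    have q3 := hone _ (hn.trans (hchain j).1)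
    rw [Real.log_le_log_iff (by linarith) (by positivity)] at q2
    exact_mod_cast q2
  have hgrow : ∀ j ≤ J, (10 / 9 : ℝ) ^ j * r n ≤ r (f^[j] n) := by
    intro j
    induction j with
    | zero => simp
    | succ j ih =>
      intro hj
      have q1 := hstep (f^[j] n) (f^[j + 1] n) (hn.trans (hchain j).1) (hn.trans (hchain _).1)
        (by rw [Function.iterate_succ_apply']; exact Nat.le_ceil _) (hkl j (by omega)) (hkl _ hj)
      have q2 : (10 : ℝ) * r (f^[j] n) ≤ 9 * r (f^[j + 1] n) := by exact_mod_cast q1.le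
      have q3 := ih (by omega)
      rw [pow_succ]
      linarith
  have hJN := hn.trans (hchain J).1
  have q1 := (hr _ hJN).1
  rw [(hkl J le_rfl).1, (hkl J le_rfl).2] at q1
  have q2 := r_upper (floor_rpow_le (hN _ hJN).2.2.2.2 (by linarith))
    (by have := hbig _ hJN (hkl J le_rfl); omega) q1
  have q3 := hlow n hn (hkl 0 (by omega))
  have q4 := hlog n hn
  have q5 := hgrow J le_rfl
  have q6 := (hchain J).2
  have q7 : (1 : ℝ) ≤ γ' ^ J := one_le_pow₀ (by linarith)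
  rw [div_pow, div_lt_div_iff₀ hε (by positivity)] at hJ
  have q8 : ε * Real.log n / 4 ≤ r n := by linarith
  have q9 : (10 / 9 : ℝ) ^ J * (ε * Real.log n / 4) ≤ (10 / 9) ^ J * r n :=
    mul_le_mul_of_nonneg_left q8 (by positivity)
  have q10 : 20 * γ' ^ J * Real.log n < (10 / 9) ^ J * ε * Real.log n :=
    mul_lt_mul_of_pos_right hJ (by linarith)
  nlinarith

end Pool.Agent.MP_251804_lc
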