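import Pool.Agent.MP_251804_lc.Bridge

namespace Pool.Agent.MP_251804_lc
open Finset

/-- `X` contains an `a`-set all of whose pairs are related by `E`. -/
def Has (E : ℕ → ℕ → Prop) (a : ℕ) (X : Finset ℕ) : Prop :=
  ∃ S ⊆ X, S.card = a ∧ ∀ x ∈ S, ∀ y ∈ S, x ≠ y → E x y

lemma Has.zero (E : ℕ → ℕ → Prop) (X : Finset ℕ) : Has E 0 X := ⟨∅, by simp, rfl, by simp⟩

lemma Has.sub {E : ℕ → ℕ → Prop} {a : ℕ} {X Y : Finset ℕ} (h : Has E a X) (hXY : X ⊆ Y) :
    Has E a Y := by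
  obtain ⟨S, h1, h2, h3⟩ := h
  exact ⟨S, h1.trans hXY, h2, h3⟩

lemma Has.le {E : ℕ → ℕ → Prop} {a b : ℕ} {X : Finset ℕ} (h : Has E a X) (hb : b ≤ a) :
    Has E b X := by
  obtain ⟨S, h1, h2, h3⟩ := h
  obtain ⟨S', h4, h5⟩ := exists_subset_card_eq (s := S) (n := b) (by omega)
  exact ⟨S', h4.trans h1, h5, fun x hx y hy => h3 x (h4 hx) y (h4 hy)⟩

lemma Has.ins {E : ℕ → ℕ → Prop} (hE : ∀ x y, E x y → E y x) {a v : ℕ} {X Y : Finset ℕ}
    (h : Has E a Y) (hv : v ∈ X) (hY : Y ⊆ X) (hvY : v ∉ Y) (hadj : ∀ u ∈ Y, E v u) :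
    Has E (a + 1) X := by
  obtain ⟨S, h1, h2, h3⟩ := h
  have hvS : v ∉ S := fun h => hvY (h1 h)
  refine ⟨insert v S, insert_subset hv (h1.trans hY), by rw [card_insert_of_notMem hvS, h2], ?_⟩
  intro x hx y hy hxy
  rcases mem_insert.1 hx with rfl | hx' <;> rcases mem_insert.1 hy with rfl | hy'
  · exact absurd rfl hxy
  · exact hadj y (h1 hy')
  · exact hE _ _ (hadj x (h1 hx'))
  · exact h3 x hx' y hy' hxy

/-- Every large subset has a vertex joined in one of the two colours to almost all others. -/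
def Step (E F : ℕ → ℕ → Prop) (V : Finset ℕ) (B : ℕ) : Prop :=
  ∀ X ⊆ V, B ≤ X.card → ∃ v ∈ X, ∃ Y ⊆ X, ∃ Z ⊆ X, v ∉ Y ∧ v ∉ Z ∧ (∀ u ∈ Y, E v u) ∧
    (∀ u ∈ Z, F v u) ∧ 131 * X.card ≤ 132 * (Y.card + Z.card)

lemma Step.symm {E F : ℕ → ℕ → Prop} {V : Finset ℕ} {B : ℕ} (h : Step E F V B) : Step F E V B := by
  intro X hX hB
  obtain ⟨v, hv, Y, hY, Z, hZ, h1, h2, h3, h4, h5⟩ := h X hX hB
  exact ⟨v, hv, Z, hZ, Y, hY, h2, h1, h4, h3, by omega⟩

lemma walk1 {E F : ℕ → ℕ → Prop} (hE : ∀ x y, E x y → E y x) (hF : ∀ x y, F x y → F y x)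
    {V : Finset ℕ} {B ρ : ℕ} (hs : Step E F V B)
    (hb : ∀ X ⊆ V, B ≤ X.card → Has E ρ X ∨ Has F ρ X) :
    ∀ t a b, a + b = t → a ≤ ρ → ∀ X ⊆ V, (B : ℝ) * ((11 / 10) ^ a * 12 ^ b) ≤ X.card →
      Has E a X ∨ Has F (ρ + b) X := by
  intro t
  induction t with
  | zero =>
    intro a b hab _ X _ _
    obtain rfl : a = 0 := by omega
    exact Or.inl (Has.zero _ _)
  | succ t ih =>
    intro a b hab ha X hX hc
    have hB : B ≤ X.card := by
      have h1 : (1 : ℝ) ≤ (11 / 10) ^ a * 12 ^ b :=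
        one_le_mul_of_one_le_of_one_le (one_le_pow₀ (by norm_num)) (one_le_pow₀ (by norm_num))
      have h2 : (B : ℝ) ≤ X.card := le_trans (le_mul_of_one_le_right (by positivity) h1) hc
      exact_mod_cast h2
    rcases a with _ | a
    · exact Or.inl (Has.zero _ _)
    rcases b with _ | b
    · exact (hb X hX hB).imp (fun h => h.le ha) id
    obtain ⟨v, hv, Y, hY, Z, hZ, h1, h2, h3, h4, h5⟩ := hs X hX hB
    have h6 : (131 : ℝ) * X.card ≤ 132 * (Y.card + Z.card) := by exact_mod_cast h5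
    have h7 : (B : ℝ) * ((11 / 10) ^ a * 12 ^ (b + 1)) ≤ Y.card ∨
        (B : ℝ) * ((11 / 10) ^ (a + 1) * 12 ^ b) ≤ Z.card := by
      by_contra hn
      push Not at hn
      obtain ⟨q1, q2⟩ := hn
      simp only [pow_succ] at q1 q2 hc
      nlinarith
    rcases h7 with h7 | h7
    · rcases ih a (b + 1) (by omega) (by omega) Y (hY.trans hX) h7 with h | h
      · exact Or.inl (h.ins hE hv hY h1 h3)
      · exact Or.inr (h.sub hY)
    · rcases ih (a + 1) b (by omega) ha Z (hZ.trans hX) h7 with h | h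
      · exact Or.inl (h.sub hZ)
      · exact Or.inr (h.ins hF hv hZ h2 h4)

lemma walk2 {E F : ℕ → ℕ → Prop} (hE : ∀ x y, E x y → E y x) (hF : ∀ x y, F x y → F y x)
    {V : Finset ℕ} {B ρ : ℕ} (hs : Step E F V B)
    (hb : ∀ X ⊆ V, B ≤ X.card → Has E ρ X ∨ Has F ρ X) :
    ∀ t a b, a + b = t → ∀ X ⊆ V,
      (B : ℝ) * ((11 / 10) ^ (ρ + a) * 12 ^ b + (11 / 10) ^ (ρ + b) * 12 ^ a) ≤ X.card →
      Has E (ρ + a) X ∨ Has F (ρ + b) X := by
  have c1 : ∀ b, ∀ X ⊆ V,
      (B : ℝ) * ((11 / 10) ^ (ρ + 0) * 12 ^ b + (11 / 10) ^ (ρ + b) * 12 ^ 0) ≤ X.card →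
      Has E (ρ + 0) X ∨ Has F (ρ + b) X := by
    intro b X hX hc
    refine walk1 hE hF hs hb _ ρ b rfl le_rfl X hX (le_trans ?_ hc)
    refine mul_le_mul_of_nonneg_left ?_ (by positivity)
    rw [add_zero]
    exact le_add_of_nonneg_right (by positivity)
  have c2 : ∀ a, ∀ X ⊆ V,
      (B : ℝ) * ((11 / 10) ^ (ρ + a) * 12 ^ 0 + (11 / 10) ^ (ρ + 0) * 12 ^ a) ≤ X.card →
      Has E (ρ + a) X ∨ Has F (ρ + 0) X := by
    intro a X hX hc
    refine (walk1 hF hE hs.symm (fun X h1 h2 => (hb X h1 h2).symm) _ ρ a rfl le_rfl X hX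
      (le_trans ?_ hc)).symm
    refine mul_le_mul_of_nonneg_left ?_ (by positivity)
    rw [add_zero]
    exact le_add_of_nonneg_left (by positivity)
  intro t
  induction t with
  | zero =>
    intro a b hab X hX hc
    obtain rfl : a = 0 := by omega
    exact c1 b X hX hc
  | succ t ih =>
    intro a b hab X hX hc
    rcases a with _ | a
    · exact c1 b X hX hc
    rcases b with _ | b
    · exact c2 _ X hX hc
    have hB : B ≤ X.card := by
      have h1 : (1 : ℝ) ≤ (11 / 10) ^ (ρ + (a + 1)) * 12 ^ (b + 1) :=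
        one_le_mul_of_one_le_of_one_le (one_le_pow₀ (by norm_num)) (one_le_pow₀ (by norm_num))
      have h3 : (0 : ℝ) ≤ (11 / 10) ^ (ρ + (b + 1)) * 12 ^ (a + 1) := by positivity
      have h2 : (B : ℝ) ≤ X.card :=
        le_trans (le_mul_of_one_le_right (by positivity) (by linarith)) hc
      exact_mod_cast h2
    obtain ⟨v, hv, Y, hY, Z, hZ, h1, h2, h3, h4, h5⟩ := hs X hX hB
    have h6 : (131 : ℝ) * X.card ≤ 132 * (Y.card + Z.card) := by exact_mod_cast h5
    have h7 : (B : ℝ) * ((11 / 10) ^ (ρ + a) * 12 ^ (b + 1) +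
          (11 / 10) ^ (ρ + (b + 1)) * 12 ^ a) ≤ Y.card ∨
        (B : ℝ) * ((11 / 10) ^ (ρ + (a + 1)) * 12 ^ b +
          (11 / 10) ^ (ρ + b) * 12 ^ (a + 1)) ≤ Z.card := by
      by_contra hn
      push Not at hn
      obtain ⟨q1, q2⟩ := hn
      simp only [← add_assoc, pow_succ] at q1 q2 hc
      nlinarith
    rcases h7 with h7 | h7
    · rcases ih a (b + 1) (by omega) Y (hY.trans hX) h7 with h | h
      · exact Or.inl (h.ins hE hv hY h1 h3)
      · exact Or.inr (h.sub hY)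
    · rcases ih (a + 1) b (by omega) Z (hZ.trans hX) h7 with h | h
      · exact Or.inl (h.sub hZ)
      · exact Or.inr (h.ins hF hv hZ h2 h4)

/-- Greedy choice of an independent set. -/
lemma greedy {H : ℕ → ℕ → Prop} (hH : ∀ x y, H x y → H y x) {V : Finset ℕ} {D : ℝ}
    (hD : ∀ X ⊆ V, X.Nonempty → ∃ v ∈ X, ∀ Y ⊆ X, (∀ u ∈ Y, H v u) → (Y.card : ℝ) + 1 ≤ D) :
    ∀ s : ℕ, ∀ X ⊆ V, s * D ≤ X.card → 1 ≤ D → Has (fun x y => ¬ H x y) s X := by
  classical
  intro s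
  induction s with
  | zero => intro X _ _ _; exact Has.zero _ _
  | succ s ih =>
    intro X hX hc h1
    have hne : X.Nonempty := by
      rw [← card_pos]
      have : (0 : ℝ) < X.card := by
        push_cast at hc
        nlinarith [(Nat.cast_nonneg s : (0 : ℝ) ≤ s)]
      exact_mod_cast this
    obtain ⟨v, hv, hd⟩ := hD X hX hne
    have h2 := hd (X.filter (H v)) (filter_subset _ _) (fun u hu => (mem_filter.1 hu).2)
    have h3 := card_filter_add_card_filter_not (s := X) (H v)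
    have h4 : (X.filter (fun u => ¬ H v u)).card ≤ ((X.filter (fun u => ¬ H v u)).erase v).card + 1 :=
      by have := pred_card_le_card_erase (s := X.filter (fun u => ¬ H v u)) (a := v); omega
    have h5 : (X.card : ℝ) ≤ (X.filter (H v)).card +
        (((X.filter (fun u => ¬ H v u)).erase v).card + 1) := by
      exact_mod_cast (by omega)
    have hsub : (X.filter (fun u => ¬ H v u)).erase v ⊆ X :=
      (erase_subset _ _).trans (filter_subset _ _)
    refine (ih _ (hsub.trans hX) ?_ h1).ins (fun x y h h' => h (hH _ _ h')) hv hsub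
      (notMem_erase _ _) (fun u hu => (mem_filter.1 (mem_of_mem_erase hu)).2)
    push_cast at hc
    linarith

/-- A set of `s` vertices contains a one-coloured `ρ`-set when `K_s` has no good colouring. -/
lemma has_of_not_good {s ρ : ℕ} (h : ¬ Good s 2 2 ρ) (c : Finset ℕ → ℕ) (hc : ∀ T, c T < 2)
    (I : Finset ℕ) (hI : I.card = s) :
    Has (fun x y => c {x, y} = 0) ρ I ∨ Has (fun x y => c {x, y} = 1) ρ I := by
  by_contra hn
  push Not at hn
  refine h (good2_of (fun a b => c {enum I a, enum I b}) (fun a b => hc _) ?_)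
  intro x hx hb v hv
  have hinc : Inc ρ (enum I ∘ x) := (enum_inc I).comp hx (fun i hi => hI ▸ hb i hi)
  have key : Has (fun x y => c {x, y} = v) ρ I := by
    refine ⟨image (enum I ∘ x) (range ρ), ?_, hinc.card_image, ?_⟩
    · intro a ha
      obtain ⟨i, hi, rfl⟩ := mem_image.1 ha
      exact enum_mem (hI ▸ hb i (mem_range.1 hi))
    · intro a ha b hb' hab
      obtain ⟨i, hi, rfl⟩ := mem_image.1 ha
      obtain ⟨j, hj, rfl⟩ := mem_image.1 hb'
      rw [mem_range] at hi hj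
      rcases lt_trichotomy i j with h1 | h1 | h1
      · exact hv i j h1 hj
      · exact absurd (by rw [h1]) hab
      · rw [pair_comm]; exact hv j i h1 hi
  rcases Nat.lt_or_ge ρ 2 with h2 | h2
  · obtain ⟨S, h3, h4, -⟩ := key
    refine hn.1 ⟨S, h3, h4, fun a ha b hb' hab => ?_⟩
    have := one_lt_card.2 ⟨a, ha, b, hb', hab⟩
    omega
  · have h3 := hv 0 1 (by omega) (by omega)
    have h4 := hc {enum I (x 0), enum I (x 1)}
    obtain rfl | rfl : v = 0 ∨ v = 1 := by omega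
    · exact hn.1 key
    · exact hn.2 key

lemma monoN_of {c : Finset ℕ → ℕ} {S : Finset ℕ} {v : ℕ}
    (h : ∀ x ∈ S, ∀ y ∈ S, x ≠ y → c {x, y} = v) : MonoN 2 c S := by
  have key : ∀ T ⊆ S, T.card = 2 → c T = v := by
    intro T hT hc
    obtain ⟨a, b, hab, rfl⟩ := card_eq_two.1 hc
    exact h a (hT (by simp)) b (hT (by simp)) hab
  intro T₁ T₂ h1 h2 c1 c2
  rw [key T₁ h1 c1, key T₂ h2 c2]

/-- The walk in the complement of a sparse graph `H`. -/
lemma walk_main {H : ℕ → ℕ → Prop} (hH : ∀ x y, H x y → H y x) {V : Finset ℕ} {B ρ j : ℕ}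
    (hdeg : ∀ X ⊆ V, B ≤ X.card → ∃ v ∈ X, ∀ Y ⊆ X, (∀ u ∈ Y, H v u) →
      132 * (Y.card + 1) ≤ X.card)
    (c : Finset ℕ → ℕ) (hc : ∀ T, c T < 2)
    (hb : ∀ X ⊆ V, B ≤ X.card → Has (fun x y => ¬ H x y ∧ c {x, y} = 0) ρ X ∨
      Has (fun x y => ¬ H x y ∧ c {x, y} = 1) ρ X)
    (hV : (B : ℝ) * (2 * ((11 / 10) ^ (ρ + j) * 12 ^ j)) ≤ V.card) :
    ∃ S ⊆ V, S.card = ρ + j ∧ (∀ a ∈ S, ∀ b ∈ S, a ≠ b → ¬ H a b) ∧ MonoN 2 c S := by
  classical
  have hsym : ∀ v, ∀ x y, (¬ H x y ∧ c {x, y} = v) → (¬ H y x ∧ c {y, x} = v) :=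
    fun v x y h => ⟨fun h' => h.1 (hH _ _ h'), by rw [pair_comm]; exact h.2⟩
  have hs : Step (fun x y => ¬ H x y ∧ c {x, y} = 0) (fun x y => ¬ H x y ∧ c {x, y} = 1) V B := by
    intro X hX hB
    obtain ⟨v, hv, hd⟩ := hdeg X hX hB
    have h2 := hd (X.filter (H v)) (filter_subset _ _) (fun u hu => (mem_filter.1 hu).2)
    have h3 := card_filter_add_card_filter_not (s := X) (H v)
    set W := (X.filter (fun u => ¬ H v u)).erase v with hW
    have h4 : (X.filter (fun u => ¬ H v u)).card ≤ W.card + 1 := by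
      have := pred_card_le_card_erase (s := X.filter (fun u => ¬ H v u)) (a := v)
      rw [← hW] at this
      omega
    have h5 := card_filter_add_card_filter_not (s := W) (fun u => c {v, u} = 0)
    have hsub : W ⊆ X := (erase_subset _ _).trans (filter_subset _ _)
    have hWn : ∀ u ∈ W, ¬ H v u := fun u hu => (mem_filter.1 (mem_of_mem_erase hu)).2
    refine ⟨v, hv, W.filter (fun u => c {v, u} = 0), (filter_subset _ _).trans hsub,
      W.filter (fun u => ¬ c {v, u} = 0), (filter_subset _ _).trans hsub,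
      fun h => notMem_erase _ _ (mem_filter.1 h).1, fun h => notMem_erase _ _ (mem_filter.1 h).1,
      fun u hu => ⟨hWn u (mem_filter.1 hu).1, (mem_filter.1 hu).2⟩,
      fun u hu => ⟨hWn u (mem_filter.1 hu).1, ?_⟩, by omega⟩
    have := (mem_filter.1 hu).2
    have := hc {v, u}
    omega
  rcases walk2 (hsym 0) (hsym 1) hs hb _ j j rfl V Subset.rfl (by rw [← two_mul]; exact hV) with
    ⟨S, h1, h2, h3⟩ | ⟨S, h1, h2, h3⟩
  · exact ⟨S, h1, h2, fun a ha b hb hab => (h3 a ha b hb hab).1,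
      monoN_of fun a ha b hb hab => (h3 a ha b hb hab).2⟩
  · exact ⟨S, h1, h2, fun a ha b hb hab => (h3 a ha b hb hab).1,
      monoN_of fun a ha b hb hab => (h3 a ha b hb hab).2⟩

/-- A crude Ramsey upper bound. -/
lemma not_good_pow (j : ℕ) : ¬ Good (264 * 14 ^ j) 2 2 j := by
  rintro ⟨c, hc, hg⟩
  obtain ⟨S, h1, h2, -, h4⟩ := walk_main (H := fun _ _ => False) (fun _ _ h => h)
    (V := range (264 * 14 ^ j)) (B := 132) (ρ := 0) (j := j) (by
      intro X _ hB
      obtain ⟨v, hv⟩ : X.Nonempty := card_pos.1 (by omega)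
      refine ⟨v, hv, fun Y _ hY => ?_⟩
      have : Y = ∅ := eq_empty_of_forall_notMem hY
      rw [this, card_empty]
      omega) c hc (fun X _ _ => Or.inl (Has.zero _ _)) (by
      rw [card_range, zero_add, ← mul_pow]
      push_cast
      have : ((11 : ℝ) / 10 * 12) ^ j ≤ 14 ^ j := pow_le_pow_left₀ (by norm_num) (by norm_num) j
      linarith)
  exact hg S h1 (by omega) h4

end Pool.Agent.MP_251804_lc
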